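import Pool.Agent.H16.DM.D8
import Pool.Graph.R_pool_sql_team_668148b0.Helper710.PGPlancherel

set_option autoImplicit false

/-!
# Mean squares and Laplace transforms
-/

namespace Pool.Agent.H16.MS

open Complex Metric Set Filter Topology MeasureTheory
open Pool.Agent.W173.OS Pool.Agent.H295R2 Pool.Agent.H16.DM
open scoped ENNReal

/-- the main term in the variable `u = log x` -/
noncomputable def polyPart (P : Polynomial ℝ) (u : ℝ) : ℂ := if 0 ≤ u then ((Real.exp u * P.eval u : ℝ) : ℂ) else 0

/-- its Laplace transform -/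
noncomputable def polar (P : Polynomial ℝ) (s : ℂ) : ℂ :=
  ∑ i ∈ P.support, (P.coeff i : ℂ) * ((i.factorial : ℂ) / (s - 1) ^ (i + 1))

theorem polyPart_eq (P : Polynomial ℝ) (u : ℝ) : polyPart P u =
    ∑ i ∈ P.support, (P.coeff i : ℂ) * (if 0 ≤ u then ((Real.exp u * u ^ i : ℝ) : ℂ) else 0) := by
  unfold polyPart
  split_ifs with h
  · rw [Polynomial.eval_eq_sum, Polynomial.sum_def]
    push_cast
    rw [Finset.mul_sum]
    refine Finset.sum_congr rfl fun i _ => by ring
  · simp

theorem mono_meas (i : ℕ) : Measurable (fun u : ℝ => if 0 ≤ u then ((Real.exp u * u ^ i : ℝ) : ℂ) else 0) := by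
  apply Measurable.ite measurableSet_Ici
  · fun_prop
  · exact measurable_const

theorem mono_lint (i : ℕ) : LInt (fun u : ℝ => if 0 ≤ u then ((Real.exp u * u ^ i : ℝ) : ℂ) else 0) 1 where
  meas := mono_meas i
  zero := fun u hu => if_neg (not_le.2 hu)
  int := by
    intro x hx
    have h1 : IntegrableOn (fun u : ℝ => u ^ (i : ℝ) * Real.exp (-(x - 1) * u)) (Ioi 0) :=
      integrableOn_rpow_mul_exp_neg_mul_rpow (p := 1) (s := i) (b := x - 1) (by
        have : (0 : ℝ) ≤ i := Nat.cast_nonneg i
        linarith) one_pos (by linarith) |>.congr_fun (fun u _ => by simp) measurableSet_Ioi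
    have h2 : Integrable ((Ioi (0 : ℝ)).indicator fun u : ℝ => u ^ (i : ℝ) * Real.exp (-(x - 1) * u)) :=
      h1.integrable_indicator measurableSet_Ioi
    refine h2.congr ?_
    have h0 : ∀ᵐ u : ℝ, u ≠ 0 := by simp [ae_iff, measure_singleton]
    filter_upwards [h0] with u hu
    by_cases hu0 : 0 < u
    · rw [indicator_of_mem (by simpa using hu0), if_pos hu0.le, Complex.norm_real, Real.norm_of_nonneg (by positivity),
        Real.rpow_natCast]
      rw [mul_comm (Real.exp u), mul_assoc, ← Real.exp_add]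
      congr 2
      ring
    · have hu1 : u < 0 := lt_of_le_of_ne (not_lt.1 hu0) hu
      rw [indicator_of_notMem (by simpa using hu0), if_neg (not_le.2 hu1)]
      simp

theorem mono_lap_real (i : ℕ) {x : ℝ} (hx : 1 < x) :
    Lap (fun u : ℝ => if 0 ≤ u then ((Real.exp u * u ^ i : ℝ) : ℂ) else 0) (x : ℂ) =
      (i.factorial : ℂ) / ((x : ℂ) - 1) ^ (i + 1) := by
  unfold Lap
  have h1 := Complex.integral_cpow_mul_exp_neg_mul_Ioi (a := (i : ℂ) + 1) (r := x - 1) (by simp; positivity)
    (by linarith)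
  rw [Complex.Gamma_nat_eq_factorial] at h1
  have h2 : (1 / ((x - 1 : ℝ) : ℂ)) ^ ((i : ℂ) + 1) = 1 / ((x : ℂ) - 1) ^ (i + 1) := by
    have : ((i : ℂ) + 1) = ((i + 1 : ℕ) : ℂ) := by push_cast; ring
    rw [this, Complex.cpow_natCast, one_div, one_div, inv_pow]
    push_cast
    rfl
  rw [h2] at h1
  rw [show (i.factorial : ℂ) / ((x : ℂ) - 1) ^ (i + 1) = 1 / ((x : ℂ) - 1) ^ (i + 1) * (i.factorial : ℂ) by ring, ← h1,
    ← integral_indicator measurableSet_Ioi]
  apply integral_congr_ae
  have h0 : ∀ᵐ u : ℝ, u ≠ 0 := by simp [ae_iff, measure_singleton]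
  filter_upwards [h0] with u hu
  by_cases hu0 : 0 < u
  · rw [indicator_of_mem (by simpa using hu0), if_pos hu0.le]
    rw [add_sub_cancel_right, Complex.cpow_natCast]
    push_cast
    rw [mul_comm (Complex.exp u), mul_assoc, ← Complex.exp_add]
    congr 2
    ring
  · have hu1 : u < 0 := lt_of_le_of_ne (not_lt.1 hu0) hu
    rw [indicator_of_notMem (by simpa using hu0), if_neg (not_le.2 hu1), zero_mul]

theorem mono_lap (i : ℕ) {s : ℂ} (hs : 1 < s.re) :
    Lap (fun u : ℝ => if 0 ≤ u then ((Real.exp u * u ^ i : ℝ) : ℂ) else 0) s = (i.factorial : ℂ) / (s - 1) ^ (i + 1) := by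
  set U : Set ℂ := {s : ℂ | 1 < s.re} with hU
  have hUo : IsOpen U := isOpen_lt continuous_const Complex.continuous_re
  have hA1 : AnalyticOnNhd ℂ (Lap (fun u : ℝ => if 0 ≤ u then ((Real.exp u * u ^ i : ℝ) : ℂ) else 0)) U :=
    (mono_lint i).analyticOnNhd
  have hA2 : AnalyticOnNhd ℂ (fun s : ℂ => (i.factorial : ℂ) / (s - 1) ^ (i + 1)) U := by
    apply DifferentiableOn.analyticOnNhd _ hUo
    intro s hs
    have hne : s - 1 ≠ 0 := by
      intro h
      have h1 : s = 1 := sub_eq_zero.1 h
      have h2 : 1 < s.re := hs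
      rw [h1] at h2
      simp at h2
    apply DifferentiableAt.differentiableWithinAt
    have h3 : DifferentiableAt ℂ (fun s : ℂ => (s - 1) ^ (i + 1)) s := by fun_prop
    exact (differentiableAt_const (i.factorial : ℂ)).div h3 (pow_ne_zero _ hne)
  have hconv : IsPreconnected U := (convex_halfSpace_re_gt 1).isPreconnected
  have h2U : (2 : ℂ) ∈ U := by simp [hU]
  have hfreq : ∃ᶠ z in 𝓝[≠] (2 : ℂ), Lap (fun u : ℝ => if 0 ≤ u then ((Real.exp u * u ^ i : ℝ) : ℂ) else 0) z =
      (i.factorial : ℂ) / (z - 1) ^ (i + 1) := by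
    have ht : Tendsto (fun x : ℝ => (x : ℂ)) (𝓝[>] (2 : ℝ)) (𝓝[≠] (2 : ℂ)) := by
      apply tendsto_nhdsWithin_of_tendsto_nhds_of_eventually_within
      · have := Complex.continuous_ofReal.tendsto (2 : ℝ)
        simpa using this.mono_left nhdsWithin_le_nhds
      · filter_upwards [self_mem_nhdsWithin] with x hx
        simp only [mem_compl_iff, mem_singleton_iff]
        intro h
        have : x = 2 := by exact_mod_cast h
        rw [this] at hx
        simp at hx
    refine ht.frequently (Eventually.frequently ?_)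
    filter_upwards [self_mem_nhdsWithin] with x hx
    have hx2 : (2 : ℝ) < x := hx
    exact mono_lap_real i (by linarith)
  exact hA1.eqOn_of_preconnected_of_frequently_eq hA2 hconv h2U hfreq hs

theorem LInt.const_mul {f : ℝ → ℂ} {b : ℝ} (h : LInt f b) (c : ℂ) : LInt (fun u => c * f u) b where
  meas := h.meas.const_mul c
  zero := fun u hu => by rw [h.zero u hu, mul_zero]
  int := by
    intro x hx
    refine ((h.int x hx).const_mul ‖c‖).congr (Eventually.of_forall fun u => ?_)
    simp only [norm_mul]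
    ring

theorem LInt.sum {f : ℕ → ℝ → ℂ} {b : ℝ} (S : Finset ℕ) (h : ∀ i ∈ S, LInt (f i) b) : LInt (fun u => ∑ i ∈ S, f i u) b := by
  classical
  induction S using Finset.induction_on with
  | empty =>
    refine ⟨by simp, fun u _ => by simp, fun x hx => by simp⟩
  | insert a S ha ih =>
    have h1 := (h a (Finset.mem_insert_self a S)).add (ih fun i hi => h i (Finset.mem_insert_of_mem hi))
    refine ⟨?_, ?_, ?_⟩
    · simpa [Finset.sum_insert ha] using h1.meas
    · intro u hu
      rw [Finset.sum_insert ha]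
      exact h1.zero u hu
    · intro x hx
      simp only [Finset.sum_insert ha]
      exact h1.int x hx

theorem polyPart_lint (P : Polynomial ℝ) : LInt (polyPart P) 1 := by
  have h := LInt.sum (f := fun i u => (P.coeff i : ℂ) * (if 0 ≤ u then ((Real.exp u * u ^ i : ℝ) : ℂ) else 0))
    P.support fun i _ => (LInt.const_mul (mono_lint i) (P.coeff i : ℂ))
  have e : (fun u => ∑ i ∈ P.support, (P.coeff i : ℂ) * (if 0 ≤ u then ((Real.exp u * u ^ i : ℝ) : ℂ) else 0)) =
      polyPart P := funext fun u => (polyPart_eq P u).symm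
  rwa [e] at h

theorem polyPart_lap (P : Polynomial ℝ) {s : ℂ} (hs : 1 < s.re) : Lap (polyPart P) s = polar P s := by
  unfold Lap polar
  simp_rw [polyPart_eq, Finset.sum_mul]
  rw [integral_finsetSum]
  · refine Finset.sum_congr rfl fun i _ => ?_
    rw [← mono_lap i hs]
    unfold Lap
    rw [← integral_const_mul]
    congr 1
    ext u
    ring
  · intro i _
    exact (LInt.const_mul (mono_lint i) (P.coeff i : ℂ)).integrable hs

end Pool.Agent.H16.MS
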