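import Pool.Agent.H16.MS.M1

set_option autoImplicit false

/-!
# Mean squares and Laplace transforms, II
-/

namespace Pool.Agent.H16.MS

open Complex Metric Set Filter Topology MeasureTheory
open Pool.Agent.W173.OS Pool.Agent.H295R2 Pool.Agent.H16.DM
open scoped ENNReal

/-- the error term -/
noncomputable def Del (f : ℕ → ℝ) (P : Polynomial ℝ) (x : ℝ) : ℝ :=
  ∑ n ∈ Finset.Icc 1 ⌊x⌋₊, f n - x * P.eval (Real.log x)

/-- the mean square bound -/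
def MSB (f : ℕ → ℝ) (P : Polynomial ℝ) (θ : ℝ) : Prop :=
  ∃ C : ℝ, ∀ X : ℝ, 1 ≤ X → ∫ x in (1 : ℝ)..X, Del f P x ^ 2 ≤ C * X ^ (1 + 2 * θ)

/-- the error term in the variable `u = log x` -/
noncomputable def aa (f : ℕ → ℝ) (P : Polynomial ℝ) (u : ℝ) : ℂ := (sumExp f u : ℂ) - polyPart P u

theorem aa_neg (f : ℕ → ℝ) (P : Polynomial ℝ) {u : ℝ} (hu : u < 0) : aa f P u = 0 := by
  unfold aa polyPart
  rw [sumExp_zero f u hu, if_neg (not_le.2 hu)]
  simp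

theorem aa_pos (f : ℕ → ℝ) (P : Polynomial ℝ) {u : ℝ} (hu : 0 ≤ u) : aa f P u = ((Del f P (Real.exp u) : ℝ) : ℂ) := by
  unfold aa polyPart Del sumExp
  rw [if_pos hu, Real.log_exp]
  push_cast
  ring

theorem Del_meas (f : ℕ → ℝ) (P : Polynomial ℝ) : Measurable (Del f P) := by
  unfold Del
  have h1 : Measurable (fun n : ℕ => ∑ k ∈ Finset.Icc 1 n, f k) := measurable_from_top
  have h2 : Measurable (fun x : ℝ => ∑ n ∈ Finset.Icc 1 ⌊x⌋₊, f n) := h1.comp Nat.measurable_floor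
  have h3 : Measurable (fun x : ℝ => P.eval (Real.log x)) := P.continuous.measurable.comp Real.measurable_log
  exact h2.sub (measurable_id.mul h3)

theorem aa_meas (f : ℕ → ℝ) (P : Polynomial ℝ) : Measurable (aa f P) :=
  (Complex.measurable_ofReal.comp (sumExp_measurable f)).sub (polyPart_lint P).meas

theorem Del_bound {f : ℕ → ℝ} (hf : ∃ C : ℝ, ∀ n : ℕ, |f n| ≤ C * (n : ℝ) ^ (1 / 2 : ℝ)) (P : Polynomial ℝ) :
    ∃ K : ℝ, 0 ≤ K ∧ ∀ x : ℝ, 1 ≤ x → |Del f P x| ≤ K * x ^ (3 / 2 : ℝ) := by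
  obtain ⟨C, hC⟩ := hf
  have hC0 : 0 ≤ C := by
    have := (abs_nonneg _).trans (hC 1)
    simpa using this
  refine ⟨C + ∑ i ∈ P.support, |P.coeff i| * (2 * (i + 1)) ^ i, by positivity, fun x hx => ?_⟩
  have hx0 : 0 < x := by linarith
  have h1 : |∑ n ∈ Finset.Icc 1 ⌊x⌋₊, f n| ≤ C * x ^ (3 / 2 : ℝ) := by
    calc |∑ n ∈ Finset.Icc 1 ⌊x⌋₊, f n| ≤ ∑ n ∈ Finset.Icc 1 ⌊x⌋₊, |f n| := Finset.abs_sum_le_sum_abs _ _
      _ ≤ ∑ n ∈ Finset.Icc 1 ⌊x⌋₊, C * x ^ (1 / 2 : ℝ) := by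
          apply Finset.sum_le_sum
          intro n hn
          refine (hC n).trans (mul_le_mul_of_nonneg_left ?_ hC0)
          apply Real.rpow_le_rpow (Nat.cast_nonneg n) _ (by norm_num)
          exact (Nat.cast_le.2 (Finset.mem_Icc.1 hn).2).trans (Nat.floor_le hx0.le)
      _ = ⌊x⌋₊ * (C * x ^ (1 / 2 : ℝ)) := by
          rw [Finset.sum_const, Nat.card_Icc, nsmul_eq_mul, Nat.add_sub_cancel]
      _ ≤ x * (C * x ^ (1 / 2 : ℝ)) := by
          apply mul_le_mul_of_nonneg_right (Nat.floor_le hx0.le)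
          positivity
      _ = C * x ^ (3 / 2 : ℝ) := by
          rw [show (3 / 2 : ℝ) = 1 + 1 / 2 by norm_num, Real.rpow_add hx0, Real.rpow_one]; ring
  have h2 : |x * P.eval (Real.log x)| ≤ (∑ i ∈ P.support, |P.coeff i| * (2 * (i + 1)) ^ i) * x ^ (3 / 2 : ℝ) := by
    rw [abs_mul, abs_of_pos hx0, Polynomial.eval_eq_sum, Polynomial.sum_def]
    calc x * |∑ i ∈ P.support, P.coeff i * Real.log x ^ i|
        ≤ x * ∑ i ∈ P.support, |P.coeff i * Real.log x ^ i| :=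
          mul_le_mul_of_nonneg_left (Finset.abs_sum_le_sum_abs _ _) hx0.le
      _ ≤ x * ∑ i ∈ P.support, |P.coeff i| * (2 * (i + 1)) ^ i * x ^ (1 / 2 : ℝ) := by
          apply mul_le_mul_of_nonneg_left _ hx0.le
          apply Finset.sum_le_sum
          intro i _
          rw [abs_mul, abs_of_nonneg (pow_nonneg (Real.log_nonneg hx) i), mul_assoc]
          exact mul_le_mul_of_nonneg_left (log_pow_le i hx) (abs_nonneg _)
      _ = _ := by
          rw [← Finset.sum_mul, show (3 / 2 : ℝ) = 1 + 1 / 2 by norm_num, Real.rpow_add hx0, Real.rpow_one]; ring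
  calc |Del f P x| ≤ |∑ n ∈ Finset.Icc 1 ⌊x⌋₊, f n| + |x * P.eval (Real.log x)| := abs_sub _ _
    _ ≤ _ := by rw [add_mul]; exact add_le_add h1 h2

theorem aa_nice {f : ℕ → ℝ} (hf : ∃ C : ℝ, ∀ n : ℕ, |f n| ≤ C * (n : ℝ) ^ (1 / 2 : ℝ)) (P : Polynomial ℝ) :
    ∃ K : ℝ, Nice (aa f P) K (3 / 2) 0 := by
  obtain ⟨K, hK0, hK⟩ := Del_bound hf P
  refine ⟨K, aa_meas f P, fun u => ?_, fun u hu => aa_neg f P hu⟩
  rcases lt_or_ge u 0 with hu | hu
  · rw [aa_neg f P hu, norm_zero]; positivity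
  · rw [aa_pos f P hu, Complex.norm_real, Real.norm_eq_abs]
    have := hK (Real.exp u) (Real.one_le_exp hu)
    rw [← Real.exp_mul, mul_comm u] at this
    exact this

theorem Del_sq_int {f : ℕ → ℝ} (hf : ∃ C : ℝ, ∀ n : ℕ, |f n| ≤ C * (n : ℝ) ^ (1 / 2 : ℝ)) (P : Polynomial ℝ) (X : ℝ) :
    IntegrableOn (fun x => Del f P x ^ 2) (Ioc 1 X) := by
  obtain ⟨K, hK0, hK⟩ := Del_bound hf P
  have hc : IntegrableOn (fun _ : ℝ => (K * X ^ (3 / 2 : ℝ)) ^ 2) (Ioc 1 X) := integrableOn_const (by simp)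
  refine hc.mono' ((Del_meas f P).pow_const 2).aestronglyMeasurable ?_
  filter_upwards [ae_restrict_mem measurableSet_Ioc] with x hx
  rw [Real.norm_of_nonneg (sq_nonneg _), ← sq_abs]
  apply pow_le_pow_left₀ (abs_nonneg _)
  refine (hK x hx.1.le).trans (mul_le_mul_of_nonneg_left ?_ hK0)
  exact Real.rpow_le_rpow (by linarith [hx.1]) hx.2 (by norm_num)

theorem lint_Ioc {f : ℕ → ℝ} (hf : ∃ C : ℝ, ∀ n : ℕ, |f n| ≤ C * (n : ℝ) ^ (1 / 2 : ℝ)) (P : Polynomial ℝ) {X : ℝ}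
    (hX : 1 ≤ X) : ∫⁻ x in Ioc 1 X, ENNReal.ofReal (Del f P x ^ 2) = ENNReal.ofReal (∫ x in (1 : ℝ)..X, Del f P x ^ 2) := by
  rw [intervalIntegral.integral_of_le hX, ofReal_integral_eq_lintegral_ofReal (Del_sq_int hf P X)]
  exact Eventually.of_forall fun x => sq_nonneg _

theorem exp_image : Real.exp '' Ioi 0 = Ioi 1 := by
  ext x
  simp only [mem_image, mem_Ioi]
  constructor
  · rintro ⟨u, hu, rfl⟩
    exact Real.one_lt_exp_iff.2 hu
  · intro hx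
    exact ⟨Real.log x, Real.log_pos hx, Real.exp_log (by linarith)⟩

/-- the change of variables -/
theorem change (f : ℕ → ℝ) (P : Polynomial ℝ) (σ : ℝ) :
    ∫⁻ u : ℝ, ‖aa f P u * Complex.exp (-((σ : ℂ) * u))‖ₑ ^ 2 =
      ∫⁻ x in Ioi (1 : ℝ), ENNReal.ofReal (Del f P x ^ 2) * ENNReal.ofReal (x ^ (-(2 * σ) - 1)) := by
  have h1 := lintegral_image_eq_lintegral_abs_deriv_mul (s := Ioi (0 : ℝ)) (f := Real.exp) (f' := Real.exp)
    measurableSet_Ioi (fun x _ => (Real.hasDerivAt_exp x).hasDerivWithinAt) Real.exp_injective.injOn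
    (fun x => ENNReal.ofReal (Del f P x ^ 2) * ENNReal.ofReal (x ^ (-(2 * σ) - 1)))
  rw [exp_image] at h1
  rw [h1, ← lintegral_indicator measurableSet_Ioi]
  apply lintegral_congr_ae
  have h0 : ∀ᵐ u : ℝ, u ≠ 0 := by simp [ae_iff, measure_singleton]
  filter_upwards [h0] with u hu
  by_cases hu0 : 0 < u
  · rw [indicator_of_mem (by simpa using hu0), aa_pos f P hu0.le]
    rw [← ENNReal.ofReal_mul (sq_nonneg _), ← ENNReal.ofReal_mul (abs_nonneg _), ← ofReal_norm,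
      ← ENNReal.ofReal_pow (norm_nonneg _)]
    congr 1
    rw [norm_mul, Complex.norm_real, Complex.norm_exp, abs_of_pos (Real.exp_pos u), mul_pow, Real.norm_eq_abs, sq_abs,
      ← Real.exp_mul]
    have e : (-((σ : ℂ) * (u : ℂ))).re = -(σ * u) := by simp
    rw [e, ← Real.exp_nat_mul]
    have e2 : Real.exp u * (Del f P (Real.exp u) ^ 2 * Real.exp (u * (-(2 * σ) - 1))) =
        Del f P (Real.exp u) ^ 2 * (Real.exp u * Real.exp (u * (-(2 * σ) - 1))) := by ring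
    rw [e2, ← Real.exp_add]
    congr 2
    push_cast
    ring
  · have hu1 : u < 0 := lt_of_le_of_ne (not_lt.1 hu0) hu
    rw [indicator_of_notMem (by simpa using hu0), aa_neg f P hu1]
    simp

/-- from mean squares to the weighted integral -/
theorem weighted {f : ℕ → ℝ} (hf : ∃ C : ℝ, ∀ n : ℕ, |f n| ≤ C * (n : ℝ) ^ (1 / 2 : ℝ)) {P : Polynomial ℝ} {θ : ℝ}
    (hθ : 0 ≤ θ) (h : MSB f P θ) {σ : ℝ} (hσ : θ < σ) :
    ∫⁻ u : ℝ, ‖aa f P u * Complex.exp (-((σ : ℂ) * u))‖ₑ ^ 2 < ⊤ := by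
  obtain ⟨C, hC⟩ := h
  rw [change]
  set g : ℝ → ℝ≥0∞ := fun x => ENNReal.ofReal (Del f P x ^ 2) * ENNReal.ofReal (x ^ (-(2 * σ) - 1)) with hg
  have hC0 : 0 ≤ C := by
    have := hC 1 le_rfl
    rw [intervalIntegral.integral_same] at this
    simpa using this
  have hsub : Ioi (1 : ℝ) ⊆ ⋃ m : ℕ, Icc ((2 : ℝ) ^ m) (2 ^ (m + 1)) := by
    intro x hx
    have hx1 : (1 : ℝ) < x := hx
    obtain ⟨m, hm1, hm2⟩ := exists_nat_pow_near hx1.le (by norm_num : (1 : ℝ) < 2)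
    exact mem_iUnion.2 ⟨m, hm1, hm2.le⟩
  set q : ℝ := 2 ^ (-(2 * (σ - θ))) with hq
  have hq0 : 0 < q := by positivity
  have hq1 : q < 1 := Real.rpow_lt_one_of_one_lt_of_neg (by norm_num) (by linarith)
  have hpiece : ∀ m : ℕ, ∫⁻ x in Icc ((2 : ℝ) ^ m) (2 ^ (m + 1)), g x ≤ ENNReal.ofReal (C * 2 ^ (1 + 2 * θ) * q ^ m) := by
    intro m
    have h2m : (1 : ℝ) ≤ 2 ^ m := one_le_pow₀ (by norm_num)
    have h2m1 : (1 : ℝ) ≤ 2 ^ (m + 1) := one_le_pow₀ (by norm_num)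
    calc ∫⁻ x in Icc ((2 : ℝ) ^ m) (2 ^ (m + 1)), g x
        ≤ ∫⁻ x in Icc ((2 : ℝ) ^ m) (2 ^ (m + 1)), ENNReal.ofReal (Del f P x ^ 2) *
            ENNReal.ofReal (((2 : ℝ) ^ m) ^ (-(2 * σ) - 1)) := by
          apply setLIntegral_mono' measurableSet_Icc
          intro x hx
          apply mul_le_mul_right
          apply ENNReal.ofReal_le_ofReal
          exact Real.rpow_le_rpow_of_nonpos (by positivity) hx.1 (by linarith)
      _ = (∫⁻ x in Icc ((2 : ℝ) ^ m) (2 ^ (m + 1)), ENNReal.ofReal (Del f P x ^ 2)) *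
            ENNReal.ofReal (((2 : ℝ) ^ m) ^ (-(2 * σ) - 1)) := lintegral_mul_const' _ _ ENNReal.ofReal_ne_top
      _ ≤ (∫⁻ x in Icc (1 : ℝ) (2 ^ (m + 1)), ENNReal.ofReal (Del f P x ^ 2)) *
            ENNReal.ofReal (((2 : ℝ) ^ m) ^ (-(2 * σ) - 1)) := by
          gcongr
      _ ≤ ENNReal.ofReal (C * (2 ^ (m + 1) : ℝ) ^ (1 + 2 * θ)) * ENNReal.ofReal (((2 : ℝ) ^ m) ^ (-(2 * σ) - 1)) := by
          gcongr
          rw [← setLIntegral_congr Ioc_ae_eq_Icc, lint_Ioc hf P h2m1]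
          exact ENNReal.ofReal_le_ofReal (hC _ h2m1)
      _ = ENNReal.ofReal (C * 2 ^ (1 + 2 * θ) * q ^ m) := by
          rw [← ENNReal.ofReal_mul (by positivity)]
          congr 1
          have e1 : ((2 : ℝ) ^ (m + 1)) ^ (1 + 2 * θ) = 2 ^ (1 + 2 * θ) * (2 : ℝ) ^ ((m : ℝ) * (1 + 2 * θ)) := by
            rw [pow_succ, Real.mul_rpow (by positivity) (by norm_num), ← Real.rpow_natCast (2 : ℝ) m,
              ← Real.rpow_mul (by norm_num)]
            ring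
          have e2 : ((2 : ℝ) ^ m) ^ (-(2 * σ) - 1) = (2 : ℝ) ^ ((m : ℝ) * (-(2 * σ) - 1)) := by
            rw [← Real.rpow_natCast (2 : ℝ) m, ← Real.rpow_mul (by norm_num)]
          have e3 : q ^ m = (2 : ℝ) ^ ((m : ℝ) * (1 + 2 * θ)) * (2 : ℝ) ^ ((m : ℝ) * (-(2 * σ) - 1)) := by
            rw [hq, ← Real.rpow_natCast, ← Real.rpow_mul (by norm_num), ← Real.rpow_add (by norm_num)]
            congr 1
            ring
          rw [e1, e2, e3]
          ring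
  calc ∫⁻ x in Ioi (1 : ℝ), g x ≤ ∫⁻ x in ⋃ m : ℕ, Icc ((2 : ℝ) ^ m) (2 ^ (m + 1)), g x := lintegral_mono_set hsub
    _ ≤ ∑' m : ℕ, ∫⁻ x in Icc ((2 : ℝ) ^ m) (2 ^ (m + 1)), g x := lintegral_iUnion_le _ _
    _ ≤ ∑' m : ℕ, ENNReal.ofReal (C * 2 ^ (1 + 2 * θ) * q ^ m) := ENNReal.tsum_le_tsum hpiece
    _ < ⊤ := by
        rw [← ENNReal.ofReal_tsum_of_nonneg (fun m => by positivity)
          ((summable_geometric_of_lt_one hq0.le hq1).mul_left _)]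
        exact ENNReal.ofReal_lt_top

/-- and back -/
theorem MSB_of {f : ℕ → ℝ} (hf : ∃ C : ℝ, ∀ n : ℕ, |f n| ≤ C * (n : ℝ) ^ (1 / 2 : ℝ)) {P : Polynomial ℝ} {σ : ℝ}
    (hσ : 0 ≤ σ) (h : ∫⁻ u : ℝ, ‖aa f P u * Complex.exp (-((σ : ℂ) * u))‖ₑ ^ 2 < ⊤) : MSB f P σ := by
  rw [change] at h
  set I := ∫⁻ x in Ioi (1 : ℝ), ENNReal.ofReal (Del f P x ^ 2) * ENNReal.ofReal (x ^ (-(2 * σ) - 1)) with hI
  refine ⟨I.toReal, fun X hX => ?_⟩
  have hX0 : 0 < X := by linarith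
  have h1 : ENNReal.ofReal (∫ x in (1 : ℝ)..X, Del f P x ^ 2) ≤ ENNReal.ofReal (X ^ (1 + 2 * σ)) * I := by
    rw [← lint_Ioc hf P hX]
    calc ∫⁻ x in Ioc 1 X, ENNReal.ofReal (Del f P x ^ 2)
        ≤ ∫⁻ x in Ioc 1 X, ENNReal.ofReal (X ^ (1 + 2 * σ)) *
            (ENNReal.ofReal (Del f P x ^ 2) * ENNReal.ofReal (x ^ (-(2 * σ) - 1))) := by
          apply setLIntegral_mono' measurableSet_Ioc
          intro x hx
          have hx0 : 0 < x := by linarith [hx.1]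
          rw [← ENNReal.ofReal_mul (sq_nonneg _), ← ENNReal.ofReal_mul (by positivity)]
          apply ENNReal.ofReal_le_ofReal
          have e1 : 1 ≤ X ^ (1 + 2 * σ) * x ^ (-(2 * σ) - 1) := by
            have e2 : -(2 * σ) - 1 = -(1 + 2 * σ) := by ring
            rw [e2, Real.rpow_neg hx0.le, ← div_eq_mul_inv, le_div_iff₀ (by positivity), one_mul]
            exact Real.rpow_le_rpow hx0.le hx.2 (by linarith)
          calc Del f P x ^ 2 = Del f P x ^ 2 * 1 := by ring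
            _ ≤ Del f P x ^ 2 * (X ^ (1 + 2 * σ) * x ^ (-(2 * σ) - 1)) :=
                mul_le_mul_of_nonneg_left e1 (sq_nonneg _)
            _ = _ := by ring
      _ = ENNReal.ofReal (X ^ (1 + 2 * σ)) * ∫⁻ x in Ioc 1 X,
            (ENNReal.ofReal (Del f P x ^ 2) * ENNReal.ofReal (x ^ (-(2 * σ) - 1))) :=
          lintegral_const_mul' _ _ ENNReal.ofReal_ne_top
      _ ≤ ENNReal.ofReal (X ^ (1 + 2 * σ)) * I := by
          rw [hI]
          gcongr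
          exact Ioc_subset_Ioi_self
  have h2 := ENNReal.toReal_mono (ENNReal.mul_ne_top ENNReal.ofReal_ne_top h.ne) h1
  have hnn : 0 ≤ ∫ x in (1 : ℝ)..X, Del f P x ^ 2 := intervalIntegral.integral_nonneg hX fun x _ => sq_nonneg _
  have hXp : 0 ≤ X ^ (1 + 2 * σ) := by positivity
  rw [ENNReal.toReal_mul, ENNReal.toReal_ofReal hnn, ENNReal.toReal_ofReal hXp] at h2
  linarith

end Pool.Agent.H16.MS
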