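import Pool.Agent.H16.MS.M2

set_option autoImplicit false

/-!
# Mean squares and Laplace transforms, III: Plancherel
-/

namespace Pool.Agent.H16.MS

open Complex Metric Set Filter Topology MeasureTheory
open Pool.Agent.W173.OS Pool.Agent.H295R2 Pool.Agent.H16.DM
open scoped ENNReal FourierTransform

theorem memLp_two {f : ℝ → ℂ} (hf : AEStronglyMeasurable f) (h : ∫⁻ u, ‖f u‖ₑ ^ 2 < ⊤) : MemLp f 2 := by
  refine ⟨hf, ?_⟩
  rw [eLpNorm_lt_top_iff_lintegral_rpow_enorm_lt_top (by norm_num) (by norm_num)]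
  simpa using h

theorem scale_lint {c : ℝ} (hc : 0 < c) (F : ℝ → ℝ≥0∞) (hF : Measurable F) :
    ∫⁻ t : ℝ, F (c * t) = ENNReal.ofReal (c⁻¹) * ∫⁻ t : ℝ, F t := by
  have h1 := Real.map_volume_mul_left hc.ne'
  have h2 : ∫⁻ t : ℝ, F t ∂(Measure.map (fun x => c * x) volume) = ∫⁻ t : ℝ, F (c * t) :=
    lintegral_map hF (by fun_prop)
  have h3 : (Measure.map (fun x => c * x) volume) = ENNReal.ofReal |c⁻¹| • (volume : Measure ℝ) := h1
  rw [← h2, h3, lintegral_smul_measure, abs_of_pos (by positivity)]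
  rfl

/-- the function `a(u) e^(-σu)` -/
noncomputable def hh (a : ℝ → ℂ) (σ : ℝ) (u : ℝ) : ℂ := a u * Complex.exp (-((σ : ℂ) * u))

theorem hh_meas {a : ℝ → ℂ} (ha : Measurable a) (σ : ℝ) : Measurable (hh a σ) := by
  unfold hh
  fun_prop

theorem lap_eq_fourier (a : ℝ → ℂ) (σ t : ℝ) : Lap a ((σ : ℂ) + t * I) = 𝓕 (hh a σ) ((2 * Real.pi)⁻¹ * t) := by
  rw [Real.fourier_eq']
  unfold Lap hh
  congr 1
  ext u
  rw [smul_eq_mul, mul_comm, mul_comm (Complex.exp _) (a u * _), mul_assoc, ← Complex.exp_add]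
  rw [mul_comm]
  congr 2
  simp only [RCLike.inner_apply, conj_trivial]
  have hpi : (Real.pi : ℂ) ≠ 0 := by exact_mod_cast Real.pi_ne_zero
  push_cast
  field_simp
  ring

theorem plancherel {a : ℝ → ℂ} (ha : Measurable a) {σ : ℝ} (h1 : Integrable (hh a σ))
    (h2 : ∫⁻ u, ‖hh a σ u‖ₑ ^ 2 < ⊤) :
    ∫⁻ t : ℝ, ‖Lap a ((σ : ℂ) + t * I)‖ₑ ^ 2 = ENNReal.ofReal (2 * Real.pi) * ∫⁻ u, ‖hh a σ u‖ₑ ^ 2 := by
  have h3 := Pool.Agent.Helper710.PosGroup.plancherel_lintegral (hh a σ) h1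
    (memLp_two (hh_meas ha σ).aestronglyMeasurable h2)
  rw [← h3]
  have hc : Continuous (𝓕 (hh a σ)) :=
    VectorFourier.fourierIntegral_continuous Real.continuous_fourierChar (innerSL ℝ).continuous₂ h1
  have h4 := scale_lint (c := (2 * Real.pi)⁻¹) (by positivity) (fun ξ => ‖𝓕 (hh a σ) ξ‖ₑ ^ 2)
    (hc.measurable.enorm.pow_const 2)
  rw [inv_inv] at h4
  rw [← h4]
  congr 1
  ext t
  rw [lap_eq_fourier]

theorem lint_of_l2 {a : ℝ → ℂ} (ha : Measurable a) (h0 : ∀ u, u < 0 → a u = 0) {θ : ℝ}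
    (h : ∀ σ : ℝ, θ < σ → ∫⁻ u, ‖hh a σ u‖ₑ ^ 2 < ⊤) : LInt a θ := by
  refine ⟨ha, h0, fun x hx => ?_⟩
  set σ : ℝ := (θ + x) / 2 with hσ
  have hσ1 : θ < σ := by linarith
  have hσ2 : σ < x := by linarith
  have m1 := memLp_two (hh_meas ha σ).aestronglyMeasurable (h σ hσ1)
  set w : ℝ → ℂ := (Ioi (0 : ℝ)).indicator fun u => ((Real.exp (-((x - σ) * u)) : ℝ) : ℂ) with hw
  have hwm : Measurable w := by
    apply Measurable.indicator _ measurableSet_Ioi
    fun_prop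
  have m2 : MemLp w 2 := by
    apply memLp_two hwm.aestronglyMeasurable
    have h5 : IntegrableOn (fun u => Real.exp (-(2 * (x - σ)) * u)) (Ioi 0) :=
      integrableOn_exp_mul_Ioi (by linarith) 0
    have h6 : ∫⁻ u, ‖w u‖ₑ ^ 2 = ∫⁻ u in Ioi (0 : ℝ), ‖Real.exp (-(2 * (x - σ)) * u)‖ₑ := by
      rw [← lintegral_indicator measurableSet_Ioi]
      congr 1
      ext u
      simp only [hw]
      by_cases hu : u ∈ Ioi (0 : ℝ)
      · rw [indicator_of_mem hu, indicator_of_mem hu, ← ofReal_norm, ← ofReal_norm, ← ENNReal.ofReal_pow (norm_nonneg _)]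
        congr 1
        rw [Complex.norm_real, Real.norm_of_nonneg (by positivity), Real.norm_of_nonneg (by positivity), ← Real.exp_nat_mul]
        congr 1
        push_cast
        ring
      · rw [indicator_of_notMem hu, indicator_of_notMem hu]
        simp
    rw [h6]
    exact h5.2
  have h7 : Integrable (fun u => ‖hh a σ u‖ * ‖w u‖) := m1.norm.integrable_mul m2.norm
  refine h7.congr ?_
  have hne : ∀ᵐ u : ℝ, u ≠ 0 := by simp [ae_iff, measure_singleton]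
  filter_upwards [hne] with u hu
  by_cases hu0 : 0 < u
  · simp only [hw]
    rw [indicator_of_mem (by simpa using hu0)]
    unfold hh
    rw [norm_mul, Complex.norm_exp, Complex.norm_real, Real.norm_of_nonneg (by positivity)]
    have e : (-((σ : ℂ) * (u : ℂ))).re = -(σ * u) := by simp
    rw [e, mul_assoc, ← Real.exp_add]
    congr 2
    ring
  · have hu1 : u < 0 := lt_of_le_of_ne (not_lt.1 hu0) hu
    unfold hh
    rw [h0 u hu1]
    simp

theorem hh_integrable {a : ℝ → ℂ} {θ : ℝ} (h : LInt a θ) {σ : ℝ} (hσ : θ < σ) : Integrable (hh a σ) :=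
  h.integrable (s := (σ : ℂ)) (by simpa using hσ)

/-- monotonicity in `σ` -/
theorem hh_mono {a : ℝ → ℂ} (h0 : ∀ u, u < 0 → a u = 0) {σ σ' : ℝ} (h : σ ≤ σ') :
    ∫⁻ u, ‖hh a σ' u‖ₑ ^ 2 ≤ ∫⁻ u, ‖hh a σ u‖ₑ ^ 2 := by
  apply lintegral_mono
  intro u
  apply pow_le_pow_left₀ (zero_le)
  unfold hh
  rcases lt_or_ge u 0 with hu | hu
  · rw [h0 u hu]; simp
  · rw [← ofReal_norm, ← ofReal_norm]
    apply ENNReal.ofReal_le_ofReal
    rw [norm_mul, norm_mul, Complex.norm_exp, Complex.norm_exp]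
    apply mul_le_mul_of_nonneg_left _ (norm_nonneg _)
    apply Real.exp_le_exp.2
    simp only [neg_re, mul_re, ofReal_re, ofReal_im, mul_zero, sub_zero]
    nlinarith

end Pool.Agent.H16.MS
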