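import Pool.Agent.H16.MS.M3

set_option autoImplicit false

/-!
# Division in the mean
-/

namespace Pool.Agent.H16.MS

open Complex Metric Set Filter Topology MeasureTheory
open Pool.Agent.H16.DM
open scoped ENNReal

theorem posLog_le_sq {y : ℝ} (hy : 0 ≤ y) : Real.posLog y ≤ y ^ 2 := by
  rw [Real.posLog_apply, max_le_iff]
  refine ⟨sq_nonneg y, ?_⟩
  rcases eq_or_lt_of_le hy with h | h
  · rw [← h, Real.log_zero]; positivity
  · have := Real.log_le_sub_one_of_pos h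
    nlinarith [sq_nonneg (y - 1)]

theorem division_mean0 {G h : ℂ → ℂ} {c s : ℂ} {R ρ A lam : ℝ} (hlam : 0 < lam) (hρ : 0 < ρ)
    (hsub : closedBall s ρ ⊆ ball c R)
    (hG : AnalyticOnNhd ℂ G (closedBall c R)) (hh : AnalyticOnNhd ℂ h (closedBall c R))
    (hGm : Measurable G) (hhm : Measurable h)
    (h0 : G c ≠ 0) (hA0 : 0 ≤ A) (hA : ∀ z ∈ closedBall c R, Real.log ‖G z‖ ≤ A) :
    ENNReal.ofReal (Real.pi * ρ ^ 2 * Real.posLog (lam * ‖h s‖)) ≤
      ENNReal.ofReal (lam ^ 2) * (∫⁻ w in ball s ρ, ‖h w * G w‖ₑ ^ 2) +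
        ENNReal.ofReal (Real.pi * R ^ 2 * (A - Real.log ‖G c‖)) := by
  have hpi := Real.pi_pos
  have hR : 0 < R := by
    have : s ∈ ball c R := hsub (mem_closedBall_self hρ.le)
    exact pos_of_mem_ball this
  have hsub2 : closedBall s ρ ⊆ closedBall c R := hsub.trans ball_subset_closedBall
  have h1 := area_lower hρ (h := fun z => (lam : ℂ) * h z) (c := s)
    (fun z hz => analyticAt_const.mul (hh z (hsub2 hz))) (hhm.const_mul _)
  have h2 := area_upper hR hG hGm h0 hA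
  have hnl : ∀ w : ℂ, ‖(lam : ℂ) * h w‖ = lam * ‖h w‖ := fun w => by
    rw [norm_mul, Complex.norm_real, Real.norm_of_nonneg hlam.le]
  have hne : ∀ᵐ w ∂(volume.restrict (ball c R)), G w ≠ 0 := by
    have h3 := (hG.mono ball_subset_closedBall).eqOn_zero_or_eventually_ne_zero_of_preconnected
      (convex_ball c R).isPreconnected
    rcases h3 with h3 | h3
    · exact absurd (h3 (mem_ball_self hR)) h0
    · exact ae_restrict_le_codiscreteWithin measurableSet_ball h3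
  have hne' : ∀ᵐ w ∂(volume.restrict (ball s ρ)), G w ≠ 0 :=
    ae_mono (Measure.restrict_mono (ball_subset_closedBall.trans hsub) le_rfl) hne
  have hmm : Measurable fun w => ENNReal.ofReal (lam ^ 2) * ‖h w * G w‖ₑ ^ 2 :=
    ((hhm.mul hGm).enorm.pow_const 2).const_mul _
  have h3 : ∫⁻ w in ball s ρ, ENNReal.ofReal (Real.posLog ‖(lam : ℂ) * h w‖) ≤
      ∫⁻ w in ball s ρ, (ENNReal.ofReal (lam ^ 2) * ‖h w * G w‖ₑ ^ 2 + ENNReal.ofReal (A - Real.log ‖G w‖)) := by
    apply lintegral_mono_ae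
    filter_upwards [hne', ae_restrict_mem measurableSet_ball] with w hw hwb
    have hwR : w ∈ closedBall c R := hsub2 (ball_subset_closedBall hwb)
    have h4 := hA w hwR
    have e : ENNReal.ofReal (lam ^ 2) * ‖h w * G w‖ₑ ^ 2 = ENNReal.ofReal ((lam * ‖h w * G w‖) ^ 2) := by
      rw [← ofReal_norm, ← ENNReal.ofReal_pow (norm_nonneg _), ← ENNReal.ofReal_mul (by positivity), mul_pow]
    rw [e, ← ENNReal.ofReal_add (by positivity) (by linarith), hnl]
    apply ENNReal.ofReal_le_ofReal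
    have hGw : 0 < ‖G w‖ := norm_pos_iff.2 hw
    have h8 : 0 ≤ (lam * ‖h w * G w‖) ^ 2 := by positivity
    rcases eq_or_ne (h w) 0 with h6 | h6
    · rw [h6, norm_zero, mul_zero, Real.posLog_zero]
      rw [h6] at h8
      linarith
    · have hhw : 0 < ‖h w‖ := norm_pos_iff.2 h6
      have h7 : Real.log (lam * ‖h w‖) = Real.log (lam * ‖h w * G w‖) - Real.log ‖G w‖ := by
        rw [norm_mul, ← mul_assoc, Real.log_mul (by positivity) hGw.ne']
        ring
      have h9 : Real.log (lam * ‖h w * G w‖) ≤ (lam * ‖h w * G w‖) ^ 2 := by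
        refine le_trans ?_ (posLog_le_sq (by positivity))
        rw [Real.posLog_apply]
        exact le_max_right _ _
      rw [Real.posLog_apply, max_le_iff]
      constructor
      · linarith
      · rw [h7]; linarith
  have h4 : ∫⁻ w in ball s ρ, (ENNReal.ofReal (lam ^ 2) * ‖h w * G w‖ₑ ^ 2 + ENNReal.ofReal (A - Real.log ‖G w‖)) ≤
      ENNReal.ofReal (lam ^ 2) * (∫⁻ w in ball s ρ, ‖h w * G w‖ₑ ^ 2) +
        ENNReal.ofReal (Real.pi * R ^ 2 * (A - Real.log ‖G c‖)) := by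
    rw [lintegral_add_left hmm, lintegral_const_mul' _ _ ENNReal.ofReal_ne_top]
    apply add_le_add le_rfl
    refine le_trans ?_ h2
    apply lintegral_mono_set
    exact ball_subset_closedBall.trans hsub
  rw [hnl] at h1
  exact (h1.trans h3).trans h4

theorem division_mean {G h : ℂ → ℂ} {c s : ℂ} {R ρ A : ℝ} (hρ : 0 < ρ)
    (hsub : closedBall s ρ ⊆ ball c R)
    (hG : AnalyticOnNhd ℂ G (closedBall c R)) (hh : AnalyticOnNhd ℂ h (closedBall c R))
    (h0 : G c ≠ 0) (hA0 : 0 ≤ A) (hA : ∀ z ∈ closedBall c R, Real.log ‖G z‖ ≤ A) :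
    ‖h s‖ₑ ^ 2 ≤ ENNReal.ofReal (Real.exp (2 * (R ^ 2 / ρ ^ 2 * (A - Real.log ‖G c‖) + 1)) / (Real.pi * ρ ^ 2)) *
      ∫⁻ w in ball s ρ, ‖h w * G w‖ₑ ^ 2 := by
  obtain ⟨G', hG'm, hG'a, hG'e⟩ := meas_mod hG
  obtain ⟨h', hh'm, hh'a, hh'e⟩ := meas_mod hh
  have hs : s ∈ closedBall c R := ball_subset_closedBall (hsub (mem_closedBall_self hρ.le))
  have hR : 0 < R := by
    have : s ∈ ball c R := hsub (mem_closedBall_self hρ.le)
    exact pos_of_mem_ball this
  have hc : c ∈ closedBall c R := mem_closedBall_self hR.le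
  have hpi := Real.pi_pos
  set L : ℝ := R ^ 2 / ρ ^ 2 * (A - Real.log ‖G c‖) with hL
  have hv0 : 0 ≤ A - Real.log ‖G c‖ := by
    have := hA c hc
    linarith
  have hL0 : 0 ≤ L := by positivity
  rcases eq_or_ne (h s) 0 with hs0 | hs0
  · rw [hs0]; simp
  have hhs : 0 < ‖h s‖ := norm_pos_iff.2 hs0
  set lam : ℝ := Real.exp (L + 1) / ‖h s‖ with hlam
  have hlam0 : 0 < lam := by positivity
  have hint : ∫⁻ w in ball s ρ, ‖h' w * G' w‖ₑ ^ 2 = ∫⁻ w in ball s ρ, ‖h w * G w‖ₑ ^ 2 := by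
    apply setLIntegral_congr_fun measurableSet_ball
    intro w hw
    have hwR : w ∈ closedBall c R := ball_subset_closedBall (hsub (ball_subset_closedBall hw))
    simp only [hG'e w hwR, hh'e w hwR]
  have h1 := division_mean0 hlam0 hρ hsub hG'a hh'a hG'm hh'm (by rwa [hG'e c hc]) hA0
    (fun z hz => by rw [hG'e z hz]; exact hA z hz)
  rw [hint, hh'e s hs, hG'e c hc] at h1
  have h2 : Real.posLog (lam * ‖h s‖) = L + 1 := by
    rw [hlam, div_mul_cancel₀ _ hhs.ne', Real.posLog_eq_log, Real.log_exp]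
    rw [abs_of_pos (Real.exp_pos _)]
    exact Real.one_le_exp (by linarith)
  have h3 : Real.pi * R ^ 2 * (A - Real.log ‖G c‖) = Real.pi * ρ ^ 2 * L := by
    rw [hL]; field_simp
  rw [h2, h3] at h1
  set J := ∫⁻ w in ball s ρ, ‖h w * G w‖ₑ ^ 2 with hJ
  have h4 : ENNReal.ofReal (Real.pi * ρ ^ 2) ≤ ENNReal.ofReal (lam ^ 2) * J := by
    have e : Real.pi * ρ ^ 2 * (L + 1) = Real.pi * ρ ^ 2 + Real.pi * ρ ^ 2 * L := by ring
    rw [e, ENNReal.ofReal_add (by positivity) (by positivity)] at h1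
    exact ENNReal.le_of_add_le_add_right ENNReal.ofReal_ne_top h1
  calc ‖h s‖ₑ ^ 2 = ENNReal.ofReal (‖h s‖ ^ 2 / (Real.pi * ρ ^ 2)) * ENNReal.ofReal (Real.pi * ρ ^ 2) := by
        rw [← ENNReal.ofReal_mul (by positivity), div_mul_cancel₀ _ (by positivity), ← ofReal_norm,
          ← ENNReal.ofReal_pow (norm_nonneg _)]
    _ ≤ ENNReal.ofReal (‖h s‖ ^ 2 / (Real.pi * ρ ^ 2)) * (ENNReal.ofReal (lam ^ 2) * J) := by gcongr
    _ = _ := by
        rw [← mul_assoc, ← ENNReal.ofReal_mul (by positivity)]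
        congr 2
        rw [hlam, div_pow, ← Real.exp_nat_mul]
        push_cast
        field_simp

end Pool.Agent.H16.MS
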