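import Pool.Agent.H16.MS.M4

set_option autoImplicit false

/-!
# From mean squares of the error term to moments of the zeta function
-/

namespace Pool.Agent.H16.MS

open Complex Metric Set Filter Topology MeasureTheory
open Pool.Agent.W173.OS Pool.Agent.H295R2 Pool.Agent.H16.DM
open scoped ENNReal

theorem aa_zero (f : ℕ → ℝ) : aa f 0 = fun u => (sumExp f u : ℂ) := by
  ext u
  unfold aa polyPart
  simp

theorem sumExp_lint {f : ℕ → ℝ} (hf : ∃ C : ℝ, ∀ n : ℕ, |f n| ≤ C * (n : ℝ) ^ (1 / 2 : ℝ)) :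
    LInt (fun u => (sumExp f u : ℂ)) (3 / 2) := by
  obtain ⟨K, hK⟩ := aa_nice hf 0
  rw [aa_zero] at hK
  exact Nice.lint hK

theorem far_eq {r : ℕ} {f g : ArithmeticFunction ℝ} (hfg : f = zR ^ r * g) (hg : GS g)
    (hf : ∃ C : ℝ, ∀ n : ℕ, |f n| ≤ C * (n : ℝ) ^ (1 / 2 : ℝ)) (P : Polynomial ℝ) {s : ℂ} (hs : 3 / 2 < s.re) :
    riemannZeta s ^ r * Gser g s = s * (Lap (aa f P) s + polar P s) := by
  have hlf := sumExp_lint hf
  obtain ⟨C, hC⟩ := hf
  have hC0 : 0 ≤ C := by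
    have := (abs_nonneg _).trans (hC 1)
    simpa using this
  have hO : (fun n => ∑ m ∈ Finset.Icc 1 n, ‖((f m : ℝ) : ℂ)‖) =O[atTop] fun n : ℕ => (n : ℝ) ^ (3 / 2 : ℝ) := by
    refine Asymptotics.IsBigO.of_bound C (Eventually.of_forall fun n => ?_)
    rw [Real.norm_of_nonneg (Finset.sum_nonneg fun _ _ => norm_nonneg _),
      Real.norm_of_nonneg (by positivity)]
    calc ∑ m ∈ Finset.Icc 1 n, ‖((f m : ℝ) : ℂ)‖ ≤ ∑ m ∈ Finset.Icc 1 n, C * (n:ℝ) ^ (1 / 2 : ℝ) := by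
          refine Finset.sum_le_sum fun m hm => ?_
          rw [Complex.norm_real, Real.norm_eq_abs]
          refine (hC m).trans (mul_le_mul_of_nonneg_left ?_ hC0)
          refine Real.rpow_le_rpow (Nat.cast_nonneg m) ?_ (by norm_num)
          exact_mod_cast (Finset.mem_Icc.mp hm).2
      _ = C * (n:ℝ) ^ (3 / 2 : ℝ) := by
        rw [Finset.sum_const, Nat.card_Icc, nsmul_eq_mul, add_tsub_cancel_right]
        rcases Nat.eq_zero_or_pos n with rfl | hn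
        · simp [Real.zero_rpow (show (3 / 2 : ℝ) ≠ 0 by norm_num)]
        · have hn0 : (0:ℝ) < n := by exact_mod_cast hn
          have : (n:ℝ) ^ (3 / 2 : ℝ) = n * (n:ℝ) ^ (1 / 2 : ℝ) := by
            rw [show (3 / 2 : ℝ) = 1 + 1 / 2 by norm_num, Real.rpow_add hn0, Real.rpow_one]
          rw [this]; ring
  have h1 := lap_sumExp (fun n => f n) (r := 3 / 2) (by norm_num) (s := s) hs hO
  have h2 := (lser_f hfg hg (s := s) (by linarith)).LSeries_eq
  rw [← h2, h1]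
  congr 1
  have h3 : Lap (aa f P) s = Lap (fun u => (sumExp f u : ℂ)) s - Lap (polyPart P) s := by
    unfold Lap aa
    rw [← integral_sub (hlf.integrable (by linarith)) ((polyPart_lint P).integrable (by linarith))]
    congr 1
    ext u
    ring
  rw [h3, polyPart_lap P (by linarith)]
  ring

theorem polar_diff (P : Polynomial ℝ) {s : ℂ} (hs : s ≠ 1) : DifferentiableAt ℂ (polar P) s := by
  unfold polar
  apply DifferentiableAt.fun_sum
  intro i _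
  have h3 : DifferentiableAt ℂ (fun s : ℂ => (s - 1) ^ (i + 1)) s := by fun_prop
  exact ((differentiableAt_const (i.factorial : ℂ)).div h3 (pow_ne_zero _ (sub_ne_zero.2 hs))).const_mul _

theorem polar_bound (P : Polynomial ℝ) : ∃ C : ℝ, 0 ≤ C ∧ ∀ s : ℂ, 1 ≤ |s.im| → ‖polar P s‖ ≤ C / |s.im| := by
  refine ⟨∑ i ∈ P.support, |P.coeff i| * i.factorial, by positivity, fun s hs => ?_⟩
  have hs0 : 0 < |s.im| := by linarith
  unfold polar
  rw [Finset.sum_div]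
  refine (norm_sum_le _ _).trans (Finset.sum_le_sum fun i _ => ?_)
  rw [norm_mul, norm_div, norm_pow, Complex.norm_real, Real.norm_eq_abs, Complex.norm_natCast, mul_div_assoc]
  apply mul_le_mul_of_nonneg_left _ (abs_nonneg _)
  apply div_le_div_of_nonneg_left (by positivity) hs0
  have h1 : |s.im| ≤ ‖s - 1‖ := by
    have := Complex.abs_im_le_norm (s - 1)
    simpa using this
  calc |s.im| ≤ ‖s - 1‖ := h1
    _ = ‖s - 1‖ ^ 1 := (pow_one _).symm
    _ ≤ ‖s - 1‖ ^ (i + 1) := pow_le_pow_right₀ (by linarith) (by omega)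

/-- the identity to the right of `θ` -/
theorem near_eq {r : ℕ} {f g : ArithmeticFunction ℝ} (hfg : f = zR ^ r * g) (hg : GS g)
    (hf : ∃ C : ℝ, ∀ n : ℕ, |f n| ≤ C * (n : ℝ) ^ (1 / 2 : ℝ)) {P : Polynomial ℝ} {θ : ℝ} (hθ : 1 / 2 ≤ θ)
    (hL : LInt (aa f P) θ) {s : ℂ} (hs : θ < s.re) (hs1 : 0 < s.im) :
    riemannZeta s ^ r * Gser g s = s * (Lap (aa f P) s + polar P s) := by
  set U : Set ℂ := {s : ℂ | θ < s.re ∧ 0 < s.im} with hU
  have hUconv : Convex ℝ U := (convex_halfSpace_re_gt θ).inter (convex_halfSpace_im_gt 0)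
  have hne : ∀ s ∈ U, s ≠ 1 := by
    rintro s ⟨_, hs⟩ rfl
    simp at hs
  have hUo : IsOpen U := (isOpen_lt continuous_const Complex.continuous_re).inter
    (isOpen_lt continuous_const Complex.continuous_im)
  have hA1 : AnalyticOnNhd ℂ (fun s => riemannZeta s ^ r * Gser g s) U := by
    apply DifferentiableOn.analyticOnNhd _ hUo
    intro s hs
    apply DifferentiableAt.differentiableWithinAt
    exact ((differentiableAt_riemannZeta (hne s hs)).pow r).mul (Gser_diff hg (lt_of_le_of_lt hθ hs.1))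
  have hA2 : AnalyticOnNhd ℂ (fun s => s * (Lap (aa f P) s + polar P s)) U := by
    intro s hs
    have h1 : AnalyticAt ℂ (polar P) s := by
      have : DifferentiableOn ℂ (polar P) U := fun z hz => (polar_diff P (hne z hz)).differentiableWithinAt
      exact this.analyticAt (hUo.mem_nhds hs)
    exact analyticAt_id.mul ((hL.analyticOnNhd s hs.1).add h1)
  set z₀ : ℂ := ((max θ 2 + 1 : ℝ) : ℂ) + I with hz₀
  have hre : z₀.re = max θ 2 + 1 := by rw [hz₀]; simp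
  have him : z₀.im = 1 := by rw [hz₀]; simp
  have hz : z₀ ∈ U := by
    refine ⟨?_, ?_⟩
    · rw [hre]; linarith [le_max_left θ 2]
    · rw [him]; exact one_pos
  have h3 := hA1.eqOn_of_preconnected_of_eventuallyEq hA2 hUconv.isPreconnected hz (by
    have h4 : 2 < z₀.re := by rw [hre]; linarith [le_max_right θ 2]
    filter_upwards [(isOpen_lt continuous_const Complex.continuous_re).mem_nhds h4] with z hz
    have hz2 : 2 < z.re := hz
    exact far_eq hfg hg hf P (by linarith))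
  exact h3 ⟨hs, hs1⟩

theorem lint_inv_sq : ∫⁻ y in Ioi (1 : ℝ), ENNReal.ofReal (y ^ (-2 : ℝ)) < ⊤ := by
  have h := integrableOn_Ioi_rpow_of_lt (by norm_num : (-2 : ℝ) < -1) (by norm_num : (0 : ℝ) < 1)
  refine lt_of_le_of_lt ?_ h.2
  apply lintegral_mono
  intro y
  exact Real.ofReal_le_enorm _

/-- the mean square of `ζ^r G` on vertical lines, uniformly -/
theorem l2_line {r : ℕ} {f g : ArithmeticFunction ℝ} (hfg : f = zR ^ r * g) (hg : GS g)
    (hf : ∃ C : ℝ, ∀ n : ℕ, |f n| ≤ C * (n : ℝ) ^ (1 / 2 : ℝ)) {P : Polynomial ℝ} {θ : ℝ} (hθ : 1 / 2 ≤ θ)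
    (h : ∀ σ : ℝ, θ < σ → ∫⁻ u, ‖hh (aa f P) σ u‖ₑ ^ 2 < ⊤) {σ₁ σ₂ : ℝ} (hσ₁ : θ < σ₁) :
    ∃ M : ℝ≥0∞, M < ⊤ ∧ ∀ x : ℝ, σ₁ ≤ x → x ≤ σ₂ →
      ∫⁻ y in Ioi (1 : ℝ), ENNReal.ofReal (y ^ (-2 : ℝ)) *
        ‖riemannZeta ((x : ℂ) + y * I) ^ r * Gser g ((x : ℂ) + y * I)‖ₑ ^ 2 ≤ M := by
  have hL : LInt (aa f P) θ := lint_of_l2 (aa_meas _ P) (fun u hu => aa_neg _ P hu) h
  obtain ⟨Cp, hCp0, hCp⟩ := polar_bound P
  set M1 : ℝ≥0∞ := ENNReal.ofReal (2 * Real.pi) * ∫⁻ u, ‖hh (aa f P) σ₁ u‖ₑ ^ 2 with hM1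
  have hM1t : M1 < ⊤ := ENNReal.mul_lt_top ENNReal.ofReal_lt_top (h σ₁ hσ₁)
  set M2 : ℝ≥0∞ := ENNReal.ofReal (Cp ^ 2) * ∫⁻ y in Ioi (1 : ℝ), ENNReal.ofReal (y ^ (-2 : ℝ)) with hM2
  have hM2t : M2 < ⊤ := ENNReal.mul_lt_top ENNReal.ofReal_lt_top lint_inv_sq
  refine ⟨ENNReal.ofReal (2 * (1 + σ₂ ^ 2)) * (M1 + M2),
    ENNReal.mul_lt_top ENNReal.ofReal_lt_top (ENNReal.add_lt_top.2 ⟨hM1t, hM2t⟩), fun x hx1 hx2 => ?_⟩
  have hxθ : θ < x := by linarith
  have hx0 : 0 < x := by linarith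
  have hplan := plancherel (aa_meas (fun n => f n) P) (hh_integrable hL hxθ) (h x hxθ)
  have hmono := hh_mono (a := aa f P) (fun u hu => aa_neg _ P hu) hx1
  calc ∫⁻ y in Ioi (1 : ℝ), ENNReal.ofReal (y ^ (-2 : ℝ)) *
        ‖riemannZeta ((x : ℂ) + y * I) ^ r * Gser g ((x : ℂ) + y * I)‖ₑ ^ 2
      ≤ ∫⁻ y in Ioi (1 : ℝ), ENNReal.ofReal (2 * (1 + σ₂ ^ 2)) *
        (‖Lap (aa f P) ((x : ℂ) + y * I)‖ₑ ^ 2 + ENNReal.ofReal (Cp ^ 2) * ENNReal.ofReal (y ^ (-2 : ℝ))) := by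
        apply setLIntegral_mono' measurableSet_Ioi
        intro y hy
        have hy1 : 1 < y := hy
        have hy0 : 0 < y := by linarith
        set w : ℂ := (x : ℂ) + y * I with hw
        have hwre : w.re = x := by rw [hw]; simp
        have hwim : w.im = y := by rw [hw]; simp
        rw [near_eq hfg hg hf hθ hL (s := w) (by rw [hwre]; exact hxθ) (by rw [hwim]; exact hy0)]
        rw [← ofReal_norm, ← ofReal_norm, ← ENNReal.ofReal_pow (norm_nonneg _), ← ENNReal.ofReal_pow (norm_nonneg _),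
          ← ENNReal.ofReal_mul (by positivity), ← ENNReal.ofReal_mul (by positivity),
          ← ENNReal.ofReal_add (by positivity) (by positivity), ← ENNReal.ofReal_mul (by positivity)]
        apply ENNReal.ofReal_le_ofReal
        have e1 : y ^ (-2 : ℝ) = (y ^ 2)⁻¹ := by
          rw [Real.rpow_neg hy0.le, Real.rpow_two]
        have e2 : ‖w‖ ^ 2 = x ^ 2 + y ^ 2 := by
          rw [← Complex.normSq_eq_norm_sq, Complex.normSq_apply, hwre, hwim]; ring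
        have e3 : ‖polar P w‖ ≤ Cp / y := by
          have := hCp w (by rw [hwim, abs_of_pos hy0]; exact hy1.le)
          rwa [hwim, abs_of_pos hy0] at this
        have e4 : ‖polar P w‖ ^ 2 ≤ Cp ^ 2 * (y ^ 2)⁻¹ := by
          calc ‖polar P w‖ ^ 2 ≤ (Cp / y) ^ 2 := pow_le_pow_left₀ (norm_nonneg _) e3 2
            _ = Cp ^ 2 * (y ^ 2)⁻¹ := by rw [div_pow]; rfl
        have e5 : ‖Lap (aa f P) w + polar P w‖ ^ 2 ≤ 2 * (‖Lap (aa f P) w‖ ^ 2 + ‖polar P w‖ ^ 2) := by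
          calc ‖Lap (aa f P) w + polar P w‖ ^ 2 ≤ (‖Lap (aa f P) w‖ + ‖polar P w‖) ^ 2 :=
                pow_le_pow_left₀ (norm_nonneg _) (norm_add_le _ _) 2
            _ ≤ _ := by nlinarith [sq_nonneg (‖Lap (aa f P) w‖ - ‖polar P w‖)]
        have e6 : (y ^ 2)⁻¹ * (x ^ 2 + y ^ 2) ≤ 1 + σ₂ ^ 2 := by
          rw [inv_mul_le_iff₀ (by positivity)]
          have : x ^ 2 ≤ σ₂ ^ 2 := pow_le_pow_left₀ hx0.le hx2 2
          have h1y : 1 ≤ y ^ 2 := one_le_pow₀ hy1.le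
          nlinarith [sq_nonneg σ₂]
        rw [norm_mul, mul_pow, e1, e2]
        calc (y ^ 2)⁻¹ * ((x ^ 2 + y ^ 2) * ‖Lap (aa f P) w + polar P w‖ ^ 2)
            = ((y ^ 2)⁻¹ * (x ^ 2 + y ^ 2)) * ‖Lap (aa f P) w + polar P w‖ ^ 2 := by ring
          _ ≤ (1 + σ₂ ^ 2) * (2 * (‖Lap (aa f P) w‖ ^ 2 + Cp ^ 2 * (y ^ 2)⁻¹)) := by
              apply mul_le_mul e6 _ (by positivity) (by positivity)
              linarith
          _ = _ := by ring
    _ = ENNReal.ofReal (2 * (1 + σ₂ ^ 2)) * ((∫⁻ y in Ioi (1 : ℝ), ‖Lap (aa f P) ((x : ℂ) + y * I)‖ₑ ^ 2) +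
          ∫⁻ y in Ioi (1 : ℝ), ENNReal.ofReal (Cp ^ 2) * ENNReal.ofReal (y ^ (-2 : ℝ))) := by
        rw [lintegral_const_mul' _ _ ENNReal.ofReal_ne_top]
        congr 1
        have hm : Measurable fun y : ℝ => ENNReal.ofReal (Cp ^ 2) * ENNReal.ofReal (y ^ (-2 : ℝ)) :=
          (Measurable.ennreal_ofReal (measurable_id.pow_const (-2 : ℝ))).const_mul _
        rw [lintegral_add_right _ hm]
    _ ≤ ENNReal.ofReal (2 * (1 + σ₂ ^ 2)) * (M1 + M2) := by
        gcongr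
        · calc ∫⁻ y in Ioi (1 : ℝ), ‖Lap (aa f P) ((x : ℂ) + y * I)‖ₑ ^ 2
              ≤ ∫⁻ y : ℝ, ‖Lap (aa f P) ((x : ℂ) + y * I)‖ₑ ^ 2 := setLIntegral_le_lintegral _ _
            _ = _ := hplan
            _ ≤ M1 := by rw [hM1]; gcongr
        · rw [lintegral_const_mul' _ _ ENNReal.ofReal_ne_top, hM2]

end Pool.Agent.H16.MS
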