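import Pool.Agent.H16.MS.M5

set_option autoImplicit false

/-!
# Moments of the zeta function from mean squares of the error term
-/

namespace Pool.Agent.H16.MS

open Complex Metric Set Filter Topology MeasureTheory
open Pool.Agent.W173.OS Pool.Agent.H295R2 Pool.Agent.H16.DM
open scoped ENNReal

theorem ball_translate (F : ℂ → ℝ≥0∞) (s : ℂ) (ρ : ℝ) :
    ∫⁻ w in ball s ρ, F w = ∫⁻ p in ball (0 : ℂ) ρ, F (s + p) := by
  rw [← lintegral_indicator measurableSet_ball, ← lintegral_indicator measurableSet_ball,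
    ← lintegral_add_left_eq_self _ s]
  congr 1
  ext p
  by_cases hp : p ∈ ball (0 : ℂ) ρ
  · have : s + p ∈ ball s ρ := by
      rw [mem_ball, dist_eq_norm] at hp ⊢
      simpa using hp
    rw [indicator_of_mem this, indicator_of_mem hp]
  · have : s + p ∉ ball s ρ := by
      intro h
      apply hp
      rw [mem_ball, dist_eq_norm] at h ⊢
      simpa using h
    rw [indicator_of_notMem this, indicator_of_notMem hp]

theorem line_shift (F : ℝ → ℝ≥0∞) {T₀ v : ℝ} (hT : 1 ≤ T₀ + v) :
    ∫⁻ t in Ioi T₀, F (t + v) ≤ ∫⁻ y in Ioi (1 : ℝ), F y := by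
  rw [← lintegral_indicator measurableSet_Ioi, ← lintegral_indicator measurableSet_Ioi,
    ← lintegral_add_right_eq_self (fun y => (Ioi (1 : ℝ)).indicator (fun y => F y) y) v]
  apply lintegral_mono
  intro t
  by_cases ht : t ∈ Ioi T₀
  · have h1 : t + v ∈ Ioi (1 : ℝ) := by
      have : T₀ < t := ht
      show 1 < t + v
      linarith
    rw [indicator_of_mem ht]
    show _ ≤ (Ioi (1 : ℝ)).indicator (fun y => F y) (t + v)
    rw [indicator_of_mem h1]
  · rw [indicator_of_notMem ht]
    exact zero_le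

theorem mean_zeta0 {r : ℕ} {f g : ArithmeticFunction ℝ} (hfg : f = zR ^ r * g) (hg : GS g) (hg1 : g 1 ≠ 0)
    (hf : ∃ C : ℝ, ∀ n : ℕ, |f n| ≤ C * (n : ℝ) ^ (1 / 2 : ℝ)) {P : Polynomial ℝ} {θ : ℝ} (hθ : 1 / 2 ≤ θ)
    (h : ∀ σ : ℝ, θ < σ → ∫⁻ u, ‖hh (aa f P) σ u‖ₑ ^ 2 < ⊤) {σ : ℝ} (hσ : θ < σ) :
    ∃ T₀ : ℝ, 1 ≤ T₀ ∧ ∫⁻ t in Ioi T₀, ENNReal.ofReal (t ^ (-2 : ℝ)) * ‖riemannZeta ((σ : ℂ) + t * I) ^ r‖ₑ ^ 2 < ⊤ := by
  classical
  set δ : ℝ := min ((σ - θ) / 2) 1 with hδ
  have hδ0 : 0 < δ := lt_min (by linarith) one_pos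
  have hδ1 : δ ≤ 1 := min_le_right _ _
  have hδσ : θ + 2 * δ ≤ σ := by linarith [min_le_left ((σ - θ) / 2) 1]
  obtain ⟨M, hMt, hM⟩ := l2_line hfg hg hf hθ h (σ₁ := θ + δ) (σ₂ := σ + 1) (by linarith)
  obtain ⟨σ₀, hσ₀2, hσ₀⟩ := Gser_far hg hg1
  obtain ⟨K, hK0, hK⟩ := Gser_bound hg (σ := θ + δ) (by linarith)
  set σ₁ : ℝ := max σ₀ (σ + 1) with hσ₁
  have hσ₁a : σ₀ ≤ σ₁ := le_max_left _ _
  have hσ₁b : σ + 1 ≤ σ₁ := le_max_right _ _
  set R : ℝ := σ₁ - θ - δ with hR
  set A : ℝ := Real.log (max K 1) with hA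
  have hA0 : 0 ≤ A := Real.log_nonneg (le_max_right _ _)
  have hg1' : 0 < |g 1| / 2 := by have := abs_pos.2 hg1; linarith
  set ρ : ℝ := δ / 2 with hρ
  have hρ0 : 0 < ρ := by positivity
  set L : ℝ := R ^ 2 / ρ ^ 2 * (A - Real.log (|g 1| / 2)) with hL
  have hR0 : 0 < R := by linarith
  have hpi := Real.pi_pos
  set KK : ℝ := Real.exp (2 * (L + 1)) / (Real.pi * ρ ^ 2) with hKK
  have hKK0 : 0 < KK := by positivity
  -- the function on the half plane
  set V : Set ℂ := {s : ℂ | θ < s.re ∧ 0 < s.im} with hV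
  have hVo : IsOpen V := (isOpen_lt continuous_const Complex.continuous_re).inter
    (isOpen_lt continuous_const Complex.continuous_im)
  have hneV : ∀ s ∈ V, s ≠ 1 := by
    rintro s ⟨_, hs⟩ rfl
    simp at hs
  set Φ : ℂ → ℂ := V.indicator (fun w => riemannZeta w ^ r * Gser g w) with hΦ
  have hΦm : Measurable Φ := by
    have hc : ContinuousOn (fun w => riemannZeta w ^ r * Gser g w) V := by
      intro s hs
      exact (((differentiableAt_riemannZeta (hneV s hs)).pow r).mul
        (Gser_diff hg (lt_of_le_of_lt hθ hs.1))).continuousAt.continuousWithinAt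
    have h1 := hc.measurable_piecewise (g := fun _ => (0:ℂ)) continuousOn_const hVo.measurableSet
    have e : V.piecewise (fun w => riemannZeta w ^ r * Gser g w) (fun _ => (0:ℂ)) = Φ := by
      rw [hΦ, ← Set.piecewise_eq_indicator]; rfl
    rwa [e] at h1
  have hpt : ∀ t : ℝ, R + 2 < t → ‖riemannZeta ((σ : ℂ) + t * I) ^ r‖ₑ ^ 2 ≤
      ENNReal.ofReal KK * ∫⁻ p in ball (0 : ℂ) ρ, ‖Φ ((σ : ℂ) + t * I + p)‖ₑ ^ 2 := by
    intro t ht
    have ht0 : 0 < t := by linarith
    set s : ℂ := (σ : ℂ) + t * I with hs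
    set c : ℂ := (σ₁ : ℂ) + t * I with hc
    have hsc : ‖s - c‖ = σ₁ - σ := by
      have : s - c = ((σ - σ₁ : ℝ) : ℂ) := by rw [hs, hc]; push_cast; ring
      rw [this, Complex.norm_real, Real.norm_eq_abs, abs_of_neg (by linarith)]
      ring
    have hcre : c.re = σ₁ := by rw [hc]; simp
    have hcim : c.im = t := by rw [hc]; simp
    have hsub : closedBall s ρ ⊆ ball c R := by
      intro z hz
      rw [mem_closedBall, dist_eq_norm] at hz
      rw [mem_ball, dist_eq_norm]
      have := norm_add_le (z - s) (s - c)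
      rw [sub_add_sub_cancel, hsc] at this
      linarith
    have hball : ∀ z ∈ closedBall c R, θ + δ ≤ z.re ∧ 1 ≤ z.im := by
      intro z hz
      rw [mem_closedBall, dist_eq_norm] at hz
      have h1 := (Complex.abs_re_le_norm (z - c)).trans hz
      have h2 := (Complex.abs_im_le_norm (z - c)).trans hz
      rw [Complex.sub_re, hcre, abs_le] at h1
      rw [Complex.sub_im, hcim, abs_le] at h2
      exact ⟨by linarith, by linarith⟩
    have hne : ∀ z ∈ closedBall c R, z ≠ 1 := by
      rintro z hz rfl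
      have := (hball 1 hz).2
      simp at this
      linarith
    have hGa : AnalyticOnNhd ℂ (Gser g) (closedBall c R) := by
      intro z hz
      have h1 : DifferentiableOn ℂ (Gser g) {s : ℂ | 1 / 2 < s.re} := fun s hs => (Gser_diff hg hs).differentiableWithinAt
      exact h1.analyticAt ((isOpen_lt continuous_const Complex.continuous_re).mem_nhds
        (show (1 / 2 : ℝ) < z.re by have := (hball z hz).1; linarith))
    have hza : AnalyticOnNhd ℂ (fun s => riemannZeta s ^ r) (closedBall c R) := by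
      intro z hz
      have h1 : DifferentiableOn ℂ riemannZeta {s : ℂ | s ≠ 1} := fun s hs => (differentiableAt_riemannZeta hs).differentiableWithinAt
      exact (h1.analyticAt (isOpen_ne.mem_nhds (hne z hz))).pow r
    have hcfar := hσ₀ c (by rw [hcre]; exact hσ₁a)
    have hGc : Gser g c ≠ 0 := by
      intro h
      rw [h, norm_zero] at hcfar
      linarith
    have hdiv := division_mean (G := Gser g) (h := fun s => riemannZeta s ^ r) (c := c) (s := s) (R := R) (ρ := ρ)
      (A := A) hρ0 hsub hGa hza hGc hA0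
      (fun z hz => by
        have h1 := hK z (hball z hz).1
        rcases eq_or_ne ‖Gser g z‖ 0 with h0 | h0
        · rw [h0, Real.log_zero]; exact hA0
        · exact Real.log_le_log (lt_of_le_of_ne (norm_nonneg _) (Ne.symm h0)) (h1.trans (le_max_left _ _)))
    refine hdiv.trans ?_
    apply mul_le_mul' _ _
    · apply ENNReal.ofReal_le_ofReal
      rw [hKK]
      apply div_le_div_of_nonneg_right _ (by positivity)
      apply Real.exp_le_exp.2
      have h1 : R ^ 2 / ρ ^ 2 * (A - Real.log ‖Gser g c‖) ≤ L := by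
        rw [hL]
        apply mul_le_mul_of_nonneg_left _ (by positivity)
        have := Real.log_le_log hg1' hcfar
        linarith
      linarith
    · rw [ball_translate]
      apply le_of_eq
      apply setLIntegral_congr_fun measurableSet_ball
      intro p hp
      have hsp : s + p ∈ closedBall c R := by
        apply ball_subset_closedBall
        apply hsub
        rw [mem_closedBall, dist_eq_norm]
        rw [mem_ball, dist_eq_norm] at hp
        simpa using hp.le
      have hV' : s + p ∈ V := ⟨by have := (hball _ hsp).1; linarith, by have := (hball _ hsp).2; linarith⟩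
      simp only [hΦ]
      rw [indicator_of_mem hV']
  -- integration over `t`
  refine ⟨R + 2, by linarith, ?_⟩
  have hj : Measurable fun q : ℝ × ℂ => ENNReal.ofReal (q.1 ^ (-2 : ℝ)) * ‖Φ ((σ : ℂ) + q.1 * I + q.2)‖ₑ ^ 2 := by
    have hj1 : Measurable fun q : ℝ × ℂ => ENNReal.ofReal (q.1 ^ (-2 : ℝ)) :=
      Measurable.ennreal_ofReal (measurable_fst.pow_const (-2 : ℝ))
    have hj2 : Measurable fun q : ℝ × ℂ => (σ : ℂ) + q.1 * I + q.2 := by fun_prop
    exact hj1.mul ((hΦm.comp hj2).enorm.pow_const 2)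
  calc ∫⁻ t in Ioi (R + 2), ENNReal.ofReal (t ^ (-2 : ℝ)) * ‖riemannZeta ((σ : ℂ) + t * I) ^ r‖ₑ ^ 2
      ≤ ∫⁻ t in Ioi (R + 2), ENNReal.ofReal KK * ∫⁻ p in ball (0 : ℂ) ρ,
          (ENNReal.ofReal (t ^ (-2 : ℝ)) * ‖Φ ((σ : ℂ) + t * I + p)‖ₑ ^ 2) := by
        apply setLIntegral_mono' measurableSet_Ioi
        intro t ht
        rw [lintegral_const_mul' _ _ ENNReal.ofReal_ne_top]
        calc _ ≤ ENNReal.ofReal (t ^ (-2 : ℝ)) * (ENNReal.ofReal KK * ∫⁻ p in ball (0 : ℂ) ρ, ‖Φ ((σ : ℂ) + t * I + p)‖ₑ ^ 2) := by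
              gcongr
              exact hpt t ht
          _ = _ := by ring
    _ = ENNReal.ofReal KK * ∫⁻ t in Ioi (R + 2), ∫⁻ p in ball (0 : ℂ) ρ,
          (ENNReal.ofReal (t ^ (-2 : ℝ)) * ‖Φ ((σ : ℂ) + t * I + p)‖ₑ ^ 2) :=
        lintegral_const_mul' _ _ ENNReal.ofReal_ne_top
    _ = ENNReal.ofReal KK * ∫⁻ p in ball (0 : ℂ) ρ, ∫⁻ t in Ioi (R + 2),
          (ENNReal.ofReal (t ^ (-2 : ℝ)) * ‖Φ ((σ : ℂ) + t * I + p)‖ₑ ^ 2) := by
        rw [lintegral_lintegral_swap]
        exact hj.aemeasurable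
    _ ≤ ENNReal.ofReal KK * ∫⁻ p in ball (0 : ℂ) ρ, 4 * M := by
        gcongr ENNReal.ofReal KK * ?_
        apply setLIntegral_mono' measurableSet_ball
        intro p hp
        rw [mem_ball, dist_eq_norm, sub_zero] at hp
        have hp1 := (Complex.abs_re_le_norm p).trans hp.le
        have hp2 := (Complex.abs_im_le_norm p).trans hp.le
        rw [abs_le] at hp1 hp2
        set F : ℝ → ℝ≥0∞ := fun y => ENNReal.ofReal (y ^ (-2 : ℝ)) * ‖Φ (((σ + p.re : ℝ) : ℂ) + y * I)‖ₑ ^ 2 with hF
        calc ∫⁻ t in Ioi (R + 2), (ENNReal.ofReal (t ^ (-2 : ℝ)) * ‖Φ ((σ : ℂ) + t * I + p)‖ₑ ^ 2)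
            ≤ ∫⁻ t in Ioi (R + 2), 4 * F (t + p.im) := by
              apply setLIntegral_mono' measurableSet_Ioi
              intro t ht
              have ht1 : R + 2 < t := ht
              have e : (σ : ℂ) + t * I + p = ((σ + p.re : ℝ) : ℂ) + ((t + p.im : ℝ) : ℂ) * I := by
                apply Complex.ext <;> simp
              rw [e]
              simp only [hF]
              rw [← mul_assoc]
              gcongr
              have h4 : (4 : ℝ≥0∞) = ENNReal.ofReal 4 := by norm_num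
              rw [h4, ← ENNReal.ofReal_mul (by norm_num)]
              apply ENNReal.ofReal_le_ofReal
              have ht0 : 0 < t := by linarith
              have htp : 0 < t + p.im := by linarith
              rw [Real.rpow_neg ht0.le, Real.rpow_neg htp.le, Real.rpow_two, Real.rpow_two]
              rw [← div_eq_mul_inv, inv_eq_one_div, div_le_div_iff₀ (by positivity) (by positivity)]
              nlinarith
          _ = 4 * ∫⁻ t in Ioi (R + 2), F (t + p.im) := lintegral_const_mul' _ _ (by norm_num)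
          _ ≤ 4 * ∫⁻ y in Ioi (1 : ℝ), F y :=
              mul_le_mul' le_rfl (line_shift F (T₀ := R + 2) (v := p.im) (by linarith))
          _ ≤ 4 * M := by
              gcongr
              refine le_trans ?_ (hM (σ + p.re) (by linarith) (by linarith))
              apply setLIntegral_mono' measurableSet_Ioi
              intro y hy
              have hy1 : (1 : ℝ) < y := hy
              simp only [hF]
              gcongr
              have hV' : (((σ + p.re : ℝ) : ℂ) + y * I) ∈ V := by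
                refine ⟨?_, ?_⟩
                · simp; linarith
                · simp; linarith
              simp only [hΦ]
              rw [indicator_of_mem hV']
    _ < ⊤ := by
        rw [setLIntegral_const]
        apply ENNReal.mul_lt_top ENNReal.ofReal_lt_top
        exact ENNReal.mul_lt_top (ENNReal.mul_lt_top (by norm_num) hMt) measure_ball_lt_top

/-- moments of the zeta function from the mean square of the error term -/
theorem mean_zeta {r : ℕ} {f g : ArithmeticFunction ℝ} (hfg : f = zR ^ r * g) (hg : GS g) (hg1 : g 1 ≠ 0)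
    (hf : ∃ C : ℝ, ∀ n : ℕ, |f n| ≤ C * (n : ℝ) ^ (1 / 2 : ℝ)) {P : Polynomial ℝ} {θ : ℝ} (hθ : 1 / 2 ≤ θ)
    (h : ∀ σ : ℝ, θ < σ → ∫⁻ u, ‖hh (aa f P) σ u‖ₑ ^ 2 < ⊤) {σ : ℝ} (hσ : θ < σ) :
    IntegrableOn (fun t : ℝ => ‖riemannZeta ((σ : ℂ) + t * I)‖ ^ (2 * r) / t ^ 2) (Ioi 1) := by
  obtain ⟨T₀, hT1, hT⟩ := mean_zeta0 hfg hg hg1 hf hθ h hσ
  have hcont : ContinuousOn (fun t : ℝ => ‖riemannZeta ((σ : ℂ) + t * I)‖ ^ (2 * r) / t ^ 2) (Ici 1) := by
    intro t ht
    have ht1 : (1 : ℝ) ≤ t := ht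
    have hne : (σ : ℂ) + t * I ≠ 1 := by
      intro h
      have := congrArg Complex.im h
      simp at this
      linarith
    have h1 : ContinuousAt (fun t : ℝ => riemannZeta ((σ : ℂ) + t * I)) t :=
      ContinuousAt.comp (f := fun t : ℝ => (σ : ℂ) + t * I) (g := riemannZeta)
        (differentiableAt_riemannZeta hne).continuousAt (by fun_prop)
    apply ContinuousAt.continuousWithinAt
    exact (h1.norm.pow (2 * r)).div (by fun_prop) (by positivity)
  have hsplit : Ioi (1 : ℝ) ⊆ Icc 1 T₀ ∪ Ioi T₀ := by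
    intro t ht
    have ht1 : (1 : ℝ) < t := ht
    rcases le_or_gt t T₀ with h | h
    · exact Or.inl ⟨ht1.le, h⟩
    · exact Or.inr h
  apply IntegrableOn.mono_set _ hsplit
  apply IntegrableOn.union
  · exact (hcont.mono Icc_subset_Ici_self).integrableOn_Icc
  · have hm : AEStronglyMeasurable (fun t : ℝ => ‖riemannZeta ((σ : ℂ) + t * I)‖ ^ (2 * r) / t ^ 2)
        (volume.restrict (Ioi T₀)) :=
      (hcont.mono (fun t (ht : T₀ < t) => show (1 : ℝ) ≤ t by linarith)).aestronglyMeasurable measurableSet_Ioi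
    refine ⟨hm, ?_⟩
    refine lt_of_le_of_lt (le_of_eq ?_) hT
    apply setLIntegral_congr_fun measurableSet_Ioi
    intro t ht
    have ht1 : T₀ < t := ht
    have ht0 : 0 < t := by linarith
    simp only
    rw [← ofReal_norm, ← ofReal_norm, ← ENNReal.ofReal_pow (norm_nonneg _), ← ENNReal.ofReal_mul (by positivity)]
    congr 1
    rw [Real.norm_of_nonneg (by positivity), norm_pow, ← pow_mul, mul_comm r 2, Real.rpow_neg ht0.le, Real.rpow_two]
    rw [div_eq_mul_inv, mul_comm]

end Pool.Agent.H16.MS
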