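import Pool.Agent.H16.MS.M6
import Pool.Agent.H16.DM.D10

set_option autoImplicit false

/-!
# The regular part of `ζ^r G / s`
-/

namespace Pool.Agent.H16.MS

open Complex Metric Set Filter Topology MeasureTheory
open Pool.Agent.W173.OS Pool.Agent.H295R2 Pool.Agent.H16.DM
open scoped ENNReal

theorem polar_sum (r : ℕ) (a : ℕ → ℝ) (s : ℂ) :
    polar (∑ j ∈ Finset.range r, Polynomial.C (a j) * Polynomial.X ^ j) s =
      ∑ j ∈ Finset.range r, (a j : ℂ) * ((j.factorial : ℂ) / (s - 1) ^ (j + 1)) := by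
  unfold polar
  set P : Polynomial ℝ := ∑ j ∈ Finset.range r, Polynomial.C (a j) * Polynomial.X ^ j with hP
  have hc : ∀ i, P.coeff i = if i < r then a i else 0 := by
    intro i
    rw [hP, Polynomial.finsetSum_coeff]
    simp only [Polynomial.coeff_C_mul_X_pow]
    rw [Finset.sum_ite_eq]
    simp
  have hsub : P.support ⊆ Finset.range r := by
    intro i hi
    rw [Polynomial.mem_support_iff, hc] at hi
    by_contra h
    rw [Finset.mem_range] at h
    rw [if_neg h] at hi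
    exact hi rfl
  rw [Finset.sum_subset hsub]
  · apply Finset.sum_congr rfl
    intro i hi
    rw [hc, if_pos (Finset.mem_range.1 hi)]
  · intro i hi hi'
    rw [Polynomial.notMem_support_iff.1 hi']
    simp

theorem regular (r : ℕ) {g : ArithmeticFunction ℝ} (hg : GS g) :
    ∃ (P : Polynomial ℝ) (E : ℂ → ℂ), (∀ s : ℂ, 1 / 2 < s.re → DifferentiableAt ℂ E s) ∧
      ∀ s : ℂ, s ≠ 1 → 1 / 2 < s.re → riemannZeta s ^ r * Gser g s = s * (E s + polar P s) := by
  have hne0 : ∀ s : ℂ, 1 / 2 < s.re → s ≠ 0 := by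
    rintro s hs rfl
    simp at hs
    linarith
  have hHd : ∀ s : ℂ, 1 / 2 < s.re → DifferentiableAt ℂ (fun s => Zs s ^ r * Gser g s / s) s := fun s hs =>
    (((Zs_differentiable s).pow r).mul (Gser_diff hg hs)).div differentiableAt_id (hne0 s hs)
  have hHr : ∀ x : ℝ, 1 < x → ((fun s => Zs s ^ r * Gser g s / s) (x : ℂ)).im = 0 := by
    intro x hx
    have hx1 : (x : ℂ) ≠ 1 := by
      intro h
      have : x = 1 := by exact_mod_cast h
      linarith
    have hz : (riemannZeta x).im = 0 := by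
      have h1 := Gser_real (g := zR) x
      have h2 : Gser zR x = riemannZeta x := (lser_zeta (s := (x : ℂ)) (by simpa using hx)).LSeries_eq
      rwa [h2] at h1
    have hz2 : Zs x = (((x - 1) * (riemannZeta x).re : ℝ) : ℂ) := by
      rw [← Zs_eq hx1]
      apply Complex.ext
      · simp [hz]
      · simp [hz]
    have hG : Gser g x = (((Gser g x).re : ℝ) : ℂ) := by
      apply Complex.ext
      · simp
      · simp [Gser_real]
    show (Zs x ^ r * Gser g x / x).im = 0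
    rw [hz2, hG, ← Complex.ofReal_pow, ← Complex.ofReal_mul, ← Complex.ofReal_div]
    exact Complex.ofReal_im _
  obtain ⟨a, E₀, hE₀, ha⟩ := pole r _ hHd hHr
  refine ⟨∑ j ∈ Finset.range r, Polynomial.C (a j) * Polynomial.X ^ j,
    fun s => E₀ s + ∑ j ∈ Finset.range r, (a j : ℂ) * Rj j s, fun s hs => ?_, fun s hs1 hs => ?_⟩
  · apply (hE₀ s hs).add
    apply DifferentiableAt.fun_sum
    intro j _
    exact (Rj_diff j s).const_mul _
  · have h1 := ha s hs1
    have hne : s - 1 ≠ 0 := sub_ne_zero.2 hs1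
    have hs0 := hne0 s hs
    rw [polar_sum]
    have h2 : ∑ j ∈ Finset.range r, (a j : ℂ) * Dj j s =
        ∑ j ∈ Finset.range r, (a j : ℂ) * ((j.factorial : ℂ) / (s - 1) ^ (j + 1)) +
          ∑ j ∈ Finset.range r, (a j : ℂ) * Rj j s := by
      rw [← Finset.sum_add_distrib]
      apply Finset.sum_congr rfl
      intro j _
      unfold Dj
      ring
    rw [h2] at h1
    have h3 : Zs s ^ r * Gser g s / s / (s - 1) ^ r = riemannZeta s ^ r * Gser g s / s := by
      rw [← Zs_eq hs1, mul_pow]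
      field_simp
    have h4 : riemannZeta s ^ r * Gser g s / s = E₀ s + ∑ j ∈ Finset.range r, (a j : ℂ) * Rj j s +
        ∑ j ∈ Finset.range r, (a j : ℂ) * ((j.factorial : ℂ) / (s - 1) ^ (j + 1)) := by
      rw [← h3, h1]
      ring
    rw [div_eq_iff hs0] at h4
    rw [h4]
    ring

/-- on the vertical strip -/
theorem E_far {r : ℕ} {g : ArithmeticFunction ℝ} (hg : GS g) {P : Polynomial ℝ} {E : ℂ → ℂ}
    (hEe : ∀ s : ℂ, s ≠ 1 → 1 / 2 < s.re → riemannZeta s ^ r * Gser g s = s * (E s + polar P s))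
    {σ : ℝ} (hσ : 1 / 2 < σ) : ∃ K : ℝ, 0 ≤ K ∧ ∀ s : ℂ, σ ≤ s.re → 1 ≤ |s.im| →
      ‖E s‖ ≤ K * (‖riemannZeta s‖ ^ r / |s.im| + 1 / |s.im|) := by
  obtain ⟨K, hK0, hK⟩ := Gser_bound hg hσ
  obtain ⟨Cp, hCp0, hCp⟩ := polar_bound P
  refine ⟨K + Cp, by positivity, fun s hs1 hs2 => ?_⟩
  have him : 0 < |s.im| := by linarith
  have hne : s ≠ 1 := by
    rintro rfl
    simp at hs2
    linarith
  have hs0 : s ≠ 0 := by
    rintro rfl
    simp at hs2
    linarith
  have h1 := hEe s hne (by linarith)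
  have h2 : E s = riemannZeta s ^ r * Gser g s / s - polar P s := by
    rw [h1]
    field_simp
    ring
  have h3 := hCp s hs2
  have h4 : ‖riemannZeta s ^ r * Gser g s / s‖ ≤ K * (‖riemannZeta s‖ ^ r / |s.im|) := by
    rw [norm_div, norm_mul, norm_pow]
    calc ‖riemannZeta s‖ ^ r * ‖Gser g s‖ / ‖s‖ ≤ ‖riemannZeta s‖ ^ r * K / |s.im| := by
          apply div_le_div₀ (by positivity) _ him (Complex.abs_im_le_norm s)
          exact mul_le_mul_of_nonneg_left (hK s hs1) (by positivity)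
      _ = _ := by ring
  rw [h2]
  have h5 : 0 ≤ ‖riemannZeta s‖ ^ r / |s.im| := by positivity
  have h6 : 0 ≤ 1 / |s.im| := by positivity
  calc ‖riemannZeta s ^ r * Gser g s / s - polar P s‖ ≤ _ := norm_sub_le _ _
    _ ≤ K * (‖riemannZeta s‖ ^ r / |s.im|) + Cp / |s.im| := add_le_add h4 h3
    _ = K * (‖riemannZeta s‖ ^ r / |s.im|) + Cp * (1 / |s.im|) := by ring
    _ ≤ _ := by nlinarith

/-- polynomial growth -/
theorem E_poly {r : ℕ} {g : ArithmeticFunction ℝ} (hg : GS g) {P : Polynomial ℝ} {E : ℂ → ℂ}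
    (hE : ∀ s : ℂ, 1 / 2 < s.re → DifferentiableAt ℂ E s)
    (hEe : ∀ s : ℂ, s ≠ 1 → 1 / 2 < s.re → riemannZeta s ^ r * Gser g s = s * (E s + polar P s))
    {σ : ℝ} (hσ : 1 / 2 < σ) : ∃ B : ℝ, 0 ≤ B ∧ ∀ s : ℂ, σ ≤ s.re → s.re ≤ 3 / 2 + 1 →
      ‖E s‖ ≤ B * (1 + |s.im|) ^ (r : ℝ) := by
  obtain ⟨K, hK0, hK⟩ := E_far hg hEe hσ
  obtain ⟨CZ, hCZ0, hCZ⟩ := R0_growth
  have hcomp : IsCompact (Icc σ (5 / 2) ×ℂ Icc (-1) 1) := isCompact_Icc.reProdIm isCompact_Icc
  have hEc : ContinuousOn E (Icc σ (5 / 2) ×ℂ Icc (-1) 1) := fun s hs =>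
    (hE s (lt_of_lt_of_le hσ (mem_reProdIm.1 hs).1.1)).continuousAt.continuousWithinAt
  obtain ⟨K0, hK0'⟩ := hcomp.exists_bound_of_continuousOn hEc
  refine ⟨|K0| + K * ((4 * (1 + CZ)) ^ r + 1), by positivity, fun s hs1 hs2 => ?_⟩
  have h1 : 1 ≤ (1 + |s.im|) ^ r := one_le_pow₀ (by linarith [abs_nonneg s.im])
  rw [Real.rpow_natCast]
  have hKc : 0 ≤ K * ((4 * (1 + CZ)) ^ r + 1) := by positivity
  rcases le_or_gt |s.im| 1 with h | h
  · have h2 := hK0' s (mem_reProdIm.2 ⟨⟨hs1, by linarith⟩, abs_le.1 h⟩)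
    have h3 := le_abs_self K0
    have h4 := abs_nonneg K0
    nlinarith
  · have h2 := hK s hs1 h.le
    have hne : s ≠ 1 := by
      rintro rfl
      simp at h
      linarith
    have him : 0 < |s.im| := by linarith
    have h3 : ‖riemannZeta s‖ ≤ 4 * (1 + CZ) * (1 + |s.im|) := by
      rw [zeta_eq hne]
      have h8 := hCZ s (by linarith)
      have h10 : |s.im| ≤ ‖s - 1‖ := by
        have := Complex.abs_im_le_norm (s - 1)
        simpa using this
      have h9 : ‖1 / (s - 1)‖ ≤ 1 := by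
        rw [norm_div, norm_one, div_le_one (by linarith)]
        linarith
      have h11 : ‖s‖ ≤ 5 / 2 + |s.im| := by
        have := Complex.norm_le_abs_re_add_abs_im s
        rw [abs_of_nonneg (by linarith : 0 ≤ s.re)] at this
        linarith
      calc ‖1 / (s - 1) + R0 s‖ ≤ ‖1 / (s - 1)‖ + ‖R0 s‖ := norm_add_le _ _
        _ ≤ 1 + CZ * (1 + ‖s‖) := add_le_add h9 h8
        _ ≤ _ := by nlinarith
    have h4 : ‖riemannZeta s‖ ^ r / |s.im| ≤ (4 * (1 + CZ)) ^ r * (1 + |s.im|) ^ r := by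
      calc ‖riemannZeta s‖ ^ r / |s.im| ≤ ‖riemannZeta s‖ ^ r := div_le_self (by positivity) h.le
        _ ≤ (4 * (1 + CZ) * (1 + |s.im|)) ^ r := pow_le_pow_left₀ (norm_nonneg _) h3 r
        _ = _ := mul_pow _ _ _
    have h5 : 1 / |s.im| ≤ 1 := by
      rw [div_le_one him]; exact h.le
    calc ‖E s‖ ≤ K * (‖riemannZeta s‖ ^ r / |s.im| + 1 / |s.im|) := h2
      _ ≤ K * ((4 * (1 + CZ)) ^ r * (1 + |s.im|) ^ r + 1 * (1 + |s.im|) ^ r) := by
          apply mul_le_mul_of_nonneg_left _ hK0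
          apply add_le_add h4
          linarith
      _ = K * ((4 * (1 + CZ)) ^ r + 1) * (1 + |s.im|) ^ r := by ring
      _ ≤ _ := by
          apply mul_le_mul_of_nonneg_right _ (by positivity)
          linarith [abs_nonneg K0]

theorem neg_half (F : ℝ → ℝ≥0∞) : ∫⁻ t in Iio (-1 : ℝ), F (-t) = ∫⁻ t in Ioi (1 : ℝ), F t := by
  rw [← lintegral_indicator measurableSet_Iio, ← lintegral_indicator measurableSet_Ioi,
    ← lintegral_neg_eq_self ((Ioi (1 : ℝ)).indicator fun t => F t)]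
  congr 1
  ext t
  by_cases ht : t < -1
  · rw [indicator_of_mem (by exact ht), indicator_of_mem (by show 1 < -t; linarith)]
  · rw [indicator_of_notMem (by exact ht), indicator_of_notMem (by
      intro h
      have : 1 < -t := h
      exact ht (by linarith))]

/-- square integrability of the regular part on a vertical line -/
theorem E_l2 {r : ℕ} {g : ArithmeticFunction ℝ} (hg : GS g) {P : Polynomial ℝ} {E : ℂ → ℂ}
    (hE : ∀ s : ℂ, 1 / 2 < s.re → DifferentiableAt ℂ E s)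
    (hEe : ∀ s : ℂ, s ≠ 1 → 1 / 2 < s.re → riemannZeta s ^ r * Gser g s = s * (E s + polar P s))
    {σ : ℝ} (hσ : 1 / 2 < σ)
    (hm : IntegrableOn (fun t : ℝ => ‖riemannZeta ((σ : ℂ) + t * I)‖ ^ (2 * r) / t ^ 2) (Ioi 1)) :
    ∫⁻ t : ℝ, ‖E ((σ : ℂ) + t * I)‖ₑ ^ 2 < ⊤ := by
  obtain ⟨K, hK0, hK⟩ := E_far hg hEe hσ
  set w : ℝ → ℝ := fun t => 2 * K ^ 2 * (‖riemannZeta ((σ : ℂ) + t * I)‖ ^ (2 * r) / t ^ 2 + t ^ (-2 : ℝ)) with hw
  have hwi : IntegrableOn w (Ioi 1) :=
    (hm.add (integrableOn_Ioi_rpow_of_lt (by norm_num) (by norm_num))).const_mul _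
  have hwf : ∫⁻ t in Ioi (1 : ℝ), ENNReal.ofReal (w t) < ⊤ := by
    refine lt_of_le_of_lt ?_ hwi.2
    apply lintegral_mono
    intro y
    exact Real.ofReal_le_enorm _
  have hpt : ∀ t : ℝ, 1 ≤ |t| → ‖E ((σ : ℂ) + t * I)‖ₑ ^ 2 ≤ ENNReal.ofReal (w |t|) := by
    intro t ht
    have ht0 : 0 < |t| := by linarith
    have h1 := hK ((σ : ℂ) + t * I) (by simp) (by simpa using ht)
    have him : ((σ : ℂ) + t * I).im = t := by simp
    rw [him] at h1
    have h2 : ‖riemannZeta ((σ : ℂ) + t * I)‖ = ‖riemannZeta ((σ : ℂ) + (|t| : ℝ) * I)‖ := by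
      rcases le_or_gt 0 t with h0 | h0
      · rw [abs_of_nonneg h0]
      · rw [abs_of_neg h0, ← zeta_neg σ t]
    rw [h2] at h1
    rw [← ofReal_norm, ← ENNReal.ofReal_pow (norm_nonneg _)]
    apply ENNReal.ofReal_le_ofReal
    set Z := ‖riemannZeta ((σ : ℂ) + (|t| : ℝ) * I)‖ with hZ
    have hZ0 : 0 ≤ Z := norm_nonneg _
    calc ‖E ((σ : ℂ) + t * I)‖ ^ 2 ≤ (K * (Z ^ r / |t| + 1 / |t|)) ^ 2 := pow_le_pow_left₀ (norm_nonneg _) h1 2
      _ ≤ 2 * K ^ 2 * ((Z ^ r / |t|) ^ 2 + (1 / |t|) ^ 2) := by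
          rw [mul_pow]
          nlinarith [sq_nonneg (Z ^ r / |t| - 1 / |t|), sq_nonneg K,
            mul_nonneg (sq_nonneg K) (sq_nonneg (Z ^ r / |t| - 1 / |t|))]
      _ = w |t| := by
          simp only [hw]
          rw [← hZ, Real.rpow_neg ht0.le, Real.rpow_two, div_pow, div_pow, one_pow, ← pow_mul, mul_comm r 2, one_div]
  have hcont : ContinuousOn (fun t : ℝ => E ((σ : ℂ) + t * I)) (Icc (-1) 1) := by
    intro t _
    apply ContinuousAt.continuousWithinAt
    exact ContinuousAt.comp (f := fun t : ℝ => (σ : ℂ) + t * I) (g := E)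
      (hE _ (by simpa using hσ)).continuousAt (by fun_prop)
  obtain ⟨K1, hK1⟩ := isCompact_Icc.exists_bound_of_continuousOn hcont
  have hcover : (univ : Set ℝ) ⊆ Icc (-1) 1 ∪ (Ioi 1 ∪ Iio (-1)) := by
    intro t _
    rcases le_or_gt |t| 1 with h | h
    · exact Or.inl (abs_le.1 h)
    · rcases lt_abs.1 h with h | h
      · exact Or.inr (Or.inl h)
      · exact Or.inr (Or.inr (by show t < -1; linarith))
  calc ∫⁻ t : ℝ, ‖E ((σ : ℂ) + t * I)‖ₑ ^ 2 = ∫⁻ t in (univ : Set ℝ), ‖E ((σ : ℂ) + t * I)‖ₑ ^ 2 := by rw [setLIntegral_univ]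
    _ ≤ ∫⁻ t in (Icc (-1) 1 ∪ (Ioi 1 ∪ Iio (-1)) : Set ℝ), ‖E ((σ : ℂ) + t * I)‖ₑ ^ 2 := lintegral_mono_set hcover
    _ ≤ (∫⁻ t in Icc (-1 : ℝ) 1, ‖E ((σ : ℂ) + t * I)‖ₑ ^ 2) + ((∫⁻ t in Ioi (1 : ℝ), ‖E ((σ : ℂ) + t * I)‖ₑ ^ 2) +
          ∫⁻ t in Iio (-1 : ℝ), ‖E ((σ : ℂ) + t * I)‖ₑ ^ 2) :=
        (lintegral_union_le _ _ _).trans (add_le_add le_rfl (lintegral_union_le _ _ _))
    _ < ⊤ := by
        refine ENNReal.add_lt_top.2 ⟨?_, ENNReal.add_lt_top.2 ⟨?_, ?_⟩⟩
        · calc ∫⁻ t in Icc (-1 : ℝ) 1, ‖E ((σ : ℂ) + t * I)‖ₑ ^ 2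
              ≤ ∫⁻ _t in Icc (-1 : ℝ) 1, ENNReal.ofReal (K1 ^ 2) := by
                apply setLIntegral_mono' measurableSet_Icc
                intro t ht
                rw [← ofReal_norm, ← ENNReal.ofReal_pow (norm_nonneg _)]
                apply ENNReal.ofReal_le_ofReal
                exact pow_le_pow_left₀ (norm_nonneg _) (hK1 t ht) 2
            _ < ⊤ := by
                rw [setLIntegral_const, Real.volume_Icc]
                exact ENNReal.mul_lt_top ENNReal.ofReal_lt_top ENNReal.ofReal_lt_top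
        · refine lt_of_le_of_lt ?_ hwf
          apply setLIntegral_mono' measurableSet_Ioi
          intro t ht
          have ht1 : 1 < t := ht
          have := hpt t (by rw [abs_of_pos (by linarith)]; linarith)
          rwa [abs_of_pos (by linarith)] at this
        · refine lt_of_le_of_lt ?_ hwf
          rw [← neg_half]
          apply setLIntegral_mono' measurableSet_Iio
          intro t ht
          have ht1 : t < -1 := ht
          have := hpt t (by rw [abs_of_neg (by linarith)]; linarith)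
          rwa [abs_of_neg (by linarith)] at this

/-- the error term is continuous almost everywhere -/
theorem aa_cont (f : ℕ → ℝ) (P : Polynomial ℝ) : ∀ᵐ u : ℝ, ContinuousAt (aa f P) u := by
  have hcount : (insert (0 : ℝ) (range fun n : ℕ => Real.log n)).Countable := (countable_range _).insert 0
  have hae : ∀ᵐ u : ℝ, u ∉ insert (0 : ℝ) (range fun n : ℕ => Real.log n) := by
    have := hcount.measure_zero (volume : Measure ℝ)
    exact measure_eq_zero_iff_ae_notMem.1 this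
  filter_upwards [hae] with u hu
  rw [mem_insert_iff, not_or] at hu
  obtain ⟨hu0, hun⟩ := hu
  rcases lt_or_gt_of_ne hu0 with h | h
  · have h1 : (fun _ : ℝ => (0 : ℂ)) =ᶠ[𝓝 u] aa f P := by
      filter_upwards [isOpen_Iio.mem_nhds h] with v hv
      exact (aa_neg f P hv).symm
    exact continuousAt_const.congr h1
  · set n : ℕ := ⌊Real.exp u⌋₊ with hn
    have hn1 : (n : ℝ) ≤ Real.exp u := Nat.floor_le (Real.exp_pos u).le
    have hn2 : Real.exp u < n + 1 := Nat.lt_floor_add_one _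
    have hn3 : (n : ℝ) < Real.exp u := by
      refine lt_of_le_of_ne hn1 fun h => hun ⟨n, ?_⟩
      show Real.log n = u
      rw [h, Real.log_exp]
    have h1 : (fun v : ℝ => ((∑ k ∈ Finset.Icc 1 n, f k : ℝ) : ℂ) - ((Real.exp v * P.eval v : ℝ) : ℂ)) =ᶠ[𝓝 u] aa f P := by
      have hV : {v : ℝ | (n : ℝ) < Real.exp v ∧ Real.exp v < n + 1} ∈ 𝓝 u :=
        ((isOpen_lt continuous_const Real.continuous_exp).inter (isOpen_lt Real.continuous_exp continuous_const)).mem_nhds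
          ⟨hn3, hn2⟩
      filter_upwards [isOpen_Ioi.mem_nhds h, hV] with v hv hv2
      have hv0 : 0 ≤ v := le_of_lt hv
      have hfl : ⌊Real.exp v⌋₊ = n := by
        rw [Nat.floor_eq_iff (Real.exp_pos v).le]
        exact ⟨hv2.1.le, hv2.2⟩
      unfold aa polyPart sumExp
      rw [if_pos hv0, hfl]
    refine ContinuousAt.congr ?_ h1
    have hP : Continuous fun v : ℝ => P.eval v := P.continuous
    fun_prop

end Pool.Agent.H16.MS
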