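import Pool.Agent.H16.MS.M7

set_option autoImplicit false

/-!
# Pointwise bounds from mean squares
-/

namespace Pool.Agent.H16.MS

open Complex Metric Set Filter Topology MeasureTheory
open Pool.Agent.W173.OS Pool.Agent.H295R2 Pool.Agent.H16.DM
open scoped ENNReal

/-- integration over a half strip -/
theorem strip_lint (Ψ : ℂ → ℝ≥0∞) (hΨ : Measurable Ψ) (a b : ℝ) :
    ∫⁻ w in {w : ℂ | w.re ∈ Icc a b ∧ w.im ∈ Ioi (1 : ℝ)}, Ψ w =
      ∫⁻ x in Icc a b, ∫⁻ y in Ioi (1 : ℝ), Ψ ((x : ℂ) + y * I) := by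
  have h1 := Complex.volume_preserving_equiv_real_prod.setLIntegral_comp_preimage_emb
    Complex.measurableEquivRealProd.measurableEmbedding (fun p : ℝ × ℝ => Ψ ((p.1 : ℂ) + p.2 * I)) (Icc a b ×ˢ Ioi (1 : ℝ))
  have hm : Measurable fun p : ℝ × ℝ => Ψ ((p.1 : ℂ) + p.2 * I) := by
    apply hΨ.comp
    fun_prop
  have h2 : ∫⁻ p in (Icc a b ×ˢ Ioi (1 : ℝ)), Ψ ((p.1 : ℂ) + p.2 * I) =
      ∫⁻ x in Icc a b, ∫⁻ y in Ioi (1 : ℝ), Ψ ((x : ℂ) + y * I) :=
    setLIntegral_prod (μ := (volume : Measure ℝ)) (ν := (volume : Measure ℝ)) _ hm.aemeasurable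
  rw [← h2]
  have h3 : Complex.measurableEquivRealProd ⁻¹' (Icc a b ×ˢ Ioi (1 : ℝ)) =
      {w : ℂ | w.re ∈ Icc a b ∧ w.im ∈ Ioi (1 : ℝ)} := by
    ext w
    simp [Complex.measurableEquivRealProd_apply]
  rw [h3] at h1
  have h4 : ∀ w : ℂ, Ψ (((Complex.measurableEquivRealProd w).1 : ℂ) + (Complex.measurableEquivRealProd w).2 * I) = Ψ w := by
    intro w
    rw [Complex.measurableEquivRealProd_apply]
    show Ψ ((w.re : ℂ) + w.im * I) = _
    rw [Complex.re_add_im]
  simp_rw [h4] at h1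
  exact h1

/-- `ζ^r G` on the half plane -/
theorem zG_point {r : ℕ} {f g : ArithmeticFunction ℝ} (hfg : f = zR ^ r * g) (hg : GS g)
    (hf : ∃ C : ℝ, ∀ n : ℕ, |f n| ≤ C * (n : ℝ) ^ (1 / 2 : ℝ)) {P : Polynomial ℝ} {θ : ℝ} (hθ : 1 / 2 ≤ θ)
    (h : ∀ σ : ℝ, θ < σ → ∫⁻ u, ‖hh (aa f P) σ u‖ₑ ^ 2 < ⊤) {δ : ℝ} (hδ : 0 < δ) (σ₂ : ℝ) :
    ∃ B : ℝ, 1 ≤ B ∧ ∀ s : ℂ, θ + δ ≤ s.re → s.re ≤ σ₂ → 3 ≤ s.im →
      ‖riemannZeta s ^ r * Gser g s‖ ≤ B * (1 + ‖s‖) := by
  set ρ : ℝ := min (δ / 4) (1 / 2) with hρ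
  have hρ0 : 0 < ρ := lt_min (by linarith) (by norm_num)
  have hρ1 : ρ ≤ 1 / 2 := min_le_right _ _
  have hρδ : ρ ≤ δ / 4 := min_le_left _ _
  obtain ⟨M, hMt, hM⟩ := l2_line hfg hg hf hθ h (σ₁ := θ + δ / 2) (σ₂ := σ₂ + 1) (by linarith)
  have hpi := Real.pi_pos
  set V : Set ℂ := {s : ℂ | θ < s.re ∧ 0 < s.im} with hV
  have hVo : IsOpen V := (isOpen_lt continuous_const Complex.continuous_re).inter
    (isOpen_lt continuous_const Complex.continuous_im)
  have hneV : ∀ s ∈ V, s ≠ 1 := by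
    rintro s ⟨_, hs⟩ rfl
    simp at hs
  set Φ : ℂ → ℂ := V.indicator (fun w => riemannZeta w ^ r * Gser g w) with hΦ
  have hΦm : Measurable Φ := by
    have hc : ContinuousOn (fun w => riemannZeta w ^ r * Gser g w) V := by
      intro s hs
      exact (((differentiableAt_riemannZeta (hneV s hs)).pow r).mul
        (Gser_diff hg (lt_of_le_of_lt hθ hs.1))).continuousAt.continuousWithinAt
    have h1 := hc.measurable_piecewise (g := fun _ => (0:ℂ)) continuousOn_const hVo.measurableSet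
    have e : V.piecewise (fun w => riemannZeta w ^ r * Gser g w) (fun _ => (0:ℂ)) = Φ := by
      rw [hΦ, ← Set.piecewise_eq_indicator]; rfl
    rwa [e] at h1
  set Ψ : ℂ → ℝ≥0∞ := fun w => ENNReal.ofReal (w.im ^ (-2 : ℝ)) * ‖Φ w‖ₑ ^ 2 with hΨ
  have hΨm : Measurable Ψ := by
    exact (Measurable.ennreal_ofReal (Complex.measurable_im.pow_const (-2 : ℝ))).mul (hΦm.enorm.pow_const 2)
  set KK : ℝ := Real.exp (2 * 1) / (Real.pi * ρ ^ 2) with hKK
  have hKK0 : 0 < KK := by positivity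
  set D : ℝ := (ENNReal.ofReal KK * (4 * (ENNReal.ofReal (2 * ρ) * M))).toReal with hD
  have hDt : ENNReal.ofReal KK * (4 * (ENNReal.ofReal (2 * ρ) * M)) ≠ ⊤ :=
    (ENNReal.mul_lt_top ENNReal.ofReal_lt_top (ENNReal.mul_lt_top (by norm_num)
      (ENNReal.mul_lt_top ENNReal.ofReal_lt_top hMt))).ne
  have hD0 : 0 ≤ D := ENNReal.toReal_nonneg
  refine ⟨1 + Real.sqrt D, by linarith [Real.sqrt_nonneg D], fun s hs1 hs2 hs3 => ?_⟩
  have hball : ∀ z ∈ closedBall s (2 * ρ), θ + δ / 2 ≤ z.re ∧ z.re ≤ σ₂ + 1 ∧ s.im - 1 ≤ z.im ∧ z.im ≤ 2 * s.im := by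
    intro z hz
    rw [mem_closedBall, dist_eq_norm] at hz
    have h1 := (Complex.abs_re_le_norm (z - s)).trans hz
    have h2 := (Complex.abs_im_le_norm (z - s)).trans hz
    rw [Complex.sub_re, abs_le] at h1
    rw [Complex.sub_im, abs_le] at h2
    exact ⟨by linarith, by linarith, by linarith, by linarith⟩
  have hne : ∀ z ∈ closedBall s (2 * ρ), z ≠ 1 := by
    rintro z hz rfl
    have := (hball 1 hz).2.2.1
    simp at this
    linarith
  have hFa : AnalyticOnNhd ℂ (fun w => riemannZeta w ^ r * Gser g w) (closedBall s (2 * ρ)) := by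
    intro z hz
    have h1 : DifferentiableOn ℂ riemannZeta {s : ℂ | s ≠ 1} := fun s hs => (differentiableAt_riemannZeta hs).differentiableWithinAt
    have h2 : DifferentiableOn ℂ (Gser g) {s : ℂ | 1 / 2 < s.re} := fun s hs => (Gser_diff hg hs).differentiableWithinAt
    exact ((h1.analyticAt (isOpen_ne.mem_nhds (hne z hz))).pow r).mul
      (h2.analyticAt ((isOpen_lt continuous_const Complex.continuous_re).mem_nhds
        (show (1 / 2 : ℝ) < z.re by have := (hball z hz).1; linarith)))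
  have hsub : closedBall s ρ ⊆ ball s (2 * ρ) := closedBall_subset_ball (by linarith)
  have hdiv := division_mean (G := fun _ => (1 : ℂ)) (h := fun w => riemannZeta w ^ r * Gser g w) (c := s) (s := s)
    (R := 2 * ρ) (ρ := ρ) (A := 0) hρ0 hsub (fun z _ => analyticAt_const) hFa one_ne_zero le_rfl
    (fun z _ => by simp)
  have e1 : Real.exp (2 * ((2 * ρ) ^ 2 / ρ ^ 2 * (0 - Real.log ‖(1 : ℂ)‖) + 1)) / (Real.pi * ρ ^ 2) = KK := by
    rw [hKK]
    simp
  rw [e1] at hdiv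
  simp only [mul_one] at hdiv
  have hint : ∫⁻ w in ball s ρ, ‖riemannZeta w ^ r * Gser g w‖ₑ ^ 2 ≤
      ENNReal.ofReal (s.im ^ 2) * (4 * (ENNReal.ofReal (2 * ρ) * M)) := by
    have hfour : (4 : ℝ≥0∞) = ENNReal.ofReal 4 := by norm_num
    calc ∫⁻ w in ball s ρ, ‖riemannZeta w ^ r * Gser g w‖ₑ ^ 2
        ≤ ∫⁻ w in ball s ρ, ENNReal.ofReal (4 * s.im ^ 2) * Ψ w := by
          apply setLIntegral_mono' measurableSet_ball
          intro w hw
          have hw' : w ∈ closedBall s (2 * ρ) := ball_subset_closedBall (ball_subset_ball (by linarith) hw)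
          obtain ⟨h1, h2, h3, h4⟩ := hball w hw'
          have hwV : w ∈ V := ⟨by linarith, by linarith⟩
          have hw0 : 0 < w.im := by linarith
          simp only [hΨ, hΦ]
          rw [indicator_of_mem hwV, ← mul_assoc, ← ENNReal.ofReal_mul (by positivity)]
          have h5 : 1 ≤ 4 * s.im ^ 2 * w.im ^ (-2 : ℝ) := by
            rw [Real.rpow_neg hw0.le, Real.rpow_two, ← div_eq_mul_inv, le_div_iff₀ (by positivity), one_mul]
            nlinarith
          calc ‖riemannZeta w ^ r * Gser g w‖ₑ ^ 2 = 1 * ‖riemannZeta w ^ r * Gser g w‖ₑ ^ 2 := (one_mul _).symm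
            _ ≤ _ := by
                gcongr
                rw [← ENNReal.ofReal_one]
                exact ENNReal.ofReal_le_ofReal h5
      _ = ENNReal.ofReal (4 * s.im ^ 2) * ∫⁻ w in ball s ρ, Ψ w := lintegral_const_mul' _ _ ENNReal.ofReal_ne_top
      _ ≤ ENNReal.ofReal (4 * s.im ^ 2) *
            ∫⁻ w in {w : ℂ | w.re ∈ Icc (s.re - ρ) (s.re + ρ) ∧ w.im ∈ Ioi (1 : ℝ)}, Ψ w := by
          apply mul_le_mul' le_rfl
          apply lintegral_mono_set
          intro w hw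
          have hw1 : ‖w - s‖ < ρ := by rwa [mem_ball, dist_eq_norm] at hw
          have h1 := (Complex.abs_re_le_norm (w - s)).trans hw1.le
          have h2 := (Complex.abs_im_le_norm (w - s)).trans hw1.le
          rw [Complex.sub_re, abs_le] at h1
          rw [Complex.sub_im, abs_le] at h2
          exact ⟨⟨by linarith, by linarith⟩, by show 1 < w.im; linarith⟩
      _ = ENNReal.ofReal (4 * s.im ^ 2) *
            ∫⁻ x in Icc (s.re - ρ) (s.re + ρ), ∫⁻ y in Ioi (1 : ℝ), Ψ ((x : ℂ) + y * I) := by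
          rw [strip_lint Ψ hΨm]
      _ ≤ ENNReal.ofReal (4 * s.im ^ 2) * ∫⁻ _x in Icc (s.re - ρ) (s.re + ρ), M := by
          apply mul_le_mul' le_rfl
          apply setLIntegral_mono' measurableSet_Icc
          intro x hx
          refine le_trans ?_ (hM x (by linarith [hx.1]) (by linarith [hx.2]))
          apply setLIntegral_mono' measurableSet_Ioi
          intro y hy
          have hy1 : (1 : ℝ) < y := hy
          have hV' : ((x : ℂ) + y * I) ∈ V := by
            refine ⟨?_, ?_⟩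
            · simp only [add_re, ofReal_re, mul_re, I_re, mul_zero, ofReal_im, I_im, mul_one, sub_self, add_zero]
              linarith [hx.1]
            · simp only [add_im, ofReal_im, mul_im, ofReal_re, I_im, mul_one, I_re, mul_zero, add_zero, zero_add]
              linarith
          simp only [hΨ, hΦ]
          rw [indicator_of_mem hV']
          simp
      _ = ENNReal.ofReal (s.im ^ 2) * (4 * (ENNReal.ofReal (2 * ρ) * M)) := by
          rw [setLIntegral_const, Real.volume_Icc, hfour, ENNReal.ofReal_mul (by norm_num)]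
          have : s.re + ρ - (s.re - ρ) = 2 * ρ := by ring
          rw [this]
          ring
  have hfin : ‖riemannZeta s ^ r * Gser g s‖ₑ ^ 2 ≤ ENNReal.ofReal (s.im ^ 2 * D) := by
    calc ‖riemannZeta s ^ r * Gser g s‖ₑ ^ 2 ≤ ENNReal.ofReal KK *
          (ENNReal.ofReal (s.im ^ 2) * (4 * (ENNReal.ofReal (2 * ρ) * M))) :=
          hdiv.trans (mul_le_mul' le_rfl hint)
      _ = ENNReal.ofReal (s.im ^ 2) * (ENNReal.ofReal KK * (4 * (ENNReal.ofReal (2 * ρ) * M))) := by ring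
      _ = _ := by
          rw [ENNReal.ofReal_mul (sq_nonneg s.im), hD, ENNReal.ofReal_toReal hDt]
  rw [← ofReal_norm, ← ENNReal.ofReal_pow (norm_nonneg _), ENNReal.ofReal_le_ofReal_iff (by positivity)] at hfin
  have h6 : s.im ≤ ‖s‖ := Complex.im_le_norm s
  have h7 : ‖riemannZeta s ^ r * Gser g s‖ ≤ s.im * Real.sqrt D := by
    have := Real.sqrt_le_sqrt hfin
    rw [Real.sqrt_sq (norm_nonneg _), Real.sqrt_mul (by positivity), Real.sqrt_sq (by linarith)] at this
    exact this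
  have h8 := Real.sqrt_nonneg D
  nlinarith [norm_nonneg s]

/-- the division step, from a growth bound for `ζ^r G` -/
theorem divide {r : ℕ} (hr : 1 ≤ r) {g : ArithmeticFunction ℝ} (hg : GS g) (hg1 : g 1 ≠ 0) {θ : ℝ} (hθ : 1 / 2 ≤ θ)
    (hB0 : ∀ δ : ℝ, 0 < δ → ∀ σ₂ : ℝ, ∃ B : ℝ, 1 ≤ B ∧ ∀ s : ℂ, θ + δ ≤ s.re → s.re ≤ σ₂ → 3 ≤ s.im →
      ‖riemannZeta s ^ r * Gser g s‖ ≤ B * (1 + ‖s‖))
    {σ : ℝ} (hσ : θ < σ) :
    ∃ C T₀ : ℝ, 0 < C ∧ ∀ t : ℝ, T₀ ≤ t → ‖riemannZeta (σ + t * I)‖ ≤ C * (1 + t) ^ (1 / r : ℝ) := by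
  set δ : ℝ := min ((σ - θ) / 2) 1 with hδ
  have hδ0 : 0 < δ := lt_min (by linarith) one_pos
  have hδ1 : δ ≤ 1 := min_le_right _ _
  have hδσ : θ + 2 * δ ≤ σ := by linarith [min_le_left ((σ - θ) / 2) 1]
  obtain ⟨σ₀, hσ₀2, hσ₀⟩ := Gser_far hg hg1
  obtain ⟨K, hK0, hK⟩ := Gser_bound hg (σ := θ + δ) (by linarith)
  set σ₁ : ℝ := max σ₀ (σ + 1) with hσ₁
  have hσ₁a : σ₀ ≤ σ₁ := le_max_left _ _
  have hσ₁b : σ + 1 ≤ σ₁ := le_max_right _ _
  set R : ℝ := σ₁ - θ - δ with hR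
  obtain ⟨B, hB1, hB⟩ := hB0 δ hδ0 (σ₁ + R)
  set A : ℝ := Real.log (max K 1) with hA
  have hA0 : 0 ≤ A := Real.log_nonneg (le_max_right _ _)
  have hg1' : 0 < |g 1| / 2 := by have := abs_pos.2 hg1; linarith
  set L : ℝ := R ^ 2 / (δ / 2) ^ 2 * (A - Real.log (|g 1| / 2)) with hL
  set B' : ℝ := B * (2 + σ₁ + 2 * R) with hB'
  have hR0 : 0 < R := by linarith
  have hB'1 : 1 ≤ B' := by
    have : 1 ≤ 2 + σ₁ + 2 * R := by linarith
    nlinarith
  refine ⟨(B' * Real.exp L) ^ (1 / r : ℝ), R + 3, by positivity, fun t ht => ?_⟩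
  have ht0 : 0 < t := by linarith
  set s : ℂ := (σ : ℂ) + t * I with hs
  set c : ℂ := (σ₁ : ℂ) + t * I with hc
  have hsc : ‖s - c‖ = σ₁ - σ := by
    have : s - c = ((σ - σ₁ : ℝ) : ℂ) := by rw [hs, hc]; push_cast; ring
    rw [this, Complex.norm_real, Real.norm_eq_abs, abs_of_neg (by linarith)]
    ring
  have hcre : c.re = σ₁ := by rw [hc]; simp
  have hcim : c.im = t := by rw [hc]; simp
  have hsub : closedBall s (δ / 2) ⊆ ball c R := by
    intro z hz
    rw [mem_closedBall, dist_eq_norm] at hz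
    rw [mem_ball, dist_eq_norm]
    have := norm_add_le (z - s) (s - c)
    rw [sub_add_sub_cancel, hsc] at this
    linarith
  have hball : ∀ z ∈ closedBall c R, θ + δ ≤ z.re ∧ 3 ≤ z.im ∧ ‖z‖ ≤ σ₁ + t + R ∧ z.re ≤ σ₁ + R := by
    intro z hz
    rw [mem_closedBall, dist_eq_norm] at hz
    have h1 := (Complex.abs_re_le_norm (z - c)).trans hz
    have h2 := (Complex.abs_im_le_norm (z - c)).trans hz
    rw [Complex.sub_re, hcre, abs_le] at h1
    rw [Complex.sub_im, hcim, abs_le] at h2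
    refine ⟨by linarith, by linarith, ?_, by linarith⟩
    have h3 := norm_add_le (z - c) c
    rw [sub_add_cancel] at h3
    have h4 : ‖c‖ ≤ σ₁ + t := by
      have := Complex.norm_le_abs_re_add_abs_im c
      rw [hcre, hcim, abs_of_nonneg (by linarith), abs_of_pos ht0] at this
      exact this
    linarith
  have hne : ∀ z ∈ closedBall c R, z ≠ 1 := by
    rintro z hz rfl
    have := (hball 1 hz).2.1
    simp at this
    linarith
  have hGa : AnalyticOnNhd ℂ (Gser g) (closedBall c R) := by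
    intro z hz
    have h1 : DifferentiableOn ℂ (Gser g) {s : ℂ | 1 / 2 < s.re} := fun s hs => (Gser_diff hg hs).differentiableWithinAt
    exact h1.analyticAt ((isOpen_lt continuous_const Complex.continuous_re).mem_nhds
      (show (1 / 2 : ℝ) < z.re by have := (hball z hz).1; linarith))
  have hza : AnalyticOnNhd ℂ (fun s => riemannZeta s ^ r) (closedBall c R) := by
    intro z hz
    have h1 : DifferentiableOn ℂ riemannZeta {s : ℂ | s ≠ 1} := fun s hs => (differentiableAt_riemannZeta hs).differentiableWithinAt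
    exact (h1.analyticAt (isOpen_ne.mem_nhds (hne z hz))).pow r
  have hcfar := hσ₀ c (by rw [hcre]; exact hσ₁a)
  have hGc : Gser g c ≠ 0 := by
    intro h
    rw [h, norm_zero] at hcfar
    linarith
  have hdiv := division' (G := Gser g) (h := fun s => riemannZeta s ^ r) (c := c) (s := s) (R := R) (ρ := δ / 2)
    (A := A) (B := B' * (1 + t)) (by linarith) hsub hGa hza hGc hA0
    (fun z hz => by
      have h1 := hK z (hball z hz).1
      rcases eq_or_ne ‖Gser g z‖ 0 with h0 | h0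
      · rw [h0, Real.log_zero]; exact hA0
      · exact Real.log_le_log (lt_of_le_of_ne (norm_nonneg _) (Ne.symm h0)) (h1.trans (le_max_left _ _)))
    (fun z hz => by
      obtain ⟨h1, h2, h3, h4⟩ := hball z hz
      calc ‖riemannZeta z ^ r * Gser g z‖ ≤ B * (1 + ‖z‖) := hB z h1 h4 h2
        _ ≤ B * ((2 + σ₁ + 2 * R) * (1 + t)) := by
            apply mul_le_mul_of_nonneg_left _ (by linarith)
            nlinarith
        _ = _ := by rw [hB']; ring)
  have hpB : Real.posLog (B' * (1 + t)) = Real.log (B' * (1 + t)) := by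
    apply Real.posLog_eq_log
    rw [abs_of_nonneg (by positivity)]
    nlinarith
  have hX : 0 < B' * (1 + t) * Real.exp L := by positivity
  have h1 : R ^ 2 / (δ / 2) ^ 2 * (A - Real.log ‖Gser g c‖) ≤ L := by
    rw [hL]
    apply mul_le_mul_of_nonneg_left _ (by positivity)
    have := Real.log_le_log hg1' hcfar
    linarith
  have h2 : ‖riemannZeta s‖ ^ r ≤ B' * (1 + t) * Real.exp L := by
    rcases eq_or_ne (riemannZeta s) 0 with h0 | h0
    · rw [h0, norm_zero, zero_pow (by omega)]; exact hX.le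
    · have h3 : 0 < ‖riemannZeta s‖ ^ r := pow_pos (norm_pos_iff.2 h0) r
      rw [← Real.log_le_log_iff h3 hX, Real.log_mul (by positivity) (Real.exp_pos _).ne', Real.log_exp]
      have h4 : Real.log (‖riemannZeta s‖ ^ r) ≤ Real.posLog ‖riemannZeta s ^ r‖ := by
        rw [norm_pow, Real.posLog_apply]
        exact le_max_right _ _
      rw [hpB] at hdiv
      linarith
  have hr0 : (r : ℝ) ≠ 0 := by positivity
  calc ‖riemannZeta s‖ = (‖riemannZeta s‖ ^ r) ^ (1 / r : ℝ) := by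
        rw [← Real.rpow_natCast, ← Real.rpow_mul (norm_nonneg _), mul_one_div_cancel hr0, Real.rpow_one]
    _ ≤ (B' * (1 + t) * Real.exp L) ^ (1 / r : ℝ) := Real.rpow_le_rpow (by positivity) h2 (by positivity)
    _ = (B' * Real.exp L) ^ (1 / r : ℝ) * (1 + t) ^ (1 / r : ℝ) := by
        rw [← Real.mul_rpow (by positivity) (by positivity)]; congr 1; ring

end Pool.Agent.H16.MS
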