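import Mathlib
import Pool.Agent.H16.MM.U2

set_option autoImplicit false

/-!
# The tenth moment of zeta to the right of the critical line, against `1 / t ^ 2`
-/

namespace Pool.Agent.H16.MS

open Complex Filter Topology Set MeasureTheory
open Pool.Agent.H388LH (zeta_growth diffAt_zeta_im zeta_sub_one)
open Pool.Agent.H16.MM (mean_strip zeta_moment)

/-- the comparison function, of modulus about `|s| ^ (κ (Re s - 1/2))` -/
noncomputable def WW (κ : ℝ) (s : ℂ) : ℂ := cexp ((κ : ℂ) * (s - 1 / 2) * Complex.log (-(I * s)))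

theorem WW_diff (κ : ℝ) {s : ℂ} (hs : 0 < s.im) : DifferentiableAt ℂ (WW κ) s := by
  unfold WW
  have h : (-(I * s)) ∈ Complex.slitPlane := by
    left
    simp [hs]
  have h1 : DifferentiableAt ℂ (fun s : ℂ => Complex.log (-(I * s))) s :=
    DifferentiableAt.clog (by fun_prop) h
  exact ((by fun_prop : DifferentiableAt ℂ (fun s : ℂ => (κ : ℂ) * (s - 1 / 2)) s).mul h1).cexp

theorem WW_re (κ : ℝ) (s : ℂ) : ((κ : ℂ) * (s - 1 / 2) * Complex.log (-(I * s))).re =
    κ * (s.re - 1 / 2) * Real.log ‖s‖ - κ * s.im * (-(I * s)).arg := by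
  have h1 : ‖-(I * s)‖ = ‖s‖ := by rw [norm_neg, norm_mul, Complex.norm_I, one_mul]
  have h2 : (s - 1 / 2).re = s.re - 1 / 2 := by simp
  have h3 : (s - 1 / 2).im = s.im := by simp
  rw [Complex.mul_re, Complex.re_ofReal_mul, Complex.im_ofReal_mul, Complex.log_re, Complex.log_im, h1, h2, h3]

theorem arg_bd {s : ℂ} (hr : 0 ≤ s.re) (hs : 0 < s.im) :
    0 ≤ -(s.im * (-(I * s)).arg) ∧ -(s.im * (-(I * s)).arg) ≤ s.re := by
  set z : ℂ := -(I * s) with hz
  have hzr : z.re = s.im := by rw [hz]; simp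
  have hzi : z.im = -s.re := by rw [hz]; simp
  have hlt : |z.arg| < Real.pi / 2 := by
    rw [Complex.abs_arg_lt_pi_div_two_iff]
    left
    rw [hzr]; exact hs
  have hlt2 := abs_lt.1 hlt
  have htan : Real.tan z.arg = -s.re / s.im := by
    rw [Complex.tan_arg, hzr, hzi]
  have hneg : z.arg ≤ 0 := by
    by_contra hpos
    push Not at hpos
    have h1 := Real.lt_tan hpos hlt2.2
    rw [htan] at h1
    have h2 : -s.re / s.im ≤ 0 := div_nonpos_of_nonpos_of_nonneg (by linarith) hs.le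
    linarith
  have h3 : -z.arg ≤ s.re / s.im := by
    have h4 := Real.le_tan (x := -z.arg) (by linarith) (by linarith)
    rw [Real.tan_neg, htan] at h4
    have h5 : -(-s.re / s.im) = s.re / s.im := by ring
    rwa [h5] at h4
  constructor
  · nlinarith
  · calc -(s.im * z.arg) = s.im * (-z.arg) := by ring
      _ ≤ s.im * (s.re / s.im) := by gcongr
      _ = s.re := by field_simp

theorem WW_lower {κ : ℝ} (hκ : 0 ≤ κ) {s : ℂ} (hr : 0 ≤ s.re) (hs : 0 < s.im) :
    ‖s‖ ^ (κ * (s.re - 1 / 2)) ≤ ‖WW κ s‖ := by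
  have hn : 0 < ‖s‖ := lt_of_lt_of_le hs (Complex.im_le_norm s)
  have h := (arg_bd hr hs).1
  unfold WW
  rw [Complex.norm_exp, WW_re, Real.rpow_def_of_pos hn]
  apply Real.exp_le_exp.2
  nlinarith

theorem WW_upper {κ : ℝ} (hκ : 0 ≤ κ) {s : ℂ} (hr : 0 ≤ s.re) (hs : 0 < s.im) :
    ‖WW κ s‖ ≤ Real.exp (κ * s.re) * ‖s‖ ^ (κ * (s.re - 1 / 2)) := by
  have hn : 0 < ‖s‖ := lt_of_lt_of_le hs (Complex.im_le_norm s)
  have h := (arg_bd hr hs).2
  unfold WW
  rw [Complex.norm_exp, WW_re, Real.rpow_def_of_pos hn, ← Real.exp_add]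
  apply Real.exp_le_exp.2
  nlinarith

theorem zline_cont (σ : ℝ) : ContinuousOn (fun t : ℝ => riemannZeta ((σ : ℂ) + t * I)) (Ioi 0) := by
  intro t ht
  have h1 : 0 < ((σ : ℂ) + t * I).im := by simpa using ht
  exact (ContinuousAt.comp (f := fun t : ℝ => (σ : ℂ) + t * I) (diffAt_zeta_im h1).continuousAt
    (by fun_prop)).continuousWithinAt

/-- the tenth moment on dyadic intervals -/
theorem tenth {σ : ℝ} (hσ : 1 / 2 < σ) (hσ2 : σ ≤ 2) : ∃ C : ℝ, 0 < C ∧ ∀ X : ℝ, 1000 ≤ X →
    ∫ u in X..(2 * X), ‖riemannZeta ((σ : ℂ) + u * I)‖ ^ 10 ≤ C * X ^ (2 - (σ - 1 / 2) / 3) := by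
  set ε : ℝ := (σ - 1 / 2) / 3 with hε
  have hε0 : 0 < ε := by rw [hε]; linarith
  obtain ⟨B, hB, hleft⟩ := zeta_moment 10 (β := 1) zero_le_one (by norm_num) hε0
  obtain ⟨D, hD0, hD⟩ := zeta_sub_one
  set E : ℝ := (1 + D) ^ 10 * Real.exp (4 / 3) with hE
  have hE0 : 0 < E := by positivity
  have hκ : (0:ℝ) ≤ 2 / 3 := by norm_num
  have key := mean_strip (f := fun s => riemannZeta s ^ 10 * WW (2 / 3) s) (c := 2) (by norm_num) le_rfl
    (m := 13) (A := 6 ^ 10 * Real.exp (8 / 3)) (by positivity)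
    (fun s hs => ((diffAt_zeta_im hs).pow 10).mul (WW_diff _ hs)) ?_ (b := 2 + ε)
    (B := Real.exp (1 / 3) * B + 10 * E) (X₀ := 1000) (by linarith) (by positivity) (by norm_num) ?_ ?_
  · obtain ⟨C, hC, hmain⟩ := key
    refine ⟨C, hC, fun X hX => ?_⟩
    have hX0 : 0 < X := by linarith
    have h1 := hmain X hX σ hσ.le hσ2
    have hcz : ContinuousOn (fun u : ℝ => riemannZeta ((σ : ℂ) + u * I)) (uIcc X (2 * X)) := by
      apply (zline_cont σ).mono
      rw [uIcc_of_le (by linarith)]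
      intro u hu
      exact lt_of_lt_of_le hX0 hu.1
    have hcW : ContinuousOn (fun u : ℝ => WW (2 / 3) ((σ : ℂ) + u * I)) (uIcc X (2 * X)) := by
      intro u hu
      rw [uIcc_of_le (by linarith)] at hu
      have h1 : 0 < ((σ : ℂ) + u * I).im := by
        have : 0 < u := lt_of_lt_of_le hX0 hu.1
        simpa using this
      exact (ContinuousAt.comp (f := fun t : ℝ => (σ : ℂ) + t * I) (WW_diff _ h1).continuousAt
        (by fun_prop)).continuousWithinAt
    have h2 : ∫ u in X..(2 * X), X ^ (2 * ε) * ‖riemannZeta ((σ : ℂ) + u * I)‖ ^ 10 ≤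
        ∫ u in X..(2 * X), ‖riemannZeta ((σ : ℂ) + u * I) ^ 10 * WW (2 / 3) ((σ : ℂ) + u * I)‖ := by
      apply intervalIntegral.integral_mono_on (by linarith)
      · exact (continuousOn_const.mul (hcz.norm.pow 10)).intervalIntegrable
      · exact ((hcz.pow 10).mul hcW).norm.intervalIntegrable
      · intro u hu
        have hu0 : 0 < u := lt_of_lt_of_le hX0 hu.1
        have e1 : ((σ : ℂ) + u * I).re = σ := by simp
        have e2 : ((σ : ℂ) + u * I).im = u := by simp
        have h3 := WW_lower hκ (s := (σ : ℂ) + u * I) (by rw [e1]; linarith) (by rw [e2]; exact hu0)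
        rw [e1] at h3
        have h4 : X ≤ ‖(σ : ℂ) + u * I‖ := by
          have := Complex.im_le_norm ((σ : ℂ) + u * I)
          rw [e2] at this
          linarith [hu.1]
        have h5 : X ^ (2 * ε) ≤ ‖(σ : ℂ) + u * I‖ ^ ((2:ℝ) / 3 * (σ - 1 / 2)) := by
          have e3 : (2:ℝ) / 3 * (σ - 1 / 2) = 2 * ε := by rw [hε]; ring
          rw [e3]
          exact Real.rpow_le_rpow hX0.le h4 (by linarith)
        rw [norm_mul, norm_pow, mul_comm]
        apply mul_le_mul_of_nonneg_left (h5.trans h3) (by positivity)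
    rw [intervalIntegral.integral_const_mul] at h2
    have h3 : X ^ (2 * ε) * ∫ u in X..(2 * X), ‖riemannZeta ((σ : ℂ) + u * I)‖ ^ 10 ≤ C * X ^ (2 + ε) := h2.trans h1
    have h4 : C * X ^ (2 + ε) = X ^ (2 * ε) * (C * X ^ (2 - ε)) := by
      have : X ^ (2 + ε) = X ^ (2 * ε) * X ^ (2 - ε) := by
        rw [← Real.rpow_add hX0]
        congr 1; ring
      rw [this]; ring
    rw [h4] at h3
    exact le_of_mul_le_mul_left h3 (by positivity)
  · intro s g1 g2 g3
    have hi : 0 < s.im := by linarith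
    have hn : 1 ≤ ‖s‖ := g3.trans (Complex.im_le_norm s)
    have h1 := zeta_growth g1 g3
    have h2 := WW_upper hκ (s := s) (by linarith) hi
    have h3 : ‖WW (2 / 3) s‖ ≤ Real.exp (8 / 3) * ‖s‖ ^ 3 := by
      refine h2.trans ?_
      have h4 : ‖s‖ ^ ((2:ℝ) / 3 * (s.re - 1 / 2)) ≤ ‖s‖ ^ 3 := by
        calc ‖s‖ ^ ((2:ℝ) / 3 * (s.re - 1 / 2)) ≤ ‖s‖ ^ (3:ℝ) :=
              Real.rpow_le_rpow_of_exponent_le hn (by linarith)
          _ = ‖s‖ ^ 3 := by norm_cast
      have h5 : Real.exp (2 / 3 * s.re) ≤ Real.exp (8 / 3) := Real.exp_le_exp.2 (by linarith)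
      gcongr
    rw [norm_mul, norm_pow]
    calc ‖riemannZeta s‖ ^ 10 * ‖WW (2 / 3) s‖ ≤ (6 * ‖s‖) ^ 10 * (Real.exp (8 / 3) * ‖s‖ ^ 3) := by
          gcongr
      _ = _ := by ring
  · intro X hX
    have hX0 : 0 < X := by linarith
    have hl := hleft X hX
    have hcz : ContinuousOn (fun u : ℝ => riemannZeta (((1 / 2 : ℝ) : ℂ) + u * I)) (uIcc (X / 2) (5 * X / 2)) := by
      apply (zline_cont (1 / 2)).mono
      rw [uIcc_of_le (by linarith)]
      intro u hu
      exact lt_of_lt_of_le (by linarith) hu.1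
    have hcW : ContinuousOn (fun u : ℝ => WW (2 / 3) (((1 / 2 : ℝ) : ℂ) + u * I)) (uIcc (X / 2) (5 * X / 2)) := by
      intro u hu
      rw [uIcc_of_le (by linarith)] at hu
      have h1 : 0 < (((1 / 2 : ℝ) : ℂ) + u * I).im := by
        have : 0 < u := lt_of_lt_of_le (by linarith) hu.1
        simpa using this
      exact (ContinuousAt.comp (f := fun t : ℝ => ((1 / 2 : ℝ) : ℂ) + t * I) (WW_diff _ h1).continuousAt
        (by fun_prop)).continuousWithinAt
    have h2 : ∫ u in (X / 2)..(5 * X / 2), ‖riemannZeta (((1 / 2 : ℝ) : ℂ) + u * I) ^ 10 *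
        WW (2 / 3) (((1 / 2 : ℝ) : ℂ) + u * I)‖ ≤
        ∫ u in (X / 2)..(5 * X / 2), Real.exp (1 / 3) * ‖riemannZeta (((1 / 2 : ℝ) : ℂ) + u * I)‖ ^ 10 := by
      apply intervalIntegral.integral_mono_on (by linarith)
      · exact ((hcz.pow 10).mul hcW).norm.intervalIntegrable
      · exact (continuousOn_const.mul (hcz.norm.pow 10)).intervalIntegrable
      · intro u hu
        have hu0 : 0 < u := lt_of_lt_of_le (by linarith) hu.1
        have e1 : (((1 / 2 : ℝ) : ℂ) + u * I).re = 1 / 2 := by simp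
        have e2 : (((1 / 2 : ℝ) : ℂ) + u * I).im = u := by simp
        have h3 := WW_upper hκ (s := ((1 / 2 : ℝ) : ℂ) + u * I) (by rw [e1]; norm_num) (by rw [e2]; exact hu0)
        rw [e1, sub_self, mul_zero, Real.rpow_zero, mul_one] at h3
        have e3 : (2:ℝ) / 3 * (1 / 2) = 1 / 3 := by norm_num
        rw [e3] at h3
        rw [norm_mul, norm_pow, mul_comm (Real.exp (1 / 3))]
        apply mul_le_mul_of_nonneg_left h3 (by positivity)
    rw [intervalIntegral.integral_const_mul] at h2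
    have h3 : X ^ (1 + 1 + ε) = X ^ (2 + ε) := by norm_num
    rw [h3] at hl
    calc _ ≤ Real.exp (1 / 3) * ∫ u in (X / 2)..(5 * X / 2), ‖riemannZeta (((1 / 2 : ℝ) : ℂ) + u * I)‖ ^ 10 := h2
      _ ≤ Real.exp (1 / 3) * (B * X ^ (2 + ε)) := by gcongr
      _ ≤ (Real.exp (1 / 3) * B + 10 * E) * X ^ (2 + ε) := by
          have : 0 ≤ 10 * E * X ^ (2 + ε) := by positivity
          linarith
  · intro X hX
    have hX0 : 0 < X := by linarith
    have hX1 : 1 ≤ X := by linarith
    have hcz : ContinuousOn (fun u : ℝ => riemannZeta (((2 : ℝ) : ℂ) + u * I)) (uIcc (X / 2) (5 * X / 2)) := by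
      apply (zline_cont 2).mono
      rw [uIcc_of_le (by linarith)]
      intro u hu
      exact lt_of_lt_of_le (by linarith) hu.1
    have hcW : ContinuousOn (fun u : ℝ => WW (2 / 3) (((2 : ℝ) : ℂ) + u * I)) (uIcc (X / 2) (5 * X / 2)) := by
      intro u hu
      rw [uIcc_of_le (by linarith)] at hu
      have h1 : 0 < (((2 : ℝ) : ℂ) + u * I).im := by
        have : 0 < u := lt_of_lt_of_le (by linarith) hu.1
        simpa using this
      exact (ContinuousAt.comp (f := fun t : ℝ => ((2 : ℝ) : ℂ) + t * I) (WW_diff _ h1).continuousAt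
        (by fun_prop)).continuousWithinAt
    have h2 : ∫ u in (X / 2)..(5 * X / 2), ‖riemannZeta (((2 : ℝ) : ℂ) + u * I) ^ 10 *
        WW (2 / 3) (((2 : ℝ) : ℂ) + u * I)‖ ≤ ∫ u in (X / 2)..(5 * X / 2), E * (5 * X) := by
      apply intervalIntegral.integral_mono_on (by linarith)
      · exact ((hcz.pow 10).mul hcW).norm.intervalIntegrable
      · exact intervalIntegrable_const
      · intro u hu
        have hu0 : 0 < u := lt_of_lt_of_le (by linarith) hu.1
        have e1 : (((2 : ℝ) : ℂ) + u * I).re = 2 := by simp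
        have e2 : (((2 : ℝ) : ℂ) + u * I).im = u := by simp
        have h3 := WW_upper hκ (s := ((2 : ℝ) : ℂ) + u * I) (by rw [e1]; norm_num) (by rw [e2]; exact hu0)
        rw [e1] at h3
        have e3 : (2:ℝ) / 3 * 2 = 4 / 3 := by norm_num
        have e4 : (2:ℝ) / 3 * (2 - 1 / 2) = 1 := by norm_num
        rw [e3, e4, Real.rpow_one] at h3
        have h4 : ‖((2 : ℝ) : ℂ) + u * I‖ ≤ 5 * X := by
          have := Complex.norm_le_abs_re_add_abs_im (((2 : ℝ) : ℂ) + u * I)
          rw [e1, e2, abs_of_pos (by norm_num), abs_of_pos hu0] at this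
          linarith [hu.2]
        have h5 : ‖riemannZeta (((2 : ℝ) : ℂ) + u * I)‖ ≤ 1 + D := by
          have h6 := hD (((2 : ℝ) : ℂ) + u * I) (by rw [e1])
          have h7 : Real.exp (-(((2 : ℝ) : ℂ) + u * I).re / 2) ≤ 1 := by
            rw [Real.exp_le_one_iff, e1]; norm_num
          have h8 : riemannZeta (((2 : ℝ) : ℂ) + u * I) = 1 + (riemannZeta (((2 : ℝ) : ℂ) + u * I) - 1) := by ring
          have h9 := norm_add_le (1 : ℂ) (riemannZeta (((2 : ℝ) : ℂ) + u * I) - 1)
          rw [← h8, norm_one] at h9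
          nlinarith
        rw [norm_mul, norm_pow]
        calc ‖riemannZeta (((2 : ℝ) : ℂ) + u * I)‖ ^ 10 * ‖WW (2 / 3) (((2 : ℝ) : ℂ) + u * I)‖ ≤
              (1 + D) ^ 10 * (Real.exp (4 / 3) * (5 * X)) := by
              apply mul_le_mul (pow_le_pow_left₀ (norm_nonneg _) h5 10) (h3.trans (by gcongr)) (norm_nonneg _)
                (by positivity)
          _ = E * (5 * X) := by rw [hE]; ring
    refine h2.trans ?_
    rw [intervalIntegral.integral_const, smul_eq_mul]
    have h3 : X * X ≤ X ^ (2 + ε) := by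
      calc X * X = X ^ (2:ℝ) := by
            rw [show (2:ℝ) = ((2:ℕ) : ℝ) by norm_num, Real.rpow_natCast]; ring
        _ ≤ X ^ (2 + ε) := Real.rpow_le_rpow_of_exponent_le hX1 (by linarith)
    calc (5 * X / 2 - X / 2) * (E * (5 * X)) = 10 * E * (X * X) := by ring
      _ ≤ 10 * E * X ^ (2 + ε) := by gcongr
      _ ≤ (Real.exp (1 / 3) * B + 10 * E) * X ^ (2 + ε) := by
          have : 0 ≤ Real.exp (1 / 3) * B * X ^ (2 + ε) := by positivity
          linarith

/-- the weighted tenth moment is finite -/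
theorem tenth_fin {σ : ℝ} (hσ : 1 / 2 < σ) (hσ2 : σ ≤ 2) :
    IntegrableOn (fun t : ℝ => ‖riemannZeta ((σ : ℂ) + t * I)‖ ^ 10 / t ^ 2) (Ioi 1) := by
  obtain ⟨C, hC, hmain⟩ := tenth hσ hσ2
  set δ : ℝ := (σ - 1 / 2) / 3 with hδ
  have hδ0 : 0 < δ := by rw [hδ]; linarith
  set F : ℝ → ℝ := fun t => ‖riemannZeta ((σ : ℂ) + t * I)‖ ^ 10 / t ^ 2 with hF
  have hFc : ContinuousOn F (Ioi 0) := by
    apply ((zline_cont σ).norm.pow 10).div (by fun_prop)
    intro t ht
    have : t ≠ 0 := ne_of_gt ht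
    positivity
  have hF0 : ∀ t, 0 ≤ F t := fun t => by positivity
  have hii : ∀ a b : ℝ, 0 < a → 0 < b → IntervalIntegrable F volume a b := by
    intro a b ha hb
    apply ContinuousOn.intervalIntegrable
    apply hFc.mono
    intro t ht
    have := (lt_min ha hb).trans_le ht.1
    exact this
  have hdy : ∀ X : ℝ, 1000 ≤ X → ∫ u in X..(2 * X), F u ≤ C * X ^ (-δ) := by
    intro X hX
    have hX0 : 0 < X := by linarith
    have hcz : ContinuousOn (fun u : ℝ => riemannZeta ((σ : ℂ) + u * I)) (uIcc X (2 * X)) := by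
      apply (zline_cont σ).mono
      rw [uIcc_of_le (by linarith)]
      intro u hu
      exact lt_of_lt_of_le hX0 hu.1
    have h1 : ∫ u in X..(2 * X), F u ≤ ∫ u in X..(2 * X), X ^ (-2 : ℝ) * ‖riemannZeta ((σ : ℂ) + u * I)‖ ^ 10 := by
      apply intervalIntegral.integral_mono_on (by linarith) (hii _ _ hX0 (by linarith))
      · exact (continuousOn_const.mul (hcz.norm.pow 10)).intervalIntegrable
      · intro u hu
        rw [hF]
        simp only
        have h2 : X ^ (-2 : ℝ) = 1 / X ^ 2 := by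
          rw [Real.rpow_neg hX0.le, show (2:ℝ) = ((2:ℕ) : ℝ) by norm_num, Real.rpow_natCast]
          simp
        rw [h2, div_eq_inv_mul, one_div]
        have : X ^ 2 ≤ u ^ 2 := pow_le_pow_left₀ hX0.le hu.1 2
        gcongr
    rw [intervalIntegral.integral_const_mul] at h1
    refine h1.trans ?_
    have h2 : X ^ (-δ) = X ^ (-2 : ℝ) * X ^ (2 - δ) := by
      rw [← Real.rpow_add hX0]
      congr 1; ring
    rw [h2]
    have h3 := hmain X hX
    calc X ^ (-2 : ℝ) * ∫ u in X..(2 * X), ‖riemannZeta ((σ : ℂ) + u * I)‖ ^ 10 ≤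
          X ^ (-2 : ℝ) * (C * X ^ (2 - δ)) := by gcongr
      _ = _ := by ring
  set q : ℝ := (2:ℝ) ^ (-δ) with hq
  have hq0 : 0 < q := by positivity
  have hq1 : q < 1 := Real.rpow_lt_one_of_one_lt_of_neg (by norm_num) (by linarith)
  set I1 : ℝ := ∫ u in (1:ℝ)..1000, F u with hI1
  have hsum : ∀ N : ℕ, ∫ u in (1:ℝ)..(1000 * 2 ^ N), F u ≤ I1 + C * ∑ k ∈ Finset.range N, q ^ k := by
    intro N
    induction N with
    | zero => simp [hI1]
    | succ N ih =>
      have hp : (1:ℝ) ≤ 2 ^ N := one_le_pow₀ (by norm_num)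
      have hpos : (0:ℝ) < 1000 * 2 ^ N := by positivity
      have h1 : (1000:ℝ) * 2 ^ (N + 1) = 2 * (1000 * 2 ^ N) := by ring
      have h2 := intervalIntegral.integral_add_adjacent_intervals
        (hii 1 (1000 * 2 ^ N) one_pos hpos) (hii (1000 * 2 ^ N) (2 * (1000 * 2 ^ N)) hpos (by positivity))
      rw [h1, ← h2, Finset.sum_range_succ, mul_add]
      have h3 := hdy (1000 * 2 ^ N) (by linarith)
      have h4 : ((1000:ℝ) * 2 ^ N) ^ (-δ) ≤ q ^ N := by
        rw [Real.mul_rpow (by norm_num) (by positivity)]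
        have h5 : (1000:ℝ) ^ (-δ) ≤ 1 := Real.rpow_le_one_of_one_le_of_nonpos (by norm_num) (by linarith)
        have h6 : ((2:ℝ) ^ N) ^ (-δ) = q ^ N := by
          rw [hq, ← Real.rpow_natCast, ← Real.rpow_mul (by norm_num), ← Real.rpow_natCast,
            ← Real.rpow_mul (by norm_num)]
          congr 1; ring
        rw [h6]
        have : 0 < q ^ N := by positivity
        nlinarith
      have h7 : C * ((1000:ℝ) * 2 ^ N) ^ (-δ) ≤ C * q ^ N := by gcongr
      linarith
  refine integrableOn_Ioi_of_intervalIntegral_norm_bounded (l := atTop) (b := fun N : ℕ => (1000:ℝ) * 2 ^ N)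
    (I1 + C * (1 / (1 - q))) 1 ?_ ?_ ?_
  · intro N
    have hp : (1:ℝ) ≤ 2 ^ N := one_le_pow₀ (by norm_num)
    have := hii 1 (1000 * 2 ^ N) one_pos (by positivity)
    rwa [intervalIntegrable_iff_integrableOn_Ioc_of_le (by linarith)] at this
  · apply Tendsto.const_mul_atTop (by norm_num)
    exact tendsto_pow_atTop_atTop_of_one_lt (by norm_num)
  · apply Eventually.of_forall
    intro N
    have h1 : (∫ u in (1:ℝ)..(1000 * 2 ^ N), ‖F u‖) = ∫ u in (1:ℝ)..(1000 * 2 ^ N), F u := by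
      congr 1
      ext u
      exact Real.norm_of_nonneg (hF0 u)
    rw [h1]
    refine (hsum N).trans ?_
    have h2 : ∑ k ∈ Finset.range N, q ^ k ≤ 1 / (1 - q) := by
      rw [one_div]
      have h3 := hasSum_geometric_of_lt_one hq0.le hq1
      rw [← h3.tsum_eq]
      exact h3.summable.sum_le_tsum _ (fun k _ => by positivity)
    gcongr

/-- the weighted moments of order at most ten are finite -/
theorem zeta_moment_fin {r : ℕ} (hr : r ≤ 5) {σ : ℝ} (hσ : 1 / 2 < σ) (hσ2 : σ ≤ 2) :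
    MeasureTheory.IntegrableOn (fun t : ℝ => ‖riemannZeta ((σ : ℂ) + t * Complex.I)‖ ^ (2 * r) / t ^ 2) (Set.Ioi 1) := by
  have h1 := tenth_fin hσ hσ2
  have h2 : IntegrableOn (fun t : ℝ => t ^ (-2 : ℝ)) (Ioi 1) := integrableOn_Ioi_rpow_of_lt (by norm_num) one_pos
  refine Integrable.mono' (h2.add h1) ?_ ?_
  · apply ContinuousOn.aestronglyMeasurable _ measurableSet_Ioi
    apply ContinuousOn.div
    · exact ((zline_cont σ).mono (Ioi_subset_Ioi zero_le_one)).norm.pow _
    · fun_prop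
    · intro t ht
      have : (0:ℝ) < t := lt_trans one_pos ht
      positivity
  · rw [ae_restrict_iff' measurableSet_Ioi]
    apply ae_of_all
    intro t ht
    have ht0 : (0:ℝ) < t := lt_trans one_pos ht
    rw [Real.norm_of_nonneg (by positivity)]
    have h3 : t ^ (-2 : ℝ) = 1 / t ^ 2 := by
      rw [Real.rpow_neg ht0.le, show (2:ℝ) = ((2:ℕ) : ℝ) by norm_num, Real.rpow_natCast]
      simp
    simp only [Pi.add_apply]
    rw [h3, ← add_div]
    apply div_le_div_of_nonneg_right _ (by positivity)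
    set z := ‖riemannZeta ((σ : ℂ) + t * I)‖ with hz
    have hz0 : 0 ≤ z := norm_nonneg _
    rcases le_total z 1 with h | h
    · have : z ^ (2 * r) ≤ 1 := pow_le_one₀ hz0 h
      have h10 : 0 ≤ z ^ 10 := by positivity
      linarith
    · have : z ^ (2 * r) ≤ z ^ 10 := pow_le_pow_right₀ h (by omega)
      linarith

end Pool.Agent.H16.MS
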