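import Pool.Agent.H16.MS.Paley

set_option autoImplicit false

/-!
# A Paley-Wiener type bound, II
-/

namespace Pool.Agent.H16.MS

open Complex Metric Set Filter Topology MeasureTheory
open Pool.Agent.W173.OS Pool.Agent.H295R2
open scoped ENNReal FourierTransform

theorem norm_gauss (η : ℝ) (s : ℂ) : ‖cexp ((η : ℂ) ^ 2 * s ^ 2)‖ = Real.exp (η ^ 2 * (s.re ^ 2 - s.im ^ 2)) := by
  rw [Complex.norm_exp]
  congr 1
  have : (η : ℂ) ^ 2 * s ^ 2 = ((η ^ 2 : ℝ) : ℂ) * s ^ 2 := by push_cast; ring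
  rw [this, Complex.re_ofReal_mul]
  congr 1
  rw [sq, Complex.mul_re]
  ring

theorem norm_expmul (s : ℂ) (u : ℝ) : ‖cexp (s * u)‖ = Real.exp (s.re * u) := by
  rw [Complex.norm_exp]
  congr 1
  simp

/-- the smoothed inversion formula -/
theorem inversion {a : ℝ → ℂ} {K c₀ θ σ A B : ℝ} (ha : Nice a K c₀ 0)
    {H : ℂ → ℂ} (hH : ∀ s : ℂ, θ < s.re → DifferentiableAt ℂ H s)
    (hLap : ∀ s : ℂ, c₀ < s.re → H s = Lap a s)
    (hA : 0 ≤ A) (hB : 0 ≤ B) (hgrow : ∀ s : ℂ, σ ≤ s.re → s.re ≤ c₀ + 1 → ‖H s‖ ≤ B * (1 + |s.im|) ^ A)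
    (hθσ : θ < σ) (hσ : σ ≤ c₀ + 1) {η : ℝ} (hη : 0 < η) (u : ℝ) :
    ∫ t : ℝ, H ((σ : ℂ) + t * I) * cexp ((η : ℂ) ^ 2 * ((σ : ℂ) + t * I) ^ 2) * cexp (((σ : ℂ) + t * I) * u) =
      ((2 * Real.sqrt Real.pi : ℝ) : ℂ) * ∫ y : ℝ, a (u + 2 * η * y) * ((Real.exp (-(y ^ 2)) : ℝ) : ℂ) := by
  set R : ℝ := max |σ| |c₀ + 1| with hR
  have hR0 : 0 ≤ R := le_max_of_le_left (abs_nonneg _)
  have hη2 : 0 < η ^ 2 := by positivity
  have hreb : ∀ s : ℂ, σ ≤ s.re → s.re ≤ c₀ + 1 → |s.re| ≤ R := by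
    intro s h1 h2
    rw [abs_le]
    constructor
    · have : -|σ| ≤ σ := neg_abs_le σ
      have := le_max_left |σ| |c₀ + 1|
      linarith
    · have : c₀ + 1 ≤ |c₀ + 1| := le_abs_self _
      have := le_max_right |σ| |c₀ + 1|
      linarith
  have hshift := shift_line (F := fun s => H s * cexp ((η : ℂ) ^ 2 * s ^ 2) * cexp (s * u)) (x₀ := σ) (x₁ := c₀ + 1)
    (C := B * Real.exp (A ^ 2 / (2 * η ^ 2)) * Real.exp (η ^ 2 * R ^ 2) * Real.exp (R * |u|)) (ε := η ^ 2 / 2) hσ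
    (by positivity)
    (fun s h1 h2 => by
      have h3 := hH s (by linarith)
      have h4 : DifferentiableAt ℂ (fun s : ℂ => cexp ((η : ℂ) ^ 2 * s ^ 2)) s := by fun_prop
      have h5 : DifferentiableAt ℂ (fun s : ℂ => cexp (s * u)) s := by fun_prop
      exact (h3.mul h4).mul h5)
    (fun s h1 h2 => by
      rw [norm_mul, norm_mul, norm_gauss, norm_expmul]
      have h3 := hgrow s h1 h2
      have h4 := hreb s h1 h2
      have h5 : Real.exp (s.re * u) ≤ Real.exp (R * |u|) := by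
        apply Real.exp_le_exp.2
        calc s.re * u ≤ |s.re * u| := le_abs_self _
          _ = |s.re| * |u| := abs_mul _ _
          _ ≤ R * |u| := by gcongr
      have h6 : Real.exp (η ^ 2 * (s.re ^ 2 - s.im ^ 2)) ≤ Real.exp (η ^ 2 * R ^ 2) * Real.exp (-(η ^ 2 * s.im ^ 2)) := by
        rw [← Real.exp_add]
        apply Real.exp_le_exp.2
        have h7 : s.re ^ 2 ≤ R ^ 2 := by
          rw [← sq_abs s.re]
          exact pow_le_pow_left₀ (abs_nonneg _) h4 2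
        nlinarith
      have h8 := pow_gauss (A := A) (ε := η ^ 2) (t := s.im) hA hη2
      calc ‖H s‖ * Real.exp (η ^ 2 * (s.re ^ 2 - s.im ^ 2)) * Real.exp (s.re * u)
          ≤ (B * (1 + |s.im|) ^ A) * (Real.exp (η ^ 2 * R ^ 2) * Real.exp (-(η ^ 2 * s.im ^ 2))) * Real.exp (R * |u|) := by
            gcongr
        _ = B * ((1 + |s.im|) ^ A * Real.exp (-(η ^ 2 * s.im ^ 2))) * Real.exp (η ^ 2 * R ^ 2) * Real.exp (R * |u|) := by
            ring
        _ ≤ B * (Real.exp (A ^ 2 / (2 * η ^ 2)) * Real.exp (-(η ^ 2 / 2 * s.im ^ 2))) * Real.exp (η ^ 2 * R ^ 2) *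
              Real.exp (R * |u|) := by
            gcongr
        _ = _ := by ring)
  rw [hshift]
  clear hshift
  set x : ℝ := c₀ + 1 with hx
  -- the Laplace transform
  have h1 : ∀ t : ℝ, H ((x : ℂ) + t * I) * cexp ((η : ℂ) ^ 2 * ((x : ℂ) + t * I) ^ 2) * cexp (((x : ℂ) + t * I) * u) =
      ∫ v : ℝ, a v * cexp (-(((x : ℂ) + t * I) * v)) *
        (cexp ((η : ℂ) ^ 2 * ((x : ℂ) + t * I) ^ 2) * cexp (((x : ℂ) + t * I) * u)) := by
    intro t
    rw [hLap _ (by simp; linarith), integral_mul_const, mul_assoc]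
    rfl
  simp_rw [h1]
  have hni : Integrable fun v : ℝ => ‖a v‖ * Real.exp (-(x * v)) := (Nice.lint ha).int x (by linarith)
  have hgi : Integrable fun t : ℝ => Real.exp (η ^ 2 * x ^ 2 + x * u) * Real.exp (-(η ^ 2) * t ^ 2) :=
    (integrable_exp_neg_mul_sq hη2).const_mul _
  have ham : Measurable a := ha.meas
  have hint : Integrable (Function.uncurry fun (t v : ℝ) => a v * cexp (-(((x : ℂ) + t * I) * v)) *
      (cexp ((η : ℂ) ^ 2 * ((x : ℂ) + t * I) ^ 2) * cexp (((x : ℂ) + t * I) * u))) (volume.prod volume) := by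
    have hprod := hgi.mul_prod hni
    refine hprod.mono' ?_ (Eventually.of_forall fun p => ?_)
    · apply Measurable.aestronglyMeasurable
      apply Measurable.mul
      · exact (ham.comp measurable_snd).mul (by fun_prop)
      · fun_prop
    · simp only [Function.uncurry]
      rw [norm_mul, norm_mul, norm_mul, norm_gauss, norm_expmul, norm_exp_neg_mul]
      have e1 : ((x : ℂ) + (p.1 : ℂ) * I).re = x := by simp
      have e2 : ((x : ℂ) + (p.1 : ℂ) * I).im = p.1 := by simp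
      rw [e1, e2]
      apply le_of_eq
      have e3 : Real.exp (η ^ 2 * (x ^ 2 - p.1 ^ 2)) * Real.exp (x * u) =
          Real.exp (η ^ 2 * x ^ 2 + x * u) * Real.exp (-(η ^ 2) * p.1 ^ 2) := by
        rw [← Real.exp_add, ← Real.exp_add]
        congr 1
        ring
      rw [e3]
      ring
  rw [integral_integral_swap hint]
  have h2 : ∀ v : ℝ, ∫ t : ℝ, a v * cexp (-(((x : ℂ) + t * I) * v)) *
        (cexp ((η : ℂ) ^ 2 * ((x : ℂ) + t * I) ^ 2) * cexp (((x : ℂ) + t * I) * u)) =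
      a v * (((Real.sqrt Real.pi / η : ℝ) : ℂ) * ((Real.exp (-((u - v) ^ 2 / (4 * η ^ 2))) : ℝ) : ℂ)) := by
    intro v
    rw [← gauss_line hη x (u - v), ← integral_const_mul]
    congr 1
    ext t
    rw [mul_assoc]
    congr 1
    rw [mul_comm (cexp (-(((x : ℂ) + t * I) * v))), mul_assoc, ← Complex.exp_add]
    congr 2
    push_cast
    ring
  simp_rw [h2]
  -- the substitution
  set g : ℝ → ℂ := fun v => a v * (((Real.sqrt Real.pi / η : ℝ) : ℂ) * ((Real.exp (-((u - v) ^ 2 / (4 * η ^ 2))) : ℝ) : ℂ))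
    with hg
  have h3 : ∫ y : ℝ, g (u + 2 * η * y) = |(2 * η)⁻¹| • ∫ v : ℝ, g v := by
    have h4 := Measure.integral_comp_mul_left (fun z => g (u + z)) (2 * η)
    rw [h4, integral_add_left_eq_self g u]
  rw [abs_of_pos (by positivity)] at h3
  have h4 : ∫ v : ℝ, g v = (2 * η) • ∫ y : ℝ, g (u + 2 * η * y) := by
    rw [h3, smul_smul, mul_inv_cancel₀ (by positivity), one_smul]
  have h5 : ∀ y : ℝ, g (u + 2 * η * y) = ((Real.sqrt Real.pi / η : ℝ) : ℂ) * (a (u + 2 * η * y) * ((Real.exp (-(y ^ 2)) : ℝ) : ℂ)) := by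
    intro y
    simp only [hg]
    have e : (u - (u + 2 * η * y)) ^ 2 / (4 * η ^ 2) = y ^ 2 := by
      field_simp
      ring
    rw [e]
    ring
  rw [h4]
  simp_rw [h5]
  rw [integral_const_mul, Complex.real_smul, ← mul_assoc]
  congr 1
  rw [← Complex.ofReal_mul]
  congr 1
  field_simp

/-- the approximation of the identity -/
theorem approx_id {a : ℝ → ℂ} {K c₀ : ℝ} (ha : Nice a K c₀ 0) {u : ℝ} (hu : ContinuousAt a u) {η : ℕ → ℝ}
    (h0 : ∀ n, 0 < η n) (h1 : ∀ n, η n ≤ 1) (hlim : Tendsto η atTop (𝓝 0)) :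
    Tendsto (fun n => ∫ y : ℝ, a (u + 2 * η n * y) * ((Real.exp (-(y ^ 2)) : ℝ) : ℂ)) atTop
      (𝓝 (a u * ((Real.sqrt Real.pi : ℝ) : ℂ))) := by
  have hK0 : 0 ≤ K := by
    have := (norm_nonneg _).trans (ha.bound 0)
    simpa using this
  have hG : ∫ y : ℝ, a u * ((Real.exp (-(y ^ 2)) : ℝ) : ℂ) = a u * ((Real.sqrt Real.pi : ℝ) : ℂ) := by
    rw [integral_const_mul]
    congr 1
    rw [integral_complex_ofReal]
    congr 1
    have := integral_gaussian 1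
    simpa using this
  rw [← hG]
  apply tendsto_integral_of_dominated_convergence
    (fun y => K * Real.exp (c₀ * u) * Real.exp (2 * c₀ ^ 2) * Real.exp (-(1 / 2) * y ^ 2))
  · intro n
    have ham : Measurable a := ha.meas
    apply Measurable.aestronglyMeasurable
    apply Measurable.mul
    · exact ham.comp (by fun_prop)
    · fun_prop
  · exact (integrable_exp_neg_mul_sq (by norm_num)).const_mul _
  · intro n
    refine Eventually.of_forall fun y => ?_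
    rw [norm_mul, Complex.norm_real, Real.norm_of_nonneg (Real.exp_pos _).le]
    have h2 := ha.bound (u + 2 * η n * y)
    have h3 : c₀ * (2 * η n * y) ≤ 2 * c₀ ^ 2 + 1 / 2 * y ^ 2 := by
      have h4 : c₀ * (2 * η n * y) ≤ 2 * |c₀| * |y| := by
        calc c₀ * (2 * η n * y) ≤ |c₀ * (2 * η n * y)| := le_abs_self _
          _ = 2 * η n * (|c₀| * |y|) := by
              rw [abs_mul, abs_mul, abs_mul, abs_of_pos (h0 n), abs_two]; ring
          _ ≤ 2 * 1 * (|c₀| * |y|) := by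
              apply mul_le_mul_of_nonneg_right _ (by positivity)
              linarith [h1 n]
          _ = _ := by ring
      have h5 : 2 * |c₀| * |y| ≤ 2 * |c₀| ^ 2 + 1 / 2 * |y| ^ 2 := by nlinarith [sq_nonneg (2 * |c₀| - |y|)]
      rw [sq_abs, sq_abs] at h5
      linarith
    calc ‖a (u + 2 * η n * y)‖ * Real.exp (-(y ^ 2))
        ≤ K * Real.exp (c₀ * (u + 2 * η n * y)) * Real.exp (-(y ^ 2)) := by gcongr
      _ = K * Real.exp (c₀ * u + c₀ * (2 * η n * y) - y ^ 2) := by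
          rw [mul_assoc, ← Real.exp_add]
          ring_nf
      _ ≤ K * Real.exp (c₀ * u + 2 * c₀ ^ 2 + -(1 / 2) * y ^ 2) := by
          apply mul_le_mul_of_nonneg_left _ hK0
          apply Real.exp_le_exp.2
          linarith
      _ = _ := by
          rw [Real.exp_add, Real.exp_add]
          ring
  · refine Eventually.of_forall fun y => ?_
    apply Tendsto.mul_const
    have h2 : Tendsto (fun n => u + 2 * η n * y) atTop (𝓝 u) := by
      have := ((hlim.const_mul 2).mul_const y).const_add u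
      simpa using this
    exact hu.tendsto.comp h2

/-- The bound -/
theorem paley {a : ℝ → ℂ} {K c₀ θ σ A B : ℝ} (ha : Nice a K c₀ 0) (hcont : ∀ᵐ u : ℝ, ContinuousAt a u)
    {H : ℂ → ℂ} (hH : ∀ s : ℂ, θ < s.re → DifferentiableAt ℂ H s)
    (hLap : ∀ s : ℂ, c₀ < s.re → H s = Lap a s)
    (hA : 0 ≤ A) (hB : 0 ≤ B) (hgrow : ∀ s : ℂ, σ ≤ s.re → s.re ≤ c₀ + 1 → ‖H s‖ ≤ B * (1 + |s.im|) ^ A)
    (hθσ : θ < σ) (hσ : σ ≤ c₀ + 1) (hfin : ∫⁻ t : ℝ, ‖H ((σ : ℂ) + t * I)‖ₑ ^ 2 < ⊤) :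
    ∫⁻ u : ℝ, ‖hh a σ u‖ₑ ^ 2 < ⊤ := by
  have hre : ∀ t : ℝ, ((σ : ℂ) + t * I).re = σ := fun t => by simp
  have him : ∀ t : ℝ, ((σ : ℂ) + t * I).im = t := fun t => by simp
  set η : ℕ → ℝ := fun n => 1 / ((n : ℝ) + 1) with hη
  have h0 : ∀ n, 0 < η n := fun n => by simp only [hη]; positivity
  have h1 : ∀ n, η n ≤ 1 := fun n => by
    simp only [hη]
    rw [div_le_one (by positivity)]
    linarith [Nat.cast_nonneg (α := ℝ) n]
  have hlim : Tendsto η atTop (𝓝 0) := tendsto_one_div_add_atTop_nhds_zero_nat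
  set φ : ℕ → ℝ → ℂ := fun n t => H ((σ : ℂ) + t * I) * cexp ((η n : ℂ) ^ 2 * ((σ : ℂ) + t * I) ^ 2) with hφ
  have hHc : Continuous fun t : ℝ => H ((σ : ℂ) + t * I) := by
    rw [continuous_iff_continuousAt]
    intro t
    exact ContinuousAt.comp (f := fun t : ℝ => (σ : ℂ) + t * I) (g := H)
      (hH _ (by rw [hre]; exact hθσ)).continuousAt (by fun_prop)
  have hφc : ∀ n, Continuous (φ n) := fun n => hHc.mul (by fun_prop)
  have hφn : ∀ n t, ‖φ n t‖ = ‖H ((σ : ℂ) + t * I)‖ * Real.exp (η n ^ 2 * (σ ^ 2 - t ^ 2)) := by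
    intro n t
    simp only [hφ]
    rw [norm_mul, norm_gauss, hre, him]
  have hφb : ∀ n t, ‖φ n t‖ ≤ Real.exp (σ ^ 2) * ‖H ((σ : ℂ) + t * I)‖ := by
    intro n t
    rw [hφn, mul_comm]
    apply mul_le_mul_of_nonneg_right _ (norm_nonneg _)
    apply Real.exp_le_exp.2
    have h2 : η n ^ 2 ≤ 1 := pow_le_one₀ (h0 n).le (h1 n)
    nlinarith [sq_nonneg σ, sq_nonneg t, mul_nonneg (sq_nonneg (η n)) (sq_nonneg t)]
  have hφi : ∀ n, Integrable (φ n) := by
    intro n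
    have hη2 : 0 < η n ^ 2 := by have := h0 n; positivity
    apply int_gauss (ε := η n ^ 2 / 2) (C := B * Real.exp (A ^ 2 / (2 * η n ^ 2)) * Real.exp (η n ^ 2 * σ ^ 2))
      (by positivity) (hφc n)
    intro t
    rw [hφn]
    have h3 := hgrow ((σ : ℂ) + t * I) (by rw [hre]) (by rw [hre]; exact hσ)
    rw [him] at h3
    have h4 := pow_gauss (A := A) (ε := η n ^ 2) (t := t) hA hη2
    calc ‖H ((σ : ℂ) + t * I)‖ * Real.exp (η n ^ 2 * (σ ^ 2 - t ^ 2))
        ≤ B * (1 + |t|) ^ A * Real.exp (η n ^ 2 * (σ ^ 2 - t ^ 2)) := by gcongr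
      _ = B * ((1 + |t|) ^ A * Real.exp (-(η n ^ 2 * t ^ 2))) * Real.exp (η n ^ 2 * σ ^ 2) := by
          have : Real.exp (η n ^ 2 * (σ ^ 2 - t ^ 2)) = Real.exp (-(η n ^ 2 * t ^ 2)) * Real.exp (η n ^ 2 * σ ^ 2) := by
            rw [← Real.exp_add]; ring_nf
          rw [this]; ring
      _ ≤ B * (Real.exp (A ^ 2 / (2 * η n ^ 2)) * Real.exp (-(η n ^ 2 / 2 * t ^ 2))) * Real.exp (η n ^ 2 * σ ^ 2) := by
          gcongr
      _ = _ := by ring
  have hφ2 : ∀ n, ∫⁻ t, ‖φ n t‖ₑ ^ 2 ≤ ENNReal.ofReal (Real.exp (σ ^ 2) ^ 2) * ∫⁻ t : ℝ, ‖H ((σ : ℂ) + t * I)‖ₑ ^ 2 := by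
    intro n
    rw [← lintegral_const_mul' _ _ ENNReal.ofReal_ne_top]
    apply lintegral_mono
    intro t
    simp only
    rw [← ofReal_norm, ← ofReal_norm, ← ENNReal.ofReal_pow (norm_nonneg _), ← ENNReal.ofReal_pow (norm_nonneg _),
      ← ENNReal.ofReal_mul (by positivity)]
    apply ENNReal.ofReal_le_ofReal
    rw [← mul_pow]
    exact pow_le_pow_left₀ (norm_nonneg _) (hφb n t) 2
  have hplan : ∀ n, ∫⁻ ξ, ‖𝓕 (φ n) ξ‖ₑ ^ 2 = ∫⁻ t, ‖φ n t‖ₑ ^ 2 := fun n =>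
    Pool.Agent.Helper710.PosGroup.plancherel_lintegral (φ n) (hφi n)
      (memLp_two (hφc n).aestronglyMeasurable
        (lt_of_le_of_lt (hφ2 n) (ENNReal.mul_lt_top ENNReal.ofReal_lt_top hfin)))
  -- the smoothed function
  set b : ℕ → ℝ → ℂ := fun n u => 𝓕 (φ n) ((2 * Real.pi)⁻¹ * (-u)) with hb
  have hFc : ∀ n, Continuous (𝓕 (φ n)) := fun n =>
    VectorFourier.fourierIntegral_continuous Real.continuous_fourierChar (innerSL ℝ).continuous₂ (hφi n)
  have hb2 : ∀ n, ∫⁻ u, ‖b n u‖ₑ ^ 2 = ENNReal.ofReal (2 * Real.pi) * ∫⁻ t, ‖φ n t‖ₑ ^ 2 := by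
    intro n
    have h2 := lintegral_neg_eq_self (μ := (volume : Measure ℝ)) fun u => ‖𝓕 (φ n) ((2 * Real.pi)⁻¹ * u)‖ₑ ^ 2
    have h3 := scale_lint (c := (2 * Real.pi)⁻¹) (by positivity) (fun ξ => ‖𝓕 (φ n) ξ‖ₑ ^ 2)
      ((hFc n).measurable.enorm.pow_const 2)
    rw [inv_inv, hplan n] at h3
    rw [← h3, ← h2]
  have hbu : ∀ n u, b n u = cexp (-((σ : ℂ) * u)) * (((2 * Real.sqrt Real.pi : ℝ) : ℂ) *
      ∫ y : ℝ, a (u + 2 * η n * y) * ((Real.exp (-(y ^ 2)) : ℝ) : ℂ)) := by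
    intro n u
    rw [← inversion ha hH hLap hA hB hgrow hθσ hσ (h0 n) u, ← integral_const_mul]
    simp only [hb]
    rw [Real.fourier_eq']
    congr 1
    ext t
    simp only [hφ]
    rw [smul_eq_mul, mul_comm (cexp (-((σ : ℂ) * u))), mul_assoc (H _ * _), ← Complex.exp_add, mul_comm (cexp _) (H _ * _)]
    congr 2
    simp only [RCLike.inner_apply, conj_trivial]
    have hpi : (Real.pi : ℂ) ≠ 0 := by exact_mod_cast Real.pi_ne_zero
    push_cast
    field_simp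
    ring
  -- Fatou
  have hlimb : ∀ᵐ u : ℝ, Tendsto (fun n => ‖b n u‖ₑ ^ 2) atTop (𝓝 (‖((2 * Real.pi : ℝ) : ℂ) * hh a σ u‖ₑ ^ 2)) := by
    filter_upwards [hcont] with u hu
    have h2 := approx_id ha hu h0 h1 hlim
    have h3 : Tendsto (fun n => b n u) atTop (𝓝 (((2 * Real.pi : ℝ) : ℂ) * hh a σ u)) := by
      have h4 := (h2.const_mul ((2 * Real.sqrt Real.pi : ℝ) : ℂ)).const_mul (cexp (-((σ : ℂ) * u)))
      have e : cexp (-((σ : ℂ) * u)) * (((2 * Real.sqrt Real.pi : ℝ) : ℂ) * (a u * ((Real.sqrt Real.pi : ℝ) : ℂ))) =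
          ((2 * Real.pi : ℝ) : ℂ) * hh a σ u := by
        unfold hh
        have e2 : ((2 * Real.pi : ℝ) : ℂ) = ((2 * Real.sqrt Real.pi : ℝ) : ℂ) * ((Real.sqrt Real.pi : ℝ) : ℂ) := by
          rw [← Complex.ofReal_mul]
          congr 1
          rw [mul_assoc, Real.mul_self_sqrt Real.pi_pos.le]
        rw [e2]
        ring
      rw [e] at h4
      refine h4.congr fun n => ?_
      exact (hbu n u).symm
    exact (ENNReal.continuous_pow 2).continuousAt.tendsto.comp (continuous_enorm.continuousAt.tendsto.comp h3)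
  have hD : ∀ n, ∫⁻ u, ‖b n u‖ₑ ^ 2 ≤ ENNReal.ofReal (2 * Real.pi) *
      (ENNReal.ofReal (Real.exp (σ ^ 2) ^ 2) * ∫⁻ t : ℝ, ‖H ((σ : ℂ) + t * I)‖ₑ ^ 2) := by
    intro n
    rw [hb2]
    exact mul_le_mul' le_rfl (hφ2 n)
  have hDt : ENNReal.ofReal (2 * Real.pi) *
      (ENNReal.ofReal (Real.exp (σ ^ 2) ^ 2) * ∫⁻ t : ℝ, ‖H ((σ : ℂ) + t * I)‖ₑ ^ 2) < ⊤ :=
    ENNReal.mul_lt_top ENNReal.ofReal_lt_top (ENNReal.mul_lt_top ENNReal.ofReal_lt_top hfin)
  have hfatou : ∫⁻ u, ‖((2 * Real.pi : ℝ) : ℂ) * hh a σ u‖ₑ ^ 2 ≤ ENNReal.ofReal (2 * Real.pi) *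
      (ENNReal.ofReal (Real.exp (σ ^ 2) ^ 2) * ∫⁻ t : ℝ, ‖H ((σ : ℂ) + t * I)‖ₑ ^ 2) := by
    calc ∫⁻ u, ‖((2 * Real.pi : ℝ) : ℂ) * hh a σ u‖ₑ ^ 2 = ∫⁻ u, liminf (fun n => ‖b n u‖ₑ ^ 2) atTop := by
          apply lintegral_congr_ae
          filter_upwards [hlimb] with u hu
          exact hu.liminf_eq.symm
      _ ≤ liminf (fun n => ∫⁻ u, ‖b n u‖ₑ ^ 2) atTop := by
          apply lintegral_liminf_le
          intro n
          have : Continuous fun u : ℝ => b n u := (hFc n).comp (by fun_prop)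
          exact this.measurable.enorm.pow_const 2
      _ ≤ liminf (fun _ : ℕ => _) atTop := liminf_le_liminf (Eventually.of_forall hD)
      _ = _ := liminf_const _
  refine lt_of_le_of_lt ?_ (lt_of_le_of_lt hfatou hDt)
  apply lintegral_mono
  intro u
  simp only
  rw [← ofReal_norm, ← ofReal_norm, ← ENNReal.ofReal_pow (norm_nonneg _), ← ENNReal.ofReal_pow (norm_nonneg _)]
  apply ENNReal.ofReal_le_ofReal
  apply pow_le_pow_left₀ (norm_nonneg _)
  rw [norm_mul, Complex.norm_real, Real.norm_of_nonneg (by positivity)]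
  have : 1 ≤ 2 * Real.pi := by linarith [Real.pi_gt_three]
  nlinarith [norm_nonneg (hh a σ u)]

end Pool.Agent.H16.MS
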