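import Pool.Agent.H16.MS.M8
import Pool.Agent.H16.MS.Paley2
import Pool.Agent.H16.MS.Moment

set_option autoImplicit false

/-!
# Mean squares of the error terms of divisor-like functions
-/

namespace Pool.Agent.H16.MS

open Complex Metric Set Filter Topology MeasureTheory
open Pool.Agent.W173.OS Pool.Agent.H295R2 Pool.Agent.H16.DM
open scoped ENNReal

/-- from a pointwise bound to a mean square bound -/
theorem MSB_of_err {f : ℕ → ℝ} {P : Polynomial ℝ} {θ C : ℝ} (hθ : 0 ≤ θ)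
    (h : ∀ x : ℝ, 1 ≤ x → |Del f P x| ≤ C * x ^ θ) : MSB f P θ := by
  refine ⟨C ^ 2, fun X hX => ?_⟩
  have hX0 : 0 < X := by linarith
  have h1 : ∫ x in (1 : ℝ)..X, Del f P x ^ 2 ≤ ∫ _x in (1 : ℝ)..X, C ^ 2 * X ^ (2 * θ) := by
    rw [intervalIntegral.integral_of_le hX, intervalIntegral.integral_of_le hX]
    apply integral_mono_of_nonneg
    · exact Eventually.of_forall fun x => sq_nonneg _
    · exact integrableOn_const (by simp)
    · filter_upwards [ae_restrict_mem measurableSet_Ioc] with x hx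
      have hx0 : 0 < x := by linarith [hx.1]
      have h2 := h x hx.1.le
      rw [← sq_abs]
      calc |Del f P x| ^ 2 ≤ (C * x ^ θ) ^ 2 := pow_le_pow_left₀ (abs_nonneg _) h2 2
        _ = C ^ 2 * x ^ (2 * θ) := by
            rw [mul_pow, ← Real.rpow_natCast (x ^ θ) 2, ← Real.rpow_mul hx0.le]
            congr 2
            push_cast
            ring
        _ ≤ C ^ 2 * X ^ (2 * θ) := by
            apply mul_le_mul_of_nonneg_left _ (sq_nonneg _)
            exact Real.rpow_le_rpow hx0.le hx.2 (by linarith)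
  rw [intervalIntegral.integral_const, smul_eq_mul] at h1
  have h3 : 0 ≤ C ^ 2 * X ^ (2 * θ) := by positivity
  calc ∫ x in (1 : ℝ)..X, Del f P x ^ 2 ≤ (X - 1) * (C ^ 2 * X ^ (2 * θ)) := h1
    _ ≤ X * (C ^ 2 * X ^ (2 * θ)) := mul_le_mul_of_nonneg_right (by linarith) h3
    _ = C ^ 2 * X ^ (1 + 2 * θ) := by rw [Real.rpow_add hX0, Real.rpow_one]; ring

theorem MSB_nonneg {f : ℕ → ℝ} {P : Polynomial ℝ} {a C : ℝ}
    (h : ∀ X : ℝ, 1 ≤ X → ∫ x in (1 : ℝ)..X, Del f P x ^ 2 ≤ C * X ^ a) : 0 ≤ C := by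
  have := h 1 le_rfl
  rw [intervalIntegral.integral_same] at this
  simpa using this

theorem MSB_mono {f : ℕ → ℝ} {P : Polynomial ℝ} {θ θ' : ℝ} (hθ : θ ≤ θ') (h : MSB f P θ) : MSB f P θ' := by
  obtain ⟨C, hC⟩ := h
  have hC0 := MSB_nonneg hC
  refine ⟨C, fun X hX => (hC X hX).trans (mul_le_mul_of_nonneg_left ?_ hC0)⟩
  exact Real.rpow_le_rpow_of_exponent_le hX (by linarith)

theorem MSB_trivial {f : ℕ → ℝ} (hf : ∃ C : ℝ, ∀ n : ℕ, |f n| ≤ C * (n : ℝ) ^ (1 / 2 : ℝ)) (P : Polynomial ℝ) :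
    MSB f P (3 / 2) := by
  obtain ⟨K, _, hK⟩ := Del_bound hf P
  exact MSB_of_err (by norm_num) hK

/-- the moments -/
def Mom (r : ℕ) (σ : ℝ) : Prop :=
  IntegrableOn (fun t : ℝ => ‖riemannZeta ((σ : ℂ) + t * I)‖ ^ (2 * r) / t ^ 2) (Ioi 1)

theorem zcont (σ : ℝ) : ContinuousOn (fun t : ℝ => riemannZeta ((σ : ℂ) + t * I)) (Ioi 1) := by
  intro t ht
  have ht1 : (1 : ℝ) < t := ht
  have hne : (σ : ℂ) + t * I ≠ 1 := by
    intro h
    have := congrArg Complex.im h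
    simp at this
    linarith
  exact (ContinuousAt.comp (f := fun t : ℝ => (σ : ℂ) + t * I) (g := riemannZeta)
    (differentiableAt_riemannZeta hne).continuousAt (by fun_prop)).continuousWithinAt

theorem Mom_mono {r r' : ℕ} (hr : r' ≤ r) {σ : ℝ} (h : Mom r σ) : Mom r' σ := by
  unfold Mom at h ⊢
  have h2 : IntegrableOn (fun t : ℝ => t ^ (-2 : ℝ)) (Ioi 1) := integrableOn_Ioi_rpow_of_lt (by norm_num) (by norm_num)
  refine (h.add h2).mono' ?_ ?_
  · apply ContinuousOn.aestronglyMeasurable _ measurableSet_Ioi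
    intro t ht
    have ht1 : (1 : ℝ) < t := ht
    exact ((zcont σ t ht).norm.pow (2 * r')).div (by fun_prop) (by positivity)
  · filter_upwards [ae_restrict_mem measurableSet_Ioi] with t ht
    have ht1 : (1 : ℝ) < t := ht
    have ht0 : 0 < t := by linarith
    rw [Real.norm_of_nonneg (by positivity), Pi.add_apply]
    show _ ≤ ‖riemannZeta ((σ : ℂ) + t * I)‖ ^ (2 * r) / t ^ 2 + t ^ (-2 : ℝ)
    rw [Real.rpow_neg ht0.le, Real.rpow_two, ← one_div, ← add_div]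
    apply div_le_div_of_nonneg_right _ (by positivity)
    set z := ‖riemannZeta ((σ : ℂ) + t * I)‖ with hz
    have hz0 : 0 ≤ z := norm_nonneg _
    rcases le_or_gt z 1 with h3 | h3
    · have h4 : z ^ (2 * r') ≤ 1 := pow_le_one₀ hz0 h3
      have h5 : 0 ≤ z ^ (2 * r) := by positivity
      linarith
    · have h4 : z ^ (2 * r') ≤ z ^ (2 * r) := pow_le_pow_right₀ h3.le (by omega)
      linarith

/-- from moments to mean squares -/
theorem mean_error {r : ℕ} {f g : ArithmeticFunction ℝ} (hfg : f = zR ^ r * g) (hg : GS g)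
    (hf : ∃ C : ℝ, ∀ n : ℕ, |f n| ≤ C * (n : ℝ) ^ (1 / 2 : ℝ)) :
    ∃ P : Polynomial ℝ, ∀ θ : ℝ, 1 / 2 ≤ θ → (∀ σ : ℝ, θ < σ → σ < 3 / 2 → Mom r σ) →
      ∀ ε : ℝ, 0 < ε → MSB f P (θ + ε) := by
  obtain ⟨P, E, hE, hEe⟩ := regular r hg
  refine ⟨P, fun θ hθ hm ε hε => ?_⟩
  rcases le_or_gt (3 / 2) (θ + ε) with h | h
  · exact MSB_mono h (MSB_trivial hf P)
  · obtain ⟨B, hB0, hB⟩ := E_poly hg hE hEe (σ := θ + ε) (by linarith)
    obtain ⟨K, hK⟩ := aa_nice hf P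
    have hl2 := E_l2 hg hE hEe (σ := θ + ε) (by linarith) (hm (θ + ε) (by linarith) h)
    have hlap : ∀ s : ℂ, 3 / 2 < s.re → E s = Lap (aa f P) s := by
      intro s hs
      have hs1 : s ≠ 1 := by
        rintro rfl
        simp at hs
        linarith
      have hs0 : s ≠ 0 := by
        rintro rfl
        simp at hs
        linarith
      have h1 := far_eq hfg hg hf P hs
      rw [hEe s hs1 (by linarith)] at h1
      have h2 := mul_left_cancel₀ hs0 h1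
      exact add_right_cancel h2
    have hpal := paley (σ := θ + ε) (A := (r : ℝ)) hK (aa_cont f P) hE hlap (by positivity) hB0 hB (by linarith) (by linarith) hl2
    exact MSB_of hf (by linarith) hpal

/-- the mean square exponent of `f` is at most `θ` -/
def ME (f : ℕ → ℝ) (θ : ℝ) : Prop := ∃ P : Polynomial ℝ, ∀ ε : ℝ, 0 < ε → MSB f P (θ + ε)

theorem g_one {r : ℕ} {f : ArithmeticFunction ℝ} (hf : DivLike r f) : (mR ^ r * f) 1 ≠ 0 := by
  have := ((mRpow_mult r).mul hf.mult).map_one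
  rw [this]; exact one_ne_zero

theorem weighted_all {f : ℕ → ℝ} (hf : ∃ C : ℝ, ∀ n : ℕ, |f n| ≤ C * (n : ℝ) ^ (1 / 2 : ℝ)) {P : Polynomial ℝ} {θ : ℝ}
    (hθ : 1 / 2 ≤ θ) (h : ∀ ε : ℝ, 0 < ε → MSB f P (θ + ε)) (σ : ℝ) (hσ : θ < σ) : ∫⁻ u, ‖hh (aa f P) σ u‖ₑ ^ 2 < ⊤ :=
  weighted hf (θ := θ + (σ - θ) / 2) (by linarith) (h _ (by linarith)) (by linarith)

/-- the criterion -/
theorem criterion {r : ℕ} {f : ArithmeticFunction ℝ} (hf : DivLike r f) {θ : ℝ} (hθ : 1 / 2 ≤ θ) :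
    ME f θ ↔ ∀ σ : ℝ, θ < σ → Mom r σ := by
  have hsm := hf.small (1 / 2) (by norm_num)
  constructor
  · rintro ⟨P, hP⟩ σ hσ
    exact mean_zeta (zR_mR r f) (GS_of hf) (g_one hf) hsm hθ (weighted_all hsm hθ hP) hσ
  · intro h
    obtain ⟨P, hP⟩ := mean_error (zR_mR r f) (GS_of hf) hsm
    exact ⟨P, hP θ hθ fun σ hσ _ => h σ hσ⟩

/-- the comparison theorem -/
theorem comparison {r r' : ℕ} (hr : r' ≤ r) {f g : ArithmeticFunction ℝ} (hf : DivLike r f) (hg : DivLike r' g) {θ : ℝ}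
    (hθ : 1 / 2 ≤ θ) (h : ME f θ) : ME g θ :=
  (criterion hg hθ).2 fun σ hσ => Mom_mono hr ((criterion hf hθ).1 h σ hσ)

/-- the unconditional cases -/
theorem five {r : ℕ} (hr : r ≤ 5) {f : ArithmeticFunction ℝ} (hf : DivLike r f) : ME f (1 / 2) := by
  have hsm := hf.small (1 / 2) (by norm_num)
  obtain ⟨P, hP⟩ := mean_error (zR_mR r f) (GS_of hf) hsm
  exact ⟨P, hP (1 / 2) le_rfl fun σ hσ1 hσ2 => zeta_moment_fin hr hσ1 (by linarith)⟩

/-- a pointwise bound from the mean square -/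
theorem mean_single {r : ℕ} (hr : 1 ≤ r) {f : ArithmeticFunction ℝ} (hf : DivLike r f) {θ : ℝ} (hθ : 1 / 2 ≤ θ)
    (h : ME f θ) {σ : ℝ} (hσ : θ < σ) :
    ∃ C : ℝ, ∀ t : ℝ, 1 ≤ |t| → ‖riemannZeta (σ + t * I)‖ ≤ C * |t| ^ (1 / r : ℝ) := by
  have hsm := hf.small (1 / 2) (by norm_num)
  obtain ⟨P, hP⟩ := h
  obtain ⟨C, T₀, _, hC⟩ := divide hr (GS_of hf) (g_one hf) hθ
    (fun δ hδ σ₂ => zG_point (zR_mR r f) (GS_of hf) hsm hθ (weighted_all hsm hθ hP) hδ σ₂) hσ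
  exact line_one (by positivity) hC

/-- LH from mean squares -/
theorem LH_of_mean (h : ∀ ε : ℝ, 0 < ε → ∀ R : ℕ, ∃ r : ℕ, R ≤ r ∧ ∃ f : ArithmeticFunction ℝ,
    DivLike r f ∧ ME f (1 / 2 + ε)) : LH := by
  intro ε hε
  set δ : ℝ := min (ε / 8) (1 / 8) with hδ
  have hδ0 : 0 < δ := lt_min (by linarith) (by norm_num)
  have hδ1 : δ ≤ 1 / 8 := min_le_right _ _
  have hδε : δ ≤ ε / 8 := min_le_left _ _
  obtain ⟨N, hN⟩ := exists_nat_gt (2 / ε)
  obtain ⟨r, hr, f, hf, hme⟩ := h (δ / 2) (by linarith) (N + 1)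
  have hr1 : 1 ≤ r := by omega
  have hr0 : (0:ℝ) < r := by exact_mod_cast hr1
  obtain ⟨C, hC⟩ := mean_single hr1 hf (θ := 1 / 2 + δ / 2) (by linarith) hme (σ := 1 / 2 + δ) (by linarith)
  obtain ⟨C', hC'⟩ := line_all (by linarith) (by positivity) hC
  obtain ⟨C'', hC''⟩ := Pool.Agent.H16.MM.to_crit (β := 1 / r) (δ := δ) (by positivity) hδ0 (by linarith) ⟨C', hC'⟩
  refine ⟨|C''|, fun t => ?_⟩
  have h1 : (1:ℝ) / r + 4 * δ ≤ ε := by
    have h2 : (1:ℝ) / r ≤ ε / 2 := by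
      rw [div_le_iff₀ hr0]
      have h3 : (N:ℝ) + 1 ≤ r := by exact_mod_cast hr
      rw [div_lt_iff₀ hε] at hN
      nlinarith
    linarith
  have hT : 1 ≤ 1 + |t| := by linarith [abs_nonneg t]
  calc ‖riemannZeta (1 / 2 + t * I)‖ ≤ C'' * (1 + |t|) ^ (1 / r + 4 * δ) := hC'' t
    _ ≤ |C''| * (1 + |t|) ^ ε := by
        apply mul_le_mul (le_abs_self _) (Real.rpow_le_rpow_of_exponent_le hT h1) (by positivity) (abs_nonneg _)

end Pool.Agent.H16.MS
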