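import Pool.Agent.H16.MS.M3

set_option autoImplicit false

/-!
# A Paley-Wiener type bound
-/

namespace Pool.Agent.H16.MS

open Complex Metric Set Filter Topology MeasureTheory
open Pool.Agent.W173.OS Pool.Agent.H295R2
open scoped ENNReal FourierTransform

theorem int_gauss {F : ℝ → ℂ} {C ε : ℝ} (hε : 0 < ε) (hm : Continuous F)
    (hb : ∀ t, ‖F t‖ ≤ C * Real.exp (-(ε * t ^ 2))) : Integrable F :=
  ((integrable_exp_neg_mul_sq hε).const_mul C).mono' hm.aestronglyMeasurable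
    (Eventually.of_forall fun t => by simpa [neg_mul] using hb t)

/-- shifting the line of integration -/
theorem shift_line {F : ℂ → ℂ} {x₀ x₁ C ε : ℝ} (hx : x₀ ≤ x₁) (hε : 0 < ε)
    (hF : ∀ s : ℂ, x₀ ≤ s.re → s.re ≤ x₁ → DifferentiableAt ℂ F s)
    (hb : ∀ s : ℂ, x₀ ≤ s.re → s.re ≤ x₁ → ‖F s‖ ≤ C * Real.exp (-(ε * s.im ^ 2))) :
    ∫ t : ℝ, F ((x₀ : ℂ) + t * I) = ∫ t : ℝ, F ((x₁ : ℂ) + t * I) := by
  have hre : ∀ x t : ℝ, ((x : ℂ) + t * I).re = x := fun x t => by simp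
  have him : ∀ x t : ℝ, ((x : ℂ) + t * I).im = t := fun x t => by simp
  have hc : ∀ x : ℝ, x₀ ≤ x → x ≤ x₁ → Continuous fun t : ℝ => F ((x : ℂ) + t * I) := by
    intro x h0 h1
    rw [continuous_iff_continuousAt]
    intro t
    exact ContinuousAt.comp (f := fun t : ℝ => (x : ℂ) + t * I) (g := F)
      (hF _ (by rw [hre]; exact h0) (by rw [hre]; exact h1)).continuousAt (by fun_prop)
  have hi : ∀ x : ℝ, x₀ ≤ x → x ≤ x₁ → Integrable fun t : ℝ => F ((x : ℂ) + t * I) := by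
    intro x h0 h1
    apply int_gauss hε (hc x h0 h1) (C := C)
    intro t
    have := hb ((x : ℂ) + t * I) (by rw [hre]; exact h0) (by rw [hre]; exact h1)
    rwa [him] at this
  have hrect : ∀ T : ℝ, (∫ x in x₀..x₁, F ((x : ℂ) + ((-T : ℝ) : ℂ) * I)) - (∫ x in x₀..x₁, F ((x : ℂ) + (T : ℂ) * I)) +
      I • (∫ y in (-T)..T, F ((x₁ : ℂ) + y * I)) - I • (∫ y in (-T)..T, F ((x₀ : ℂ) + y * I)) = 0 := by
    intro T
    have h := Complex.integral_boundary_rect_eq_zero_of_differentiableOn F ((x₀ : ℂ) + ((-T : ℝ) : ℂ) * I)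
      ((x₁ : ℂ) + (T : ℂ) * I) (by
        intro s hs
        rw [mem_reProdIm, hre, hre, uIcc_of_le hx] at hs
        exact (hF s hs.1.1 hs.1.2).differentiableWithinAt)
    rw [hre, hre, him, him] at h
    exact h
  have ht1 : Tendsto (fun T : ℝ => ∫ y in (-T)..T, F ((x₁ : ℂ) + y * I)) atTop (𝓝 (∫ y : ℝ, F ((x₁ : ℂ) + y * I))) :=
    intervalIntegral_tendsto_integral (hi x₁ hx le_rfl) tendsto_neg_atTop_atBot tendsto_id
  have ht0 : Tendsto (fun T : ℝ => ∫ y in (-T)..T, F ((x₀ : ℂ) + y * I)) atTop (𝓝 (∫ y : ℝ, F ((x₀ : ℂ) + y * I))) :=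
    intervalIntegral_tendsto_integral (hi x₀ le_rfl hx) tendsto_neg_atTop_atBot tendsto_id
  have hbd : ∀ T v : ℝ, v ^ 2 = T ^ 2 → ‖∫ x in x₀..x₁, F ((x : ℂ) + (v : ℂ) * I)‖ ≤
      C * Real.exp (-(ε * T ^ 2)) * |x₁ - x₀| := by
    intro T v hv
    apply intervalIntegral.norm_integral_le_of_norm_le_const
    intro x hx'
    rw [uIoc_of_le hx] at hx'
    have := hb ((x : ℂ) + v * I) (by rw [hre]; exact hx'.1.le) (by rw [hre]; exact hx'.2)
    rwa [him, hv] at this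
  have hlim : Tendsto (fun T : ℝ => C * Real.exp (-(ε * T ^ 2)) * |x₁ - x₀|) atTop (𝓝 0) := by
    have h1 : Tendsto (fun T : ℝ => ε * T ^ 2) atTop atTop := (tendsto_pow_atTop two_ne_zero).const_mul_atTop hε
    have h2 : Tendsto (fun T : ℝ => Real.exp (-(ε * T ^ 2))) atTop (𝓝 0) := Real.tendsto_exp_neg_atTop_nhds_zero.comp h1
    have h3 := (h2.const_mul C).mul_const |x₁ - x₀|
    simpa using h3
  have hta : Tendsto (fun T : ℝ => ∫ x in x₀..x₁, F ((x : ℂ) + ((-T : ℝ) : ℂ) * I)) atTop (𝓝 0) :=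
    squeeze_zero_norm (fun T => hbd T (-T) (by ring)) hlim
  have htb : Tendsto (fun T : ℝ => ∫ x in x₀..x₁, F ((x : ℂ) + (T : ℂ) * I)) atTop (𝓝 0) :=
    squeeze_zero_norm (fun T => hbd T T rfl) hlim
  have hall := ((hta.sub htb).add (ht1.const_smul I)).sub (ht0.const_smul I)
  simp_rw [hrect] at hall
  have h0 := tendsto_nhds_unique hall tendsto_const_nhds
  rw [sub_self, zero_add, sub_eq_zero, smul_right_inj I_ne_zero] at h0
  exact h0.symm

/-- the bound of a power by a Gaussian -/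
theorem pow_gauss {A ε t : ℝ} (hA : 0 ≤ A) (hε : 0 < ε) :
    (1 + |t|) ^ A * Real.exp (-(ε * t ^ 2)) ≤ Real.exp (A ^ 2 / (2 * ε)) * Real.exp (-(ε / 2 * t ^ 2)) := by
  have h1 : (1 + |t|) ^ A ≤ Real.exp (A * |t|) := by
    have h2 : 1 + |t| ≤ Real.exp |t| := by linarith [Real.add_one_le_exp |t|]
    calc (1 + |t|) ^ A ≤ (Real.exp |t|) ^ A := Real.rpow_le_rpow (by positivity) h2 hA
      _ = Real.exp (A * |t|) := by rw [← Real.exp_mul, mul_comm]
  calc (1 + |t|) ^ A * Real.exp (-(ε * t ^ 2)) ≤ Real.exp (A * |t|) * Real.exp (-(ε * t ^ 2)) := by gcongr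
    _ = Real.exp (A * |t| - ε * t ^ 2) := by rw [← Real.exp_add]; ring_nf
    _ ≤ Real.exp (A ^ 2 / (2 * ε) - ε / 2 * t ^ 2) := by
        apply Real.exp_le_exp.2
        have h3 : A * |t| ≤ A ^ 2 / (2 * ε) + ε / 2 * t ^ 2 := by
          rw [← sq_abs t]
          have h4 : A ^ 2 / (2 * ε) + ε / 2 * |t| ^ 2 - A * |t| = (A - ε * |t|) ^ 2 / (2 * ε) := by
            field_simp
            ring
          have h5 : 0 ≤ (A - ε * |t|) ^ 2 / (2 * ε) := by positivity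
          linarith
        linarith
    _ = _ := by rw [← Real.exp_add]; ring_nf

/-- the Gaussian integral on the line -/
theorem gauss_line {η : ℝ} (hη : 0 < η) (x w : ℝ) :
    ∫ t : ℝ, cexp ((η : ℂ) ^ 2 * ((x : ℂ) + t * I) ^ 2) * cexp (((x : ℂ) + t * I) * w) =
      ((Real.sqrt Real.pi / η : ℝ) : ℂ) * ((Real.exp (-(w ^ 2 / (4 * η ^ 2))) : ℝ) : ℂ) := by
  have hb : (-((η : ℂ) ^ 2)).re < 0 := by
    have : (-((η : ℂ) ^ 2)) = ((-(η ^ 2) : ℝ) : ℂ) := by push_cast; ring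
    rw [this, Complex.ofReal_re]
    have : 0 < η ^ 2 := by positivity
    linarith
  have h := integral_cexp_quadratic hb (I * (2 * (η : ℂ) ^ 2 * x + w)) ((η : ℂ) ^ 2 * (x : ℂ) ^ 2 + x * w)
  have e1 : ∀ t : ℝ, cexp ((η : ℂ) ^ 2 * ((x : ℂ) + t * I) ^ 2) * cexp (((x : ℂ) + t * I) * w) =
      cexp (-((η : ℂ) ^ 2) * (t : ℂ) ^ 2 + I * (2 * (η : ℂ) ^ 2 * x + w) * t + ((η : ℂ) ^ 2 * (x : ℂ) ^ 2 + x * w)) := by
    intro t
    rw [← Complex.exp_add]
    congr 1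
    have hI : I ^ 2 = -1 := I_sq
    linear_combination ((η : ℂ) ^ 2 * (t : ℂ) ^ 2) * hI
  simp_rw [e1]
  rw [h]
  have hηc : (η : ℂ) ≠ 0 := by exact_mod_cast hη.ne'
  congr 1
  · have h2 : ((Real.pi : ℂ) / - -((η : ℂ) ^ 2)) = ((Real.pi / η ^ 2 : ℝ) : ℂ) := by push_cast; ring
    rw [h2]
    have h3 : (1 / 2 : ℂ) = ((1 / 2 : ℝ) : ℂ) := by push_cast; ring
    rw [h3, ← Complex.ofReal_cpow (by positivity)]
    congr 1
    rw [← Real.sqrt_eq_rpow, Real.sqrt_div Real.pi_pos.le, Real.sqrt_sq hη.le]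
  · rw [Complex.ofReal_exp]
    congr 1
    push_cast
    have hI : I ^ 2 = -1 := I_sq
    rw [mul_pow, hI]
    field_simp
    ring

end Pool.Agent.H16.MS
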